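import Pool.Agent.K9h4.DC.Base

/-!
The gaps of a closed set.
-/

set_option autoImplicit false

namespace K9h4.DC

open MeasureTheory Set Filter Topology
open Pool.Agent.Q302.DJ (osc ACStar ACGStar IsPrim pt)

/-- the gaps of a set -/
def Gaps (Q : Set ℝ) : Set (ℝ × ℝ) :=
  {z | z.1 ∈ Q ∧ z.2 ∈ Q ∧ z.1 < z.2 ∧ ∀ t ∈ Ioo z.1 z.2, t ∉ Q}

lemma gaps_eq {Q : Set ℝ} {z w : ℝ × ℝ} (hz : z ∈ Gaps Q) (hw : w ∈ Gaps Q) {t : ℝ}
    (h1 : t ∈ Ioo z.1 z.2) (h2 : t ∈ Ioo w.1 w.2) : z = w := by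
  obtain ⟨z1, z2, z3, z4⟩ := hz
  obtain ⟨w1, w2, w3, w4⟩ := hw
  apply Prod.ext
  · apply le_antisymm
    · by_contra h
      push Not at h
      exact w4 _ ⟨h, h1.1.trans h2.2⟩ z1
    · by_contra h
      push Not at h
      exact z4 _ ⟨h, h2.1.trans h1.2⟩ w1
  · apply le_antisymm
    · by_contra h
      push Not at h
      exact z4 _ ⟨h1.1.trans h2.2, h⟩ w2
    · by_contra h
      push Not at h
      exact w4 _ ⟨h2.1.trans h1.2, h⟩ z2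

lemma gaps_disj {Q : Set ℝ} {z w : ℝ × ℝ} (hz : z ∈ Gaps Q) (hw : w ∈ Gaps Q) (hne : z ≠ w) :
    Disjoint (Ioo z.1 z.2) (Ioo w.1 w.2) := by
  rw [Set.disjoint_left]
  intro t h1 h2
  exact hne (gaps_eq hz hw h1 h2)

lemma gaps_cover {Q : Set ℝ} (hQ : IsClosed Q) {c d : ℝ} (hc : c ∈ Q) (hd : d ∈ Q) {t : ℝ}
    (ht : t ∈ Icc c d) (htQ : t ∉ Q) : ∃ z ∈ Gaps Q, t ∈ Ioo z.1 z.2 := by
  have hA : IsCompact (Q ∩ Icc c t) := isCompact_Icc.inter_left hQ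
  have hB : IsCompact (Q ∩ Icc t d) := isCompact_Icc.inter_left hQ
  obtain ⟨u, hu, hu'⟩ := hA.exists_isGreatest ⟨c, hc, le_rfl, ht.1⟩
  obtain ⟨v, hv, hv'⟩ := hB.exists_isLeast ⟨d, hd, ht.2, le_rfl⟩
  have h1 : u < t := lt_of_le_of_ne hu.2.2 fun h => htQ (h ▸ hu.1)
  have h2 : t < v := lt_of_le_of_ne hv.2.1 fun h => htQ (h ▸ hv.1)
  refine ⟨(u, v), ⟨hu.1, hv.1, h1.trans h2, fun s hs hsQ => ?_⟩, h1, h2⟩
  rcases le_total s t with h | h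
  · have := hu' ⟨hsQ, hu.2.1.trans hs.1.le, h⟩
    exact absurd hs.1 (not_lt.2 this)
  · have := hv' ⟨hsQ, h, hs.2.le.trans hv.2.2⟩
    exact absurd hs.2 (not_lt.2 this)

lemma gaps_finite {Q : Set ℝ} (hQ : IsClosed Q) {c d : ℝ} (hc : c ∈ Q) (hd : d ∈ Q) {ρ : ℝ}
    (hρ : 0 < ρ) : ∃ J : Finset (ℝ × ℝ), (∀ z ∈ J, z ∈ Gaps Q) ∧
      volume ((Icc c d \ Q) \ ⋃ z ∈ J, Ioo z.1 z.2) < ENNReal.ofReal ρ := by
  classical
  have hA : MeasurableSet (Icc c d \ Q) := measurableSet_Icc.diff hQ.measurableSet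
  have hA' : volume (Icc c d \ Q) ≠ ⊤ :=
    ((measure_mono sdiff_subset).trans_lt measure_Icc_lt_top).ne
  obtain ⟨K, hK1, hK2, hK3⟩ := hA.exists_isCompact_sdiff_lt hA' (ε := ENNReal.ofReal ρ)
    (ENNReal.ofReal_pos.2 hρ).ne'
  obtain ⟨T, hT⟩ := hK2.elim_finite_subcover (fun z : Gaps Q => Ioo z.1.1 z.1.2)
    (fun _ => isOpen_Ioo) (by
      intro t ht
      obtain ⟨z, hz, hz'⟩ := gaps_cover hQ hc hd (hK1 ht).1 (hK1 ht).2
      exact mem_iUnion.2 ⟨⟨z, hz⟩, hz'⟩)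
  refine ⟨T.image Subtype.val, ?_, lt_of_le_of_lt (measure_mono ?_) hK3⟩
  · intro z hz
    obtain ⟨w, _, rfl⟩ := Finset.mem_image.1 hz
    exact w.2
  · apply sdiff_subset_sdiff_right
    intro t ht
    obtain ⟨z, hz, hz'⟩ := mem_iUnion₂.1 (hT ht)
    exact mem_iUnion₂.2 ⟨z.1, Finset.mem_image_of_mem _ hz, hz'⟩

/-- a rational point between two reals -/
lemma pt_btwn {a b : ℝ} (hab : a < b) {x y : ℝ} (h : x < y) : ∃ s : ℚ, x < pt a b s ∧ pt a b s < y := by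
  have hba : 0 < b - a := sub_pos.2 hab
  obtain ⟨s, hs1, hs2⟩ := exists_rat_btwn
    (show (x - a) / (b - a) < (y - a) / (b - a) from
      div_lt_div_of_pos_right (by linarith) hba)
  rw [div_lt_iff₀ hba] at hs1
  rw [lt_div_iff₀ hba] at hs2
  refine ⟨s, ?_, ?_⟩ <;> unfold pt <;> linarith

end K9h4.DC
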