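import Pool.Agent.K9h4.DC.IL
import Pool.Agent.K9h4.DC.Gap

/-!
The oscillations on all gaps but finitely many.
-/

set_option autoImplicit false

namespace K9h4.DC

open MeasureTheory Set Filter Topology
open Pool.Agent.Q302.DJ (osc ACStar ACGStar IsPrim pt)

lemma osc_nonneg' {F : ℝ → ℝ} (hF : Continuous F) {c d : ℝ} (h : c ≤ d) : 0 ≤ osc F c d :=
  (abs_nonneg _).trans (Pool.Agent.Q302.DJ.TaskACc.le_osc F hF c d c d (left_mem_Icc.2 h)
    (right_mem_Icc.2 h))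

lemma sum_len {Q : Set ℝ} {c d : ℝ} (hQI : Q ⊆ Icc c d) {J0 J : Finset (ℝ × ℝ)}
    (h0 : ∀ z ∈ J0, z ∈ Gaps Q) (hJ : ∀ z ∈ J, z ∈ Gaps Q) (hdis : Disjoint J J0) {ρ : ℝ}
    (hρ : volume ((Icc c d \ Q) \ ⋃ z ∈ J0, Ioo z.1 z.2) < ENNReal.ofReal ρ) :
    ∑ z ∈ J, (z.2 - z.1) < ρ := by
  have h1 : volume (⋃ z ∈ J, Ioo z.1 z.2) = ∑ z ∈ J, volume (Ioo z.1 z.2) :=
    measure_biUnion_finset (fun z hz w hw hzw => gaps_disj (hJ z hz) (hJ w hw) hzw)
      (fun z _ => measurableSet_Ioo)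
  have h2 : (⋃ z ∈ J, Ioo z.1 z.2) ⊆ (Icc c d \ Q) \ ⋃ z ∈ J0, Ioo z.1 z.2 := by
    intro t ht
    obtain ⟨z, hz, hzt⟩ := mem_iUnion₂.1 ht
    obtain ⟨g1, g2, g3, g4⟩ := hJ z hz
    refine ⟨⟨⟨(hQI g1).1.trans hzt.1.le, hzt.2.le.trans (hQI g2).2⟩, g4 t hzt⟩, fun ht0 => ?_⟩
    obtain ⟨w, hw, hwt⟩ := mem_iUnion₂.1 ht0
    have := gaps_eq (hJ z hz) (h0 w hw) hzt hwt
    exact Finset.disjoint_left.1 hdis hz (this ▸ hw)
  have h3 := (measure_mono h2).trans_lt hρ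
  rw [h1] at h3
  have h4 : ∑ z ∈ J, volume (Ioo z.1 z.2) = ENNReal.ofReal (∑ z ∈ J, (z.2 - z.1)) := by
    rw [ENNReal.ofReal_sum_of_nonneg]
    · exact Finset.sum_congr rfl fun z _ => Real.volume_Ioo
    · intro z hz
      have := (hJ z hz).2.2.1
      linarith
  rw [h4] at h3
  by_contra hcon
  push Not at hcon
  exact absurd h3 (not_lt.2 (ENNReal.ofReal_le_ofReal hcon))

lemma osc_gaps {F : ℝ → ℝ} (hF : Continuous F) {P : Set ℝ} {c d : ℝ} (hcd : c < d)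
    (hAC : ACStar F P) (hP : IsClosed P) (hPI : P ⊆ Icc c d) {ε : ℝ} (hε : 0 < ε) :
    ∃ J0 : Finset (ℝ × ℝ), (∀ z ∈ J0, z ∈ Gaps (P ∪ {c, d})) ∧
      ∀ J : Finset (ℝ × ℝ), (∀ z ∈ J, z ∈ Gaps (P ∪ {c, d})) → Disjoint J J0 →
        ∑ z ∈ J, osc F z.1 z.2 ≤ 3 * ε := by
  classical
  obtain ⟨δ1, hδ1, H⟩ := acstar_fin hAC hε
  have huc := isCompact_Icc.uniformContinuousOn_of_continuous (hF.continuousOn (s := Icc c d))
  rw [Metric.uniformContinuousOn_iff] at huc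
  obtain ⟨δ2, hδ2, H2⟩ := huc ε hε
  have hQ : IsClosed (P ∪ {c, d}) := hP.union (Set.toFinite _).isClosed
  have hQI : P ∪ {c, d} ⊆ Icc c d := by
    rintro x (hx | hx | hx)
    · exact hPI hx
    · rw [hx]; exact left_mem_Icc.2 hcd.le
    · rw [mem_singleton_iff.1 hx]; exact right_mem_Icc.2 hcd.le
  obtain ⟨J0, h0, hρ⟩ := gaps_finite hQ (c := c) (d := d) (Or.inr (Or.inl rfl))
    (Or.inr (Or.inr rfl)) (ρ := min δ1 δ2) (lt_min hδ1 hδ2)
  refine ⟨J0, h0, fun J hJ hdis => ?_⟩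
  have hsum := sum_len hQI h0 hJ hdis hρ
  have hlen : ∀ z ∈ J, z.2 - z.1 < δ2 := by
    intro z hz
    refine lt_of_le_of_lt ?_ (hsum.trans_le (min_le_right _ _))
    exact Finset.single_le_sum (f := fun z : ℝ × ℝ => z.2 - z.1)
      (fun w hw => by have := (hJ w hw).2.2.1; linarith) hz
  have hosc : ∀ z ∈ J, osc F z.1 z.2 ≤ ε := by
    intro z hz
    obtain ⟨g1, g2, g3, g4⟩ := hJ z hz
    apply osc_le_of g3.le
    intro u hu v hv
    have hu' : u ∈ Icc c d := ⟨(hQI g1).1.trans hu.1, hu.2.trans (hQI g2).2⟩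
    have hv' : v ∈ Icc c d := ⟨(hQI g1).1.trans hv.1, hv.2.trans (hQI g2).2⟩
    have := H2 u hu' v hv' (by
      rw [Real.dist_eq, abs_lt]
      have := hlen z hz
      constructor <;> linarith [hu.1, hu.2, hv.1, hv.2])
    rw [Real.dist_eq] at this
    exact this.le
  have hnn : ∀ z ∈ J, 0 ≤ osc F z.1 z.2 := fun z hz => osc_nonneg' hF (hJ z hz).2.2.1.le
  have hA : ∑ z ∈ J.filter (fun z => z.1 ∈ P ∧ z.2 ∈ P), osc F z.1 z.2 < ε := by
    apply H (J.filter (fun z => z.1 ∈ P ∧ z.2 ∈ P)) (fun z => z.1) (fun z => z.2)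
    · intro z hz
      rw [Finset.mem_filter] at hz
      exact ⟨hz.2.1, hz.2.2, (hJ z hz.1).2.2.1⟩
    · intro z hz w hw hzw
      exact gaps_disj (hJ z (Finset.mem_filter.1 hz).1) (hJ w (Finset.mem_filter.1 hw).1) hzw
    · refine lt_of_le_of_lt ?_ (hsum.trans_le (min_le_left _ _))
      apply Finset.sum_le_sum_of_subset_of_nonneg (Finset.filter_subset _ _)
      intro z hz _
      have := (hJ z hz).2.2.1
      linarith
  have hone : ∀ B : Finset (ℝ × ℝ), B ⊆ J → (∀ z ∈ B, ∀ w ∈ B, z = w) →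
      ∑ z ∈ B, osc F z.1 z.2 ≤ ε := by
    intro B hB hB1
    have h1 : B.card ≤ 1 := Finset.card_le_one.2 hB1
    calc ∑ z ∈ B, osc F z.1 z.2 ≤ ∑ _z ∈ B, ε := Finset.sum_le_sum fun z hz => hosc z (hB hz)
      _ = B.card * ε := by rw [Finset.sum_const, nsmul_eq_mul]
      _ ≤ 1 * ε := by
        apply mul_le_mul_of_nonneg_right _ hε.le
        exact_mod_cast h1
      _ = ε := one_mul _
  have hB := hone (J.filter (fun z => z.1 ∉ P)) (Finset.filter_subset _ _) (by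
    intro z hz w hw
    rw [Finset.mem_filter] at hz hw
    have aux : ∀ z ∈ J, z.1 ∉ P → z.1 = c := by
      intro z hz hzP
      obtain ⟨g1, g2, g3, g4⟩ := hJ z hz
      rcases g1 with h | h | h
      · exact absurd h hzP
      · exact h
      · rw [mem_singleton_iff] at h
        exact absurd (hQI g2).2 (not_le.2 (h ▸ g3))
    have e1 := aux z hz.1 hz.2
    have e2 := aux w hw.1 hw.2
    obtain ⟨t, ht1, ht2⟩ := exists_between (lt_min (hJ z hz.1).2.2.1 (e1.trans e2.symm ▸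
      (hJ w hw.1).2.2.1 : z.1 < w.2))
    exact gaps_eq (hJ z hz.1) (hJ w hw.1) ⟨ht1, ht2.trans_le (min_le_left _ _)⟩
      ⟨by rw [e2, ← e1]; exact ht1, ht2.trans_le (min_le_right _ _)⟩)
  have hC := hone (J.filter (fun z => z.2 ∉ P)) (Finset.filter_subset _ _) (by
    intro z hz w hw
    rw [Finset.mem_filter] at hz hw
    have aux : ∀ z ∈ J, z.2 ∉ P → z.2 = d := by
      intro z hz hzP
      obtain ⟨g1, g2, g3, g4⟩ := hJ z hz
      rcases g2 with h | h | h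
      · exact absurd h hzP
      · exact absurd (hQI g1).1 (not_le.2 (h ▸ g3))
      · exact h
    have e1 := aux z hz.1 hz.2
    have e2 := aux w hw.1 hw.2
    obtain ⟨t, ht1, ht2⟩ := exists_between (max_lt (hJ z hz.1).2.2.1 (e1.trans e2.symm ▸
      (hJ w hw.1).2.2.1 : w.1 < z.2))
    exact gaps_eq (hJ z hz.1) (hJ w hw.1) ⟨(le_max_left _ _).trans_lt ht1, ht2⟩
      ⟨(le_max_right _ _).trans_lt ht1, by rw [e2, ← e1]; exact ht2⟩)
  have hcov : ∑ z ∈ J, osc F z.1 z.2 ≤ ∑ z ∈ J.filter (fun z => z.1 ∈ P ∧ z.2 ∈ P), osc F z.1 z.2 +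
      ∑ z ∈ J.filter (fun z => z.1 ∉ P), osc F z.1 z.2 +
      ∑ z ∈ J.filter (fun z => z.2 ∉ P), osc F z.1 z.2 := by
    rw [Finset.sum_filter, Finset.sum_filter, Finset.sum_filter, ← Finset.sum_add_distrib,
      ← Finset.sum_add_distrib]
    apply Finset.sum_le_sum
    intro z hz
    have := hnn z hz
    by_cases h1 : z.1 ∈ P <;> by_cases h2 : z.2 ∈ P <;> simp [h1, h2, this]
  linarith

end K9h4.DC
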