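import Pool.Agent.K9h4.DC.BF
import Pool.Agent.K9h4.DC.OscG

/-!
A continuous function which approximates the integrand on a closed set and on the gaps.
-/

set_option autoImplicit false

namespace K9h4.DC

open MeasureTheory Set Filter Topology
open Pool.Agent.Q302.DJ (osc ACStar ACGStar IsPrim pt)

lemma gap_ineq {f k s : ℝ → ℝ} (hf : Continuous f) (hs : Continuous s) {x y u v : ℝ}
    (hk : ∀ t ∈ Ioo x y, |f t - s t| ≤ k t) (hki : IntegrableOn k (Ioo x y))
    (hxu : x ≤ u) (huv : u ≤ v) (hvy : v ≤ y) :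
    |(∫ t in u..v, f t) - Sg s u v| ≤ ∫ t in Ioo x y, k t := by
  unfold Sg
  rw [← intervalIntegral.integral_sub (hf.intervalIntegrable _ _) (hs.intervalIntegrable _ _)]
  have h1 := intervalIntegral.abs_integral_le_integral_abs (f := fun t => f t - s t)
    (μ := volume) huv
  refine h1.trans ?_
  rw [intervalIntegral.integral_of_le huv]
  have hc : Continuous fun t => |f t - s t| := (hf.sub hs).abs
  have h2 : IntegrableOn (fun t => |f t - s t|) (Icc x y) :=
    hc.continuousOn.integrableOn_Icc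
  calc ∫ t in Ioc u v, |f t - s t| ≤ ∫ t in Icc x y, |f t - s t| := by
        apply setIntegral_mono_set h2 (ae_of_all _ fun t => abs_nonneg _)
        exact ae_of_all _ fun t ht => (⟨hxu.trans ht.1.le, ht.2.trans hvy⟩ : t ∈ Icc x y)
    _ = ∫ t in Ioo x y, |f t - s t| := integral_Icc_eq_integral_Ioo
    _ ≤ ∫ t in Ioo x y, k t :=
        setIntegral_mono_on (h2.mono_set Ioo_subset_Icc_self) hki measurableSet_Ioo hk

lemma exists_s {F φ : ℝ → ℝ} (hF : Continuous F) {P : Set ℝ} {a b c d : ℝ} (hac : a ≤ c)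
    (hcd : c < d) (hdb : d ≤ b) (hAC : ACStar F P) (hP : IsClosed P) (hPI : P ⊆ Icc c d)
    (hd : ∀ᵐ x, x ∈ P → HasDerivAt F (φ x) x) {sm : ℕ → ℝ → ℝ} (hs : ∀ m, Continuous (sm m))
    (hdense : ∀ g : ℝ → ℝ, Continuous g → ∀ η : ℝ, 0 < η → ∃ m, ∀ x ∈ Icc a b, |g x - sm m x| ≤ η)
    {δ : ℝ} (hδ : 0 < δ) :
    ∃ (m : ℕ) (k : ℝ → ℝ) (W : ℝ × ℝ → ℝ), (∀ x, 0 ≤ k x) ∧ IntegrableOn k (Icc c d) ∧
      ∫ x in Icc c d, k x ≤ δ ∧ (∀ x ∈ P, |φ x - sm m x| ≤ k x) ∧
      (∀ z ∈ Gaps (P ∪ {c, d}), 0 ≤ W z ∧ ∀ u v, z.1 ≤ u → u ≤ v → v ≤ z.2 →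
        |F v - F u - Sg (sm m) u v| ≤ W z + ∫ x in Ioo z.1 z.2, k x) ∧
      ∀ J : Finset (ℝ × ℝ), (∀ z ∈ J, z ∈ Gaps (P ∪ {c, d})) → ∑ z ∈ J, W z ≤ δ := by
  classical
  have hPc : IsCompact P := isCompact_Icc.of_isClosed_subset hP hPI
  have hint := integrable_P hF hAC hPc hd
  have hQI : P ∪ {c, d} ⊆ Icc c d := by
    rintro x (hx | hx | hx)
    · exact hPI hx
    · rw [hx]; exact left_mem_Icc.2 hcd.le
    · rw [mem_singleton_iff.1 hx]; exact right_mem_Icc.2 hcd.le
  obtain ⟨J0, h0, hJ0⟩ := osc_gaps hF hcd hAC hP hPI (ε := δ / 6) (by positivity)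
  set η : ℝ := δ / (4 * (J0.card + 1)) with hη
  have hη0 : 0 < η := by positivity
  obtain ⟨g, hg⟩ := exists_polynomial_near_of_continuousOn c d F hF.continuousOn η hη0
  set g' : ℝ → ℝ := fun x => g.derivative.eval x with hg'
  have hgc : Continuous g' := g.derivative.continuous
  have hgint : ∀ u v : ℝ, ∫ t in u..v, g' t = g.eval v - g.eval u := by
    intro u v
    apply intervalIntegral.integral_eq_sub_of_hasDerivAt
    · intro x _
      exact g.hasDerivAt x
    · exact hgc.intervalIntegrable _ _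
  set U : Set ℝ := ⋃ z ∈ J0, Ioo z.1 z.2 with hU
  have hUm : MeasurableSet U := Finset.measurableSet_biUnion _ fun _ _ => measurableSet_Ioo
  have hUI : U ⊆ Icc c d := by
    intro t ht
    obtain ⟨z, hz, hzt⟩ := mem_iUnion₂.1 ht
    obtain ⟨g1, g2, g3, g4⟩ := h0 z hz
    exact ⟨(hQI g1).1.trans hzt.1.le, hzt.2.le.trans (hQI g2).2⟩
  have hUP : ∀ t ∈ U, t ∉ P := by
    intro t ht htP
    obtain ⟨z, hz, hzt⟩ := mem_iUnion₂.1 ht
    exact (h0 z hz).2.2.2 t hzt (Or.inl htP)
  set h : ℝ → ℝ := fun x => P.indicator φ x + U.indicator g' x with hh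
  have hhi : Integrable h := by
    apply Integrable.add
    · exact (integrable_indicator_iff hP.measurableSet).2 hint
    · exact (integrable_indicator_iff hUm).2 (hgc.continuousOn.integrableOn_Icc.mono_set hUI)
  obtain ⟨s0, _, hs1, hs2, hs3⟩ :=
    hhi.exists_hasCompactSupport_integral_sub_le (ε := δ / 2) (by positivity)
  have hdc : 0 < d - c := sub_pos.2 hcd
  obtain ⟨m, hm⟩ := hdense s0 hs2 (δ / (2 * (d - c))) (by positivity)
  set k : ℝ → ℝ := fun x => |h x - sm m x| with hk
  set W : ℝ × ℝ → ℝ := fun z => if z ∈ J0 then 2 * η else osc F z.1 z.2 with hW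
  have hkI : IntegrableOn k (Icc c d) :=
    (hhi.integrableOn.sub ((hs m).continuousOn.integrableOn_Icc)).abs
  refine ⟨m, k, W, fun x => abs_nonneg _, hkI, ?_, ?_, ?_, ?_⟩
  · have hsub : Integrable (fun x => |h x - s0 x|) := (hhi.sub hs3).abs
    have h1 : IntegrableOn (fun x => |h x - s0 x| + δ / (2 * (d - c))) (Icc c d) :=
      hsub.integrableOn.add (integrable_const _)
    calc ∫ x in Icc c d, k x ≤ ∫ x in Icc c d, (|h x - s0 x| + δ / (2 * (d - c))) := by
          apply setIntegral_mono_on hkI h1 measurableSet_Icc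
          intro x hx
          have e1 := hm x ⟨hac.trans hx.1, hx.2.trans hdb⟩
          have e2 : h x - sm m x = (h x - s0 x) + (s0 x - sm m x) := by ring
          simp only [hk]
          rw [e2]
          exact (abs_add_le _ _).trans (by linarith)
      _ = (∫ x in Icc c d, |h x - s0 x|) + δ / 2 := by
          rw [integral_add hsub.integrableOn (integrable_const _)]
          congr 1
          rw [setIntegral_const, Real.volume_real_Icc_of_le hcd.le, smul_eq_mul]
          field_simp
      _ ≤ δ / 2 + δ / 2 := by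
          gcongr
          refine le_trans ?_ hs1
          exact setIntegral_le_integral hsub (ae_of_all _ fun x => abs_nonneg _)
      _ = δ := by ring
  · intro x hx
    have e1 : h x = φ x := by
      simp only [hh]
      rw [indicator_of_mem hx, indicator_of_notMem fun hxU => hUP x hxU hx, add_zero]
    simp only [hk, e1, le_refl]
  · intro z hz
    obtain ⟨g1, g2, g3, g4⟩ := id hz
    have hzI : Icc z.1 z.2 ⊆ Icc c d := Icc_subset_Icc (hQI g1).1 (hQI g2).2
    have hki : IntegrableOn k (Ioo z.1 z.2) := hkI.mono_set (Ioo_subset_Icc_self.trans hzI)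
    by_cases hz0 : z ∈ J0
    · have hWz : W z = 2 * η := if_pos hz0
      rw [hWz]
      refine ⟨by positivity, fun u v hu huv hv => ?_⟩
      have e1 : ∀ t ∈ Ioo z.1 z.2, |g' t - sm m t| ≤ k t := by
        intro t ht
        have e2 : h t = g' t := by
          simp only [hh]
          rw [indicator_of_notMem fun htP => g4 t ht (Or.inl htP),
            indicator_of_mem (mem_iUnion₂.2 ⟨z, hz0, ht⟩), zero_add]
        simp only [hk, e2, le_refl]
      have e3 := gap_ineq hgc (hs m) e1 hki hu huv hv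
      rw [hgint] at e3
      have e4 := hg u (hzI ⟨hu, huv.trans hv⟩)
      have e5 := hg v (hzI ⟨hu.trans huv, hv⟩)
      have e6 : F v - F u - Sg (sm m) u v = (F v - g.eval v) - (F u - g.eval u) +
        (g.eval v - g.eval u - Sg (sm m) u v) := by ring
      rw [e6]
      rw [abs_lt] at e4 e5
      rw [abs_le] at e3 ⊢
      constructor <;> linarith [e4.1, e4.2, e5.1, e5.2, e3.1, e3.2]
    · have hWz : W z = osc F z.1 z.2 := if_neg hz0
      rw [hWz]
      refine ⟨osc_nonneg' hF g3.le, fun u v hu huv hv => ?_⟩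
      have e1 : ∀ t ∈ Ioo z.1 z.2, |(0 : ℝ) - sm m t| ≤ k t := by
        intro t ht
        have e2 : h t = 0 := by
          simp only [hh]
          rw [indicator_of_notMem fun htP => g4 t ht (Or.inl htP), indicator_of_notMem, zero_add]
          intro htU
          obtain ⟨w, hw, hwt⟩ := mem_iUnion₂.1 htU
          have := gaps_eq hz (h0 w hw) ht hwt
          exact hz0 (this ▸ hw)
        simp only [hk, e2, le_refl]
      have e3 := gap_ineq (f := fun _ => (0 : ℝ)) continuous_const (hs m) e1 hki hu huv hv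
      rw [intervalIntegral.integral_zero] at e3
      have e4 := Pool.Agent.Q302.DJ.TaskACc.le_osc F hF z.1 z.2 v u ⟨hu.trans huv, hv⟩
        ⟨hu, huv.trans hv⟩
      rw [abs_le] at e3 e4 ⊢
      constructor <;> linarith [e4.1, e4.2, e3.1, e3.2]
  · intro J hJ
    have e1 : ∑ z ∈ J, W z = ∑ z ∈ J.filter (fun z => z ∈ J0), W z +
        ∑ z ∈ J.filter (fun z => z ∉ J0), W z := (Finset.sum_filter_add_sum_filter_not _ _ _).symm
    have e2 : ∑ z ∈ J.filter (fun z => z ∈ J0), W z ≤ δ / 2 := by
      calc ∑ z ∈ J.filter (fun z => z ∈ J0), W z = ∑ _z ∈ J.filter (fun z => z ∈ J0), 2 * η := by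
            apply Finset.sum_congr rfl
            intro z hz
            exact if_pos (Finset.mem_filter.1 hz).2
        _ = (J.filter (fun z => z ∈ J0)).card * (2 * η) := by rw [Finset.sum_const, nsmul_eq_mul]
        _ ≤ (J0.card + 1) * (2 * η) := by
            apply mul_le_mul_of_nonneg_right _ (by positivity)
            have : (J.filter (fun z => z ∈ J0)).card ≤ J0.card := by
              apply Finset.card_le_card
              intro z hz
              exact (Finset.mem_filter.1 hz).2
            have : ((J.filter (fun z => z ∈ J0)).card : ℝ) ≤ J0.card := by exact_mod_cast this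
            linarith
        _ = δ / 2 := by
            rw [hη]
            field_simp
            ring
    have e3 : ∑ z ∈ J.filter (fun z => z ∉ J0), W z ≤ 3 * (δ / 6) := by
      have e4 : ∑ z ∈ J.filter (fun z => z ∉ J0), W z =
          ∑ z ∈ J.filter (fun z => z ∉ J0), osc F z.1 z.2 := by
        apply Finset.sum_congr rfl
        intro z hz
        exact if_neg (Finset.mem_filter.1 hz).2
      rw [e4]
      apply hJ0
      · intro z hz
        exact hJ z (Finset.mem_filter.1 hz).1
      · rw [Finset.disjoint_left]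
        intro z hz hz0
        exact (Finset.mem_filter.1 hz).2 hz0
    rw [e1]
    linarith

end K9h4.DC
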