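import Pool.Agent.K9h4.DC.ApxA

/-!
The premise of the extension step for a function which is `AC_*` on a closed set.
-/

set_option autoImplicit false

namespace K9h4.DC

open MeasureTheory Set Filter Topology
open Pool.Agent.Q302.DJ (osc ACStar ACGStar IsPrim pt)

/-- indices for which the estimate is strict and whose interval does not meet `P` -/
def RR (a b : ℝ) (sm : ℕ → ℝ → ℝ) (F : ℝ → ℝ) (P : Set ℝ) (z : Ix) : Prop :=
  (0 ≤ z.1 ∧ z.1 < z.2.1 ∧ z.2.1 ≤ 1) ∧ (∀ x ∈ Icc (pt a b z.1) (pt a b z.2.1), x ∉ P) ∧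
    ∃ e0 : ℝ, e0 < z.2.2.2 ∧ ∀ x ∈ Icc (pt a b z.1) (pt a b z.2.1),
      |F x - F (pt a b z.1) - Sg (sm z.2.2.1) (pt a b z.1) x| ≤ e0

theorem approx {a b : ℝ} (hab : a < b) {φ F : ℝ → ℝ} (hφ : Measurable φ) (hF : Continuous F)
    {q r : ℚ} (hq : 0 ≤ q) (hqr : q < r) (hr : r ≤ 1) {P : Set ℝ} (hP : IsClosed P)
    (hPI : P ⊆ Icc (pt a b q) (pt a b r)) (hAC : ACStar F P)
    (hd : ∀ᵐ x, x ∈ P → HasDerivAt F (φ x) x) {sm : ℕ → ℝ → ℝ} (hs : ∀ m, Continuous (sm m))
    (hdense : ∀ g : ℝ → ℝ, Continuous g → ∀ η : ℝ, 0 < η → ∃ m, ∀ x ∈ Icc a b, |g x - sm m x| ≤ η)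
    {δ : ℝ} (hδ : 0 < δ) : ∃ m, Prem a b sm φ (RR a b sm F P) q r m δ := by
  classical
  have pt0 : pt a b 0 = a := by simp [pt]
  have pt1 : pt a b 1 = b := by simp [pt]
  have ptle : ∀ {s t : ℚ}, pt a b s ≤ pt a b t ↔ s ≤ t := Pool.Agent.Q302.DJ.Comp.pt_le hab
  have ptlt : ∀ {s t : ℚ}, pt a b s < pt a b t ↔ s < t := Pool.Agent.Q302.DJ.Comp.pt_lt hab
  set c := pt a b q with hc
  set d := pt a b r with hdd
  have hcd : c < d := ptlt.2 hqr
  have hac : a ≤ c := by rw [← pt0]; exact ptle.2 hq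
  have hdb : d ≤ b := by rw [← pt1]; exact ptle.2 hr
  set ε : ℝ := δ / 10 with hε
  have hε0 : 0 < ε := by positivity
  obtain ⟨m, k, W, hk0, hkI, hkε, hkP, hW, hWsum⟩ :=
    exists_s hF hac hcd hdb hAC hP hPI hd hs hdense hε0
  refine ⟨m, fun n => ?_⟩
  set Q : Set ℝ := P ∪ {c, d} with hQd
  have hQ : IsClosed Q := hP.union (Set.toFinite _).isClosed
  have hQI : Q ⊆ Icc c d := by
    rintro x (hx | hx | hx)
    · exact hPI hx
    · rw [hx]; exact left_mem_Icc.2 hcd.le
    · rw [mem_singleton_iff.1 hx]; exact right_mem_Icc.2 hcd.le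
  set ρ : ℝ := ε / ((n : ℝ) + 1) with hρ
  have hρ0 : 0 < ρ := by positivity
  obtain ⟨J, hJ, hJρ⟩ := gaps_finite hQ (c := c) (d := d) (Or.inr (Or.inl rfl))
    (Or.inr (Or.inr rfl)) hρ0
  set ρ3 : ℝ := ρ / (2 * (J.card + 1)) with hρ3
  have hρ30 : 0 < ρ3 := by positivity
  set ρ2 : ℝ := ε / (J.card + 1) with hρ2
  have hρ20 : 0 < ρ2 := by positivity
  set E : ℝ × ℝ → ℝ := fun z => W z + ∫ x in Ioo z.1 z.2, k x with hE
  have hE0 : ∀ z ∈ J, 0 ≤ E z := fun z hz =>
    add_nonneg (hW z (hJ z hz)).1 (setIntegral_nonneg measurableSet_Ioo fun x _ => hk0 x)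
  -- the choice of the intervals
  have hch : ∀ z : ℝ × ℝ, ∃ w : ℚ × ℚ × ℚ, z ∈ J → z.1 < pt a b w.1 ∧ pt a b w.1 < pt a b w.2.1 ∧
      pt a b w.2.1 < z.2 ∧ pt a b w.1 < z.1 + ρ3 ∧ z.2 - ρ3 < pt a b w.2.1 ∧
      E z < (w.2.2 : ℝ) ∧ (w.2.2 : ℝ) < E z + ρ2 := by
    intro z
    by_cases hz : z ∈ J
    · have hlt := (hJ z hz).2.2.1
      obtain ⟨s, hs1, hs2⟩ := pt_btwn hab (x := z.1) (y := min (z.1 + ρ3) ((z.1 + z.2) / 2))
        (lt_min (by linarith) (by linarith))
      obtain ⟨t, ht1, ht2⟩ := pt_btwn hab (x := max (z.2 - ρ3) ((z.1 + z.2) / 2)) (y := z.2)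
        (max_lt (by linarith) (by linarith))
      obtain ⟨e, he1, he2⟩ := exists_rat_btwn (show E z < E z + ρ2 by linarith)
      refine ⟨(s, t, e), fun _ => ⟨hs1, ?_, ht2, ?_, ?_, he1, he2⟩⟩
      · exact (hs2.trans_le (min_le_right _ _)).trans ((le_max_right _ _).trans_lt ht1)
      · exact hs2.trans_le (min_le_left _ _)
      · exact (le_max_left _ _).trans_lt ht1
    · exact ⟨(0, 0, 0), fun h => absurd h hz⟩
  choose w hw using hch
  set κ : Finset (ℚ × ℚ × ℚ) := J.image w with hκ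
  refine ⟨κ, ?_, ?_⟩
  · intro y hy
    obtain ⟨z, hz, rfl⟩ := Finset.mem_image.1 hy
    obtain ⟨h1, h2, h3, h4, h5, h6, h7⟩ := hw z hz
    obtain ⟨g1, g2, g3, g4⟩ := hJ z hz
    have e1 : q < (w z).1 := ptlt.1 ((hQI g1).1.trans_lt h1)
    have e2 : (w z).2.1 < r := ptlt.1 (h3.trans_le (hQI g2).2)
    have e3 : (w z).1 < (w z).2.1 := ptlt.1 h2
    refine ⟨e1.le, e3, e2.le, ⟨(hq.trans e1.le), e3, e2.le.trans hr⟩, ?_, E z, h6, ?_⟩
    · intro x hx hxP
      exact g4 x ⟨h1.trans_le hx.1, hx.2.trans_lt h3⟩ (Or.inl hxP)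
    · intro x hx
      exact (hW z (hJ z hz)).2 _ _ h1.le hx.1 (hx.2.trans h3.le)
  · have hsumE : ∑ z ∈ J, E z ≤ 2 * ε := by
      simp only [hE]
      rw [Finset.sum_add_distrib]
      have e1 := hWsum J hJ
      have e2 : ∑ z ∈ J, ∫ x in Ioo z.1 z.2, k x ≤ ε := by
        have hsub : ∀ z ∈ J, Ioo z.1 z.2 ⊆ Icc c d := fun z hz =>
          Ioo_subset_Icc_self.trans (Icc_subset_Icc (hQI (hJ z hz).1).1 (hQI (hJ z hz).2.1).2)
        rw [← integral_biUnion_finset J (fun z _ => measurableSet_Ioo)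
          (fun z hz w hw hzw => gaps_disj (hJ z hz) (hJ w hw) hzw)
          (fun z hz => hkI.mono_set (hsub z hz))]
        refine le_trans ?_ hkε
        apply setIntegral_mono_set hkI (ae_of_all _ hk0)
        exact ae_of_all _ fun t ht => by
          obtain ⟨z, hz, hzt⟩ := mem_iUnion₂.1 ht
          exact hsub z hz hzt
      linarith
    have hcard : (J.card : ℝ) * ρ2 ≤ ε := by
      rw [hρ2, mul_div_assoc', div_le_iff₀ (by positivity)]
      nlinarith
    have hsum : ∑ y ∈ κ, 2 * (y.2.2 : ℝ) ≤ 6 * ε := by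
      calc ∑ y ∈ κ, 2 * (y.2.2 : ℝ) ≤ ∑ z ∈ J, 2 * ((w z).2.2 : ℝ) := by
            apply Finset.sum_image_le_of_nonneg
            intro y hy
            obtain ⟨z, hz, rfl⟩ := Finset.mem_image.1 hy
            have := (hw z hz).2.2.2.2.2.1
            have := hE0 z hz
            linarith
        _ ≤ ∑ z ∈ J, (2 * E z + 2 * ρ2) := by
            apply Finset.sum_le_sum
            intro z hz
            have := (hw z hz).2.2.2.2.2.2
            linarith
        _ = 2 * ∑ z ∈ J, E z + J.card * (2 * ρ2) := by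
            rw [Finset.sum_add_distrib, ← Finset.mul_sum, Finset.sum_const, nsmul_eq_mul]
        _ ≤ 6 * ε := by linarith
    set f : ℝ → ℝ := fun x => min |φ x - sm m x| (n : ℝ) with hf
    set A : Set ℝ := Icc c d \ UK a b κ with hA
    have hAm : MeasurableSet A := measurableSet_Icc.diff (UK_meas a b κ)
    have hfA : IntegrableOn f A := int_min hφ (hs m) (Nat.cast_nonneg n) (diff_finite a b q r κ)
    have hint : ∫ x in A, f x ≤ 3 * ε := by
      rw [← integral_inter_add_sdiff hP.measurableSet hfA]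
      have e1 : ∫ x in A ∩ P, f x ≤ ε := by
        refine le_trans ?_ hkε
        calc ∫ x in A ∩ P, f x ≤ ∫ x in A ∩ P, k x := by
              apply setIntegral_mono_on (hfA.mono_set inter_subset_left)
                (hkI.mono_set (inter_subset_left.trans sdiff_subset))
                (hAm.inter hP.measurableSet)
              intro x hx
              exact (min_le_left _ _).trans (hkP x hx.2)
          _ ≤ ∫ x in Icc c d, k x := by
              apply setIntegral_mono_set hkI (ae_of_all _ hk0)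
              exact ae_of_all _ fun t ht => ht.1.1
      have e2 : A \ P ⊆ ((Icc c d \ Q) \ ⋃ z ∈ J, Ioo z.1 z.2) ∪
          ((⋃ z ∈ J, (Ioc z.1 (z.1 + ρ3) ∪ Ico (z.2 - ρ3) z.2)) ∪ {c, d}) := by
        rintro x ⟨⟨hx1, hx2⟩, hx3⟩
        by_cases hxQ : x ∈ Q
        · rcases hxQ with h | h
          · exact absurd h hx3
          · exact Or.inr (Or.inr h)
        · by_cases hxU : x ∈ ⋃ z ∈ J, Ioo z.1 z.2
          · right; left
            obtain ⟨z, hz, hzx⟩ := mem_iUnion₂.1 hxU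
            refine mem_iUnion₂.2 ⟨z, hz, ?_⟩
            obtain ⟨h1, h2, h3, h4, h5, h6, h7⟩ := hw z hz
            by_contra hcon
            rw [mem_union, not_or] at hcon
            apply hx2
            refine mem_iUnion₂.2 ⟨w z, Finset.mem_image_of_mem _ hz, ?_, ?_⟩
            · by_contra h
              push Not at h
              exact hcon.1 ⟨hzx.1, h.le.trans h4.le⟩
            · by_contra h
              push Not at h
              exact hcon.2 ⟨h5.le.trans h.le, hzx.2⟩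
          · exact Or.inl ⟨⟨hx1, hxQ⟩, hxU⟩
      have e3 : volume (A \ P) ≤ ENNReal.ofReal (2 * ρ) := by
        refine (measure_mono e2).trans ((measure_union_le _ _).trans ?_)
        have e4 : volume ((⋃ z ∈ J, (Ioc z.1 (z.1 + ρ3) ∪ Ico (z.2 - ρ3) z.2)) ∪ {c, d}) ≤
            ENNReal.ofReal ρ := by
          refine (measure_union_le _ _).trans ?_
          have e5 : volume ({c, d} : Set ℝ) = 0 := (Set.toFinite _).measure_zero _
          rw [e5, add_zero]
          refine (measure_biUnion_finset_le _ _).trans ?_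
          have e6 : ∀ z ∈ J, volume (Ioc z.1 (z.1 + ρ3) ∪ Ico (z.2 - ρ3) z.2) ≤
              ENNReal.ofReal (2 * ρ3) := by
            intro z _
            refine (measure_union_le _ _).trans ?_
            rw [Real.volume_Ioc, Real.volume_Ico, ← ENNReal.ofReal_add (by linarith) (by linarith)]
            apply ENNReal.ofReal_le_ofReal
            linarith
          refine (Finset.sum_le_sum e6).trans ?_
          rw [Finset.sum_const, nsmul_eq_mul, ← ENNReal.ofReal_natCast,
            ← ENNReal.ofReal_mul (Nat.cast_nonneg _)]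
          apply ENNReal.ofReal_le_ofReal
          rw [hρ3, mul_div_assoc', mul_div_assoc', div_le_iff₀ (by positivity)]
          nlinarith
        refine (add_le_add hJρ.le e4).trans ?_
        rw [← ENNReal.ofReal_add hρ0.le hρ0.le]
        apply ENNReal.ofReal_le_ofReal
        linarith
      have e7 : ∫ x in A \ P, f x ≤ n * (2 * ρ) := by
        have e8 : volume (A \ P) < ⊤ := e3.trans_lt ENNReal.ofReal_lt_top
        have e9 := norm_setIntegral_le_of_norm_le_const (f := f) (C := (n : ℝ)) e8 (by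
          intro x _
          rw [Real.norm_eq_abs, abs_of_nonneg (le_min (abs_nonneg _) (Nat.cast_nonneg _))]
          exact min_le_right _ _)
        refine (le_abs_self _).trans (e9.trans ?_)
        apply mul_le_mul_of_nonneg_left _ (Nat.cast_nonneg _)
        rw [Measure.real]
        exact ENNReal.toReal_le_of_le_ofReal (by positivity) e3
      have e10 : (n : ℝ) * (2 * ρ) ≤ 2 * ε := by
        rw [hρ, mul_div_assoc', mul_div_assoc', div_le_iff₀ (by positivity)]
        nlinarith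
      linarith
    have : 10 * ε = δ := by rw [hε]; ring
    linarith

end K9h4.DC
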