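import Pool.Agent.K9h4.DC.Base

/-!
The premise of the arithmetical extension step, and the bound which it gives for disjoint intervals
in different components.
-/

set_option autoImplicit false

namespace K9h4.DC

open MeasureTheory Set Filter Topology
open Pool.Agent.Q302.DJ (osc ACStar ACGStar IsPrim pt)

/-- the indices: `(q, r, m, e)` stands for the interval `[pt q, pt r]`, the approximation
`∫ s_m` and the error `e` -/
abbrev Ix : Type := ℚ × ℚ × ℕ × ℚ

/-- the true indices for `φ` -/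
def TT (a b : ℝ) (sm : ℕ → ℝ → ℝ) (φ : ℝ → ℝ) (z : Ix) : Prop :=
  (0 ≤ z.1 ∧ z.1 < z.2.1 ∧ z.2.1 ≤ 1) ∧ ∃ F, IsPrim φ F (pt a b z.1) (pt a b z.2.1) ∧
    ∀ x ∈ Icc (pt a b z.1) (pt a b z.2.1),
      |F x - F (pt a b z.1) - Sg (sm z.2.2.1) (pt a b z.1) x| ≤ z.2.2.2

/-- the union of the intervals of a finite set -/
def UK (a b : ℝ) (κ : Finset (ℚ × ℚ × ℚ)) : Set ℝ := ⋃ z ∈ κ, Icc (pt a b z.1) (pt a b z.2.1)

/-- the premise of the extension step -/
def Prem (a b : ℝ) (sm : ℕ → ℝ → ℝ) (φ : ℝ → ℝ) (R : Ix → Prop) (q r : ℚ) (m : ℕ) (e : ℝ) : Prop :=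
  ∀ n : ℕ, ∃ κ : Finset (ℚ × ℚ × ℚ),
    (∀ z ∈ κ, q ≤ z.1 ∧ z.1 < z.2.1 ∧ z.2.1 ≤ r ∧ R (z.1, z.2.1, m, z.2.2)) ∧
    ∑ z ∈ κ, 2 * (z.2.2 : ℝ) +
      ∫ x in Icc (pt a b q) (pt a b r) \ UK a b κ, min |φ x - sm m x| (n : ℝ) ≤ e

lemma UK_meas (a b : ℝ) (κ : Finset (ℚ × ℚ × ℚ)) : MeasurableSet (UK a b κ) :=
  Finset.measurableSet_biUnion _ fun _ _ => measurableSet_Icc

lemma meas_min {φ s : ℝ → ℝ} (hφ : Measurable φ) (hs : Continuous s) (n : ℝ) :
    Measurable (fun x => min |φ x - s x| n) :=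
  ((hφ.sub hs.measurable).abs).min measurable_const

lemma int_min {φ s : ℝ → ℝ} (hφ : Measurable φ) (hs : Continuous s) {n : ℝ} (hn : 0 ≤ n)
    {A : Set ℝ} (hA : volume A ≠ ⊤) : IntegrableOn (fun x => min |φ x - s x| n) A := by
  haveI : IsFiniteMeasure (volume.restrict A) := isFiniteMeasure_restrict.2 hA
  apply Integrable.of_bound (C := n) (meas_min hφ hs n).aestronglyMeasurable
  refine ae_of_all _ fun x => ?_
  rw [Real.norm_eq_abs, abs_of_nonneg (le_min (abs_nonneg _) hn)]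
  exact min_le_right _ _

lemma diff_finite (a b : ℝ) (q r : ℚ) (κ : Finset (ℚ × ℚ × ℚ)) :
    volume (Icc (pt a b q) (pt a b r) \ UK a b κ) ≠ ⊤ :=
  ((measure_mono sdiff_subset).trans_lt measure_Icc_lt_top).ne

lemma TT_nonneg {a b : ℝ} {sm : ℕ → ℝ → ℝ} {φ : ℝ → ℝ} (hab : a < b) {z : Ix}
    (h : TT a b sm φ z) : (0 : ℝ) ≤ z.2.2.2 := by
  obtain ⟨⟨_, h1, _⟩, F, _, h2⟩ := h
  exact (abs_nonneg _).trans
    (h2 _ (left_mem_Icc.2 (Pool.Agent.Q302.DJ.TaskGlue.pt_lt hab h1).le))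

section
variable {a b : ℝ} {sm : ℕ → ℝ → ℝ} {φ : ℝ → ℝ} (hab : a < b) (hφ : Measurable φ)
  (hs : ∀ m, Continuous (sm m))
include hab hφ hs

/-- the image of the part of an interval in a true interval -/
lemma image_cell {z : ℚ × ℚ × ℚ} {m : ℕ} (hz : TT a b sm φ (z.1, z.2.1, m, z.2.2))
    {F : ℝ → ℝ} {x y c : ℝ} (hF : IsPrim φ F x y)
    (hne : (Icc (pt a b z.1) (pt a b z.2.1) ∩ Icc x y).Nonempty) :
    volume ((fun t => F t - Sg (sm m) c t) '' (Icc (pt a b z.1) (pt a b z.2.1) ∩ Icc x y)) ≤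
      ENNReal.ofReal (2 * z.2.2) := by
  obtain ⟨_, G, hG, hGe⟩ := hz
  simp only at hG hGe
  set C := Icc (pt a b z.1) (pt a b z.2.1) with hC
  obtain ⟨t0, ht0⟩ := hne
  set D : ℝ → ℝ := fun t => G t - G (pt a b z.1) - Sg (sm m) (pt a b z.1) t with hD
  set k := F t0 - Sg (sm m) c t0 - D t0 with hk
  have hint : C ∩ Icc x y = Icc (max (pt a b z.1) x) (min (pt a b z.2.1) y) := by
    rw [hC, Icc_inter_Icc]
  have hle : max (pt a b z.1) x ≤ min (pt a b z.2.1) y := by
    rw [hint] at ht0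
    exact ht0.1.trans ht0.2
  have hF' : IsPrim φ F (max (pt a b z.1) x) (min (pt a b z.2.1) y) :=
    prim_mono hF (le_max_right _ _) hle (min_le_right _ _)
  have hG' : IsPrim φ G (max (pt a b z.1) x) (min (pt a b z.2.1) y) :=
    prim_mono hG (le_max_left _ _) hle (min_le_left _ _)
  have hsub : (fun t => F t - Sg (sm m) c t) '' (C ∩ Icc x y) ⊆ Icc (k - z.2.2) (k + z.2.2) := by
    rintro _ ⟨t, ht, rfl⟩
    have h1 := hGe t ht.1
    have h2 : F t - F t0 = G t - G t0 :=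
      prim_diff hF' hG' (hint ▸ ht0) (hint ▸ ht)
    have h3 := Sg_sub (hs m) c t0 t
    have h4 := Sg_sub (hs m) (pt a b z.1) t0 t
    have h5 : F t - Sg (sm m) c t = k + D t := by
      simp only [hk, hD]
      linarith
    have h6 : |D t| ≤ z.2.2 := h1
    rw [abs_le] at h6
    show F t - Sg (sm m) c t ∈ _
    rw [h5]
    constructor <;> linarith
  refine (measure_mono hsub).trans (le_of_eq ?_)
  rw [Real.volume_Icc]
  congr 1
  ring

theorem BF {q r : ℚ} {m : ℕ} {e : ℝ} (hP : Prem a b sm φ (TT a b sm φ) q r m e)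
    {ι : Type*} (J : Finset ι) (x y : ι → ℝ) (F : ι → ℝ → ℝ)
    (hx : ∀ i ∈ J, pt a b q ≤ x i ∧ x i ≤ y i ∧ y i ≤ pt a b r)
    (hF : ∀ i ∈ J, IsPrim φ (F i) (x i) (y i))
    (hdis : ∀ i ∈ J, ∀ j ∈ J, i ≠ j → Disjoint (Icc (x i) (y i)) (Icc (x j) (y j)))
    (hsep : ∀ i ∈ J, ∀ j ∈ J, i ≠ j → ∀ q' r' : ℚ, 0 ≤ q' → q' < r' → r' ≤ 1 →
      (∃ G, IsPrim φ G (pt a b q') (pt a b r')) →
      ¬ ((Icc (pt a b q') (pt a b r') ∩ Icc (x i) (y i)).Nonempty ∧
        (Icc (pt a b q') (pt a b r') ∩ Icc (x j) (y j)).Nonempty)) :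
    ∑ i ∈ J, |F i (y i) - F i (x i) - Sg (sm m) (x i) (y i)| ≤ e := by
  classical
  set u : ι → ℝ → ℝ := fun i t => F i t - Sg (sm m) (x i) t with hu
  set B : ℕ → ι → Set ℝ := fun M i => {t | t ∈ Icc (x i) (y i) ∧ |φ t - sm m t| ≤ M} with hB
  have hprim : ∀ i ∈ J, IsPrim (fun t => φ t - sm m t) (u i) (x i) (y i) := fun i hi =>
    prim_sub (hF i hi) (Sg_prim (hs m) _ _ _)
  -- nonnegativity of `e`
  have he : 0 ≤ e := by
    obtain ⟨κ, h1, h2⟩ := hP 0
    refine le_trans (add_nonneg (Finset.sum_nonneg fun z hz => ?_) ?_) h2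
    · have := TT_nonneg hab (h1 z hz).2.2.2
      simp only at this
      linarith
    · apply setIntegral_nonneg_of_ae
      exact ae_of_all _ fun t => le_min (abs_nonneg _) (Nat.cast_nonneg _)
  have hBm : ∀ M i, MeasurableSet (B M i) := fun M i =>
    measurableSet_Icc.inter (measurableSet_le ((hφ.sub (hs m).measurable).abs) measurable_const)
  have key : ∀ M : ℕ, ∑ i ∈ J, volume (u i '' B M i) ≤ ENNReal.ofReal e := by
    intro M
    obtain ⟨κ, h1, h2⟩ := hP M
    set g : ℝ → ENNReal := fun t => ENNReal.ofReal (min |φ t - sm m t| (M : ℝ)) with hg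
    have step : ∀ i ∈ J, volume (u i '' B M i) ≤
        ∑ z ∈ κ, (if (Icc (pt a b z.1) (pt a b z.2.1) ∩ Icc (x i) (y i)).Nonempty then
          ENNReal.ofReal (2 * z.2.2) else 0) + ∫⁻ t in Icc (x i) (y i) \ UK a b κ, g t := by
      intro i hi
      have hsub : u i '' B M i ⊆ (⋃ z ∈ κ, u i '' (Icc (pt a b z.1) (pt a b z.2.1) ∩
          Icc (x i) (y i))) ∪ u i '' (B M i \ UK a b κ) := by
        rintro _ ⟨t, ht, rfl⟩
        by_cases hU : t ∈ UK a b κ
        · left
          obtain ⟨z, hz, hzt⟩ := mem_iUnion₂.1 hU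
          exact mem_iUnion₂.2 ⟨z, hz, t, ⟨hzt, ht.1⟩, rfl⟩
        · exact Or.inr ⟨t, ⟨ht, hU⟩, rfl⟩
      refine (measure_mono hsub).trans ((measure_union_le _ _).trans (add_le_add ?_ ?_))
      · refine (measure_biUnion_finset_le _ _).trans (Finset.sum_le_sum fun z hz => ?_)
        split_ifs with hne
        · exact image_cell hab hφ hs (h1 z hz).2.2.2 (hF i hi) hne
        · rw [not_nonempty_iff_eq_empty] at hne
          rw [hne, image_empty, measure_empty]
      · have h3 : B M i \ UK a b κ ⊆ Icc (x i) (y i) := fun t ht => ht.1.1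
        refine (prim_image (hprim i hi) h3 ((hBm M i).diff (UK_meas a b κ))).trans ?_
        have h4 : ∫⁻ t in B M i \ UK a b κ, ENNReal.ofReal |φ t - sm m t| =
            ∫⁻ t in B M i \ UK a b κ, g t := by
          apply setLIntegral_congr_fun ((hBm M i).diff (UK_meas a b κ))
          intro t ht
          show _ = ENNReal.ofReal (min _ _)
          rw [min_eq_left ht.1.2]
        rw [h4]
        exact lintegral_mono_set fun t ht => ⟨ht.1.1, ht.2⟩
    refine (Finset.sum_le_sum step).trans ?_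
    rw [Finset.sum_add_distrib, Finset.sum_comm]
    have h5 : ∀ z ∈ κ, ∑ i ∈ J, (if (Icc (pt a b z.1) (pt a b z.2.1) ∩ Icc (x i) (y i)).Nonempty
        then ENNReal.ofReal (2 * (z.2.2 : ℝ)) else 0) ≤ ENNReal.ofReal (2 * z.2.2) := by
      intro z hz
      obtain ⟨⟨hz1, hz2, hz3⟩, G, hG, _⟩ := (h1 z hz).2.2.2
      by_cases hex : ∃ i ∈ J, (Icc (pt a b z.1) (pt a b z.2.1) ∩ Icc (x i) (y i)).Nonempty
      · obtain ⟨i0, hi0, hn0⟩ := hex
        rw [Finset.sum_eq_single_of_mem i0 hi0]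
        · rw [if_pos hn0]
        · intro j hj hne
          rw [if_neg]
          intro hn
          exact hsep i0 hi0 j hj (Ne.symm hne) z.1 z.2.1 hz1 hz2 hz3 ⟨G, hG⟩ ⟨hn0, hn⟩
      · push Not at hex
        rw [Finset.sum_eq_zero]
        · exact bot_le
        · intro i hi
          rw [if_neg]
          rw [hex i hi]
          exact not_nonempty_empty
    have h6 : ∑ i ∈ J, ∫⁻ t in Icc (x i) (y i) \ UK a b κ, g t ≤
        ∫⁻ t in Icc (pt a b q) (pt a b r) \ UK a b κ, g t := by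
      rw [← lintegral_biUnion_finset]
      · apply lintegral_mono_set
        intro t ht
        obtain ⟨i, hi, hti⟩ := mem_iUnion₂.1 ht
        obtain ⟨k1, _, k3⟩ := hx i hi
        exact ⟨⟨k1.trans hti.1.1, hti.1.2.trans k3⟩, hti.2⟩
      · intro i hi j hj hij
        exact (hdis i hi j hj hij).mono sdiff_subset sdiff_subset
      · intro i _
        exact measurableSet_Icc.diff (UK_meas a b κ)
    refine (add_le_add (Finset.sum_le_sum h5) h6).trans ?_
    rw [← ENNReal.ofReal_sum_of_nonneg, ← ofReal_integral_eq_lintegral_ofReal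
      (int_min hφ (hs m) (Nat.cast_nonneg M) (diff_finite a b q r κ))
      (ae_of_all _ fun t => le_min (abs_nonneg _) (Nat.cast_nonneg _)),
      ← ENNReal.ofReal_add]
    · exact ENNReal.ofReal_le_ofReal h2
    · refine Finset.sum_nonneg fun z hz => ?_
      have := TT_nonneg hab (h1 z hz).2.2.2
      simp only at this
      linarith
    · apply setIntegral_nonneg_of_ae
      exact ae_of_all _ fun t => le_min (abs_nonneg _) (Nat.cast_nonneg _)
    · intro z hz
      have := TT_nonneg hab (h1 z hz).2.2.2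
      simp only at this
      linarith
  -- the limit
  have hlim : ∀ i ∈ J, Tendsto (fun M : ℕ => volume (u i '' B M i)) atTop
      (𝓝 (volume (u i '' Icc (x i) (y i)))) := by
    intro i hi
    have hU : u i '' Icc (x i) (y i) = ⋃ M : ℕ, u i '' B M i := by
      rw [← image_iUnion]
      congr 1
      ext t
      simp only [mem_iUnion]
      constructor
      · intro ht
        obtain ⟨M, hM⟩ := exists_nat_ge |φ t - sm m t|
        exact ⟨M, ht, hM⟩
      · rintro ⟨M, ht⟩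
        exact ht.1
    rw [hU]
    apply tendsto_measure_iUnion_atTop
    intro M M' hMM
    apply image_mono
    rintro t ⟨h1, h2⟩
    exact ⟨h1, h2.trans (by exact_mod_cast hMM)⟩
  have hsum := le_of_tendsto' (tendsto_finsetSum J hlim) key
  have hI : ∀ i ∈ J, ENNReal.ofReal |F i (y i) - F i (x i) - Sg (sm m) (x i) (y i)| ≤
      volume (u i '' Icc (x i) (y i)) := by
    intro i hi
    obtain ⟨k1, k2, k3⟩ := hx i hi
    have h6 : ContinuousOn (u i) (uIcc (x i) (y i)) := by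
      rw [uIcc_of_le k2]
      exact (hprim i hi).1.1
    have h7 := measure_mono (μ := volume) (intermediate_value_uIcc h6)
    rw [Real.volume_interval, uIcc_of_le k2] at h7
    refine le_trans (le_of_eq ?_) h7
    congr 2
    simp only [hu]
    have : Sg (sm m) (x i) (x i) = 0 := intervalIntegral.integral_same
    rw [this]
    ring
  have hfin := (Finset.sum_le_sum hI).trans hsum
  rw [← ENNReal.ofReal_sum_of_nonneg fun i _ => abs_nonneg _] at hfin
  exact (ENNReal.ofReal_le_ofReal_iff he).1 hfin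

end

end K9h4.DC
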