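import Mathlib
import Pool.Agent.Q302.DJ.TaskNull
import Pool.Agent.Q302.DJ.TaskSub
import Pool.Agent.Q302.DJ.TaskZero
import Pool.Agent.Q302.DJ.TaskUniq
import Pool.Agent.Q302.DJ.TaskRestr
import Pool.Agent.Q302.DJ.TaskCongr
import Pool.Agent.Q302.DJ.TaskClos
import Pool.Agent.Q302.DJ.TaskACc
import Pool.Agent.Q302.DJ.TaskGlue
import Pool.Agent.Q302.DJ.TaskTrue
import Pool.Agent.Q302.DJ.TaskSound
import Pool.Agent.Q302.DJ.Comp
import Pool.Agent.Q302.DJ.TaskBaire
import Pool.Agent.Q302.DJ.TaskMin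

/-!
Basic facts on the Denjoy integral: restriction, glueing, and the measure of the images of sets
under a primitive.
-/

set_option autoImplicit false

namespace K9h4.DC

open MeasureTheory Set Filter Topology
open Pool.Agent.Q302.DJ (osc ACStar ACGStar IsPrim)

theorem uniq : Pool.Agent.Q302.DJ.TaskUniq :=
  Pool.Agent.Q302.DJ.TaskUniq.main Pool.Agent.Q302.DJ.TaskSub.main
    (Pool.Agent.Q302.DJ.TaskZero.main Pool.Agent.Q302.DJ.TaskNull.main
      Pool.Agent.Q302.DJ.TaskSub.main)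

theorem glueT : Pool.Agent.Q302.DJ.TaskGlue :=
  Pool.Agent.Q302.DJ.TaskGlue.main Pool.Agent.Q302.DJ.TaskClos.main
    Pool.Agent.Q302.DJ.TaskRestr.main Pool.Agent.Q302.DJ.TaskCongr.main

theorem trueT : Pool.Agent.Q302.DJ.TaskTrue := Pool.Agent.Q302.DJ.TaskTrue.main uniq

theorem soundT : Pool.Agent.Q302.DJ.TaskSound := Pool.Agent.Q302.DJ.TaskSound.main glueT

theorem minT : Pool.Agent.Q302.DJ.TaskMin :=
  Pool.Agent.Q302.DJ.TaskMin.main Pool.Agent.Q302.DJ.taskComp
    (Pool.Agent.Q302.DJ.TaskBaire.main Pool.Agent.Q302.DJ.taskComp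
      Pool.Agent.Q302.DJ.TaskACc.main) Pool.Agent.Q302.DJ.TaskCongr.main

lemma acstar_empty (F : ℝ → ℝ) (c : ℝ) : ACStar F {c} := by
  intro ε hε
  refine ⟨1, one_pos, fun n x y h _ _ => ?_⟩
  rcases Nat.eq_zero_or_pos n with rfl | hn
  · simpa using hε
  · obtain ⟨h1, h2, h3⟩ := h ⟨0, hn⟩
    rw [mem_singleton_iff] at h1 h2
    rw [h1, h2] at h3
    exact absurd h3 (lt_irrefl _)

lemma prim_refl (φ F : ℝ → ℝ) (c : ℝ) : IsPrim φ F c c := by
  refine ⟨⟨by rw [Icc_self]; exact continuousOn_singleton _ _, fun _ => {c},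
    fun _ => isClosed_singleton, by rw [Icc_self, iUnion_const], fun _ => acstar_empty F c⟩, ?_⟩
  have : volume.restrict (Icc c c) = 0 := by
    rw [Measure.restrict_eq_zero]
    simp
  rw [this]
  simp

lemma prim_mono {φ F : ℝ → ℝ} {c d c' d' : ℝ} (hF : IsPrim φ F c d) (hc : c ≤ c')
    (h : c' ≤ d') (hd : d' ≤ d) : IsPrim φ F c' d' := by
  rcases h.lt_or_eq with h | rfl
  · exact Pool.Agent.Q302.DJ.TaskRestr.main φ F c d c' d' hc h hd hF
  · exact prim_refl _ _ _

/-- two primitives on the same interval differ by a constant -/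
lemma prim_diff {φ F G : ℝ → ℝ} {c d : ℝ} (hF : IsPrim φ F c d) (hG : IsPrim φ G c d)
    {x y : ℝ} (hx : x ∈ Icc c d) (hy : y ∈ Icc c d) : F y - F x = G y - G x := by
  rcases (hx.1.trans hx.2).lt_or_eq with h | rfl
  · have h1 := uniq φ F G c d h hF hG x hx
    have h2 := uniq φ F G c d h hF hG y hy
    linarith
  · rw [Icc_self, mem_singleton_iff] at hx hy
    rw [hx, hy]
    ring

lemma prim_congr {φ F G : ℝ → ℝ} {c d C : ℝ} (hcd : c ≤ d) (h : ∀ x ∈ Icc c d, F x = G x + C)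
    (hG : IsPrim φ G c d) : IsPrim φ F c d := by
  rcases hcd.lt_or_eq with hcd | rfl
  · exact Pool.Agent.Q302.DJ.TaskCongr.main φ F G c d C hcd h hG
  · exact prim_refl _ _ _

lemma prim_glue {φ F G : ℝ → ℝ} {c m d : ℝ} (hcm : c ≤ m) (hmd : m ≤ d) (hF : IsPrim φ F c m)
    (hG : IsPrim φ G m d) : ∃ H, IsPrim φ H c d := by
  classical
  set H : ℝ → ℝ := fun x => if x ≤ m then F x else G x + (F m - G m) with hH
  have hHF : ∀ x ∈ Icc c m, H x = F x + 0 := by
    intro x hx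
    simp only [hH, if_pos hx.2, add_zero]
  have hHG : ∀ x ∈ Icc m d, H x = G x + (F m - G m) := by
    intro x hx
    by_cases h : x ≤ m
    · have : x = m := le_antisymm h hx.1
      subst this
      simp only [hH, le_refl, if_true]
      ring
    · simp only [hH, if_neg h]
  have h1 := prim_congr hcm hHF hF
  have h2 := prim_congr hmd hHG hG
  obtain ⟨⟨hc1, K, hK1, hK2, hK3⟩, hd1⟩ := h1
  obtain ⟨⟨hc2, L, hL1, hL2, hL3⟩, hd2⟩ := h2
  have hun : Icc c m ∪ Icc m d = Icc c d := Icc_union_Icc_eq_Icc hcm hmd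
  refine ⟨H, ⟨?_, fun n => if Even n then K (n / 2) else L (n / 2), ?_, ?_, ?_⟩, ?_⟩
  · rw [← hun]
    exact hc1.union_of_isClosed hc2 isClosed_Icc isClosed_Icc
  · intro n
    by_cases hn : Even n
    · simp only [if_pos hn]; exact hK1 _
    · simp only [if_neg hn]; exact hL1 _
  · rw [← hun, hK2, hL2]
    ext x
    simp only [mem_union, mem_iUnion]
    constructor
    · rintro (⟨n, hn⟩ | ⟨n, hn⟩)
      · refine ⟨2 * n, ?_⟩
        rw [if_pos (even_two_mul n), Nat.mul_div_cancel_left n two_pos]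
        exact hn
      · refine ⟨2 * n + 1, ?_⟩
        rw [if_neg (by rw [Nat.not_even_iff_odd]; exact odd_two_mul_add_one n),
          show (2 * n + 1) / 2 = n by omega]
        exact hn
    · rintro ⟨n, hn⟩
      by_cases he : Even n
      · rw [if_pos he] at hn
        exact Or.inl ⟨_, hn⟩
      · rw [if_neg he] at hn
        exact Or.inr ⟨_, hn⟩
  · intro n
    by_cases hn : Even n
    · simp only [if_pos hn]; exact hK3 _
    · simp only [if_neg hn]; exact hL3 _
  · rw [← hun, ae_restrict_union_iff]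
    exact ⟨hd1, hd2⟩

lemma osc_le_of {F : ℝ → ℝ} {c d B : ℝ} (hcd : c ≤ d)
    (h : ∀ u ∈ Icc c d, ∀ v ∈ Icc c d, |F u - F v| ≤ B) : osc F c d ≤ B := by
  unfold osc
  apply csSup_le
  · exact ⟨_, ⟨(c, c), ⟨left_mem_Icc.2 hcd, left_mem_Icc.2 hcd⟩, rfl⟩⟩
  · rintro _ ⟨⟨u, v⟩, ⟨hu, hv⟩, rfl⟩
    exact h u hu v hv

/-- the primitive of a continuous function -/
noncomputable def Sg (s : ℝ → ℝ) (c x : ℝ) : ℝ := ∫ t in c..x, s t

lemma Sg_hasDeriv {s : ℝ → ℝ} (hs : Continuous s) (c x : ℝ) : HasDerivAt (Sg s c) (s x) x :=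
  intervalIntegral.integral_hasDerivAt_right (hs.intervalIntegrable _ _)
    (hs.stronglyMeasurableAtFilter _ _) hs.continuousAt

lemma Sg_cont {s : ℝ → ℝ} (hs : Continuous s) (c : ℝ) : Continuous (Sg s c) :=
  continuous_iff_continuousAt.2 fun x => (Sg_hasDeriv hs c x).continuousAt

lemma Sg_sub {s : ℝ → ℝ} (hs : Continuous s) (c x y : ℝ) : Sg s c y - Sg s c x = Sg s x y :=
  intervalIntegral.integral_interval_sub_left (hs.intervalIntegrable _ _) (hs.intervalIntegrable _ _)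

lemma Sg_prim {s : ℝ → ℝ} (hs : Continuous s) (c c' d' : ℝ) : IsPrim s (Sg s c) c' d' := by
  refine ⟨⟨(Sg_cont hs c).continuousOn, fun _ => Icc c' d', fun _ => isClosed_Icc,
    by rw [iUnion_const], fun _ => ?_⟩, ae_of_all _ fun x => Sg_hasDeriv hs c x⟩
  obtain ⟨B, hB⟩ := (isCompact_Icc (a := c') (b := d')).exists_bound_of_continuousOn hs.continuousOn
  intro ε hε
  refine ⟨ε / (|B| + 1), by positivity, fun n x y h1 _ h3 => ?_⟩
  have h4 : ∀ i, osc (Sg s c) (x i) (y i) ≤ (|B| + 1) * (y i - x i) := by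
    intro i
    obtain ⟨hx, hy, hxy⟩ := h1 i
    apply osc_le_of hxy.le
    intro u hu v hv
    rw [Sg_sub hs]
    unfold Sg
    have h5 := intervalIntegral.norm_integral_le_of_norm_le_const (a := v) (b := u) (f := s)
      (C := |B| + 1) (by
        intro t ht
        have ht' : t ∈ Icc c' d' := by
          rw [uIoc, mem_Ioc] at ht
          constructor
          · exact hx.1.trans ((le_min hv.1 hu.1).trans ht.1.le)
          · exact (ht.2.trans (max_le hv.2 hu.2)).trans hy.2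
        exact (hB t ht').trans ((le_abs_self B).trans (by linarith)))
    rw [Real.norm_eq_abs] at h5
    refine h5.trans (mul_le_mul_of_nonneg_left ?_ (by positivity))
    rw [abs_le]
    constructor <;> linarith [hu.1, hu.2, hv.1, hv.2]
  refine (Finset.sum_le_sum fun i _ => h4 i).trans_lt ?_
  rw [← Finset.mul_sum]
  rw [lt_div_iff₀ (by positivity)] at h3
  linarith

lemma prim_sub {φ s F G : ℝ → ℝ} {c d : ℝ} (hF : IsPrim φ F c d) (hG : IsPrim s G c d) :
    IsPrim (fun x => φ x - s x) (fun x => F x - G x) c d := by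
  obtain ⟨⟨hFc, K, hK1, hK2, hK3⟩, hF⟩ := hF
  obtain ⟨⟨hGc, L, hL1, hL2, hL3⟩, hG⟩ := hG
  refine ⟨⟨hFc.sub hGc, fun n => K (Nat.unpair n).1 ∩ L (Nat.unpair n).2,
    fun n => (hK1 _).inter (hL1 _), ?_, ?_⟩, ?_⟩
  · ext y
    constructor
    · intro hy
      have hy1 : y ∈ ⋃ n, K n := hK2 ▸ hy
      have hy2 : y ∈ ⋃ n, L n := hL2 ▸ hy
      obtain ⟨n, hn⟩ := mem_iUnion.mp hy1
      obtain ⟨m, hm⟩ := mem_iUnion.mp hy2
      refine mem_iUnion.mpr ⟨Nat.pair n m, ?_⟩
      rw [Nat.unpair_pair]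
      exact ⟨hn, hm⟩
    · intro hy
      obtain ⟨n, hn⟩ := mem_iUnion.mp hy
      rw [hK2]
      exact mem_iUnion.mpr ⟨_, hn.1⟩
  · intro n
    refine Pool.Agent.Q302.DJ.TaskSub.main F G c d hFc hGc _ _ ?_ (hK3 _) (hL3 _)
    rw [hK2]
    exact subset_iUnion K _
  · filter_upwards [hF, hG] with y h1 h2
    exact h1.sub h2

/-- a primitive maps null sets to null sets -/
lemma prim_null {ψ u : ℝ → ℝ} {c d : ℝ} (hu : IsPrim ψ u c d) {N : Set ℝ} (hN : N ⊆ Icc c d)
    (h0 : volume N = 0) : volume (u '' N) = 0 := by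
  obtain ⟨⟨hcont, K, hK1, hK2, hK3⟩, -⟩ := hu
  rcases N.eq_empty_or_nonempty with rfl | ⟨x0, hx0⟩
  · simp
  have hcd : c ≤ d := (hN hx0).1.trans (hN hx0).2
  set G : ℝ → ℝ := IccExtend hcd (fun z : Icc c d => u z) with hG
  have hGc : Continuous G := by
    rw [hG]
    apply Continuous.Icc_extend'
    exact hcont.domRestrict
  have hGF : ∀ z ∈ Icc c d, G z = u z + 0 := by
    intro z hz
    rw [hG, IccExtend_of_mem _ _ hz, add_zero]
  have hKs : ∀ n, K n ⊆ Icc c d := by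
    intro n
    rw [hK2]
    exact subset_iUnion K n
  have hGK : ∀ n, ACStar G (K n) := by
    intro n ε hε
    obtain ⟨δ, hδ, h⟩ := hK3 n ε hε
    refine ⟨δ, hδ, fun k u v h1 h2 h3 => ?_⟩
    have := h k u v h1 h2 h3
    refine lt_of_eq_of_lt ?_ this
    apply Finset.sum_congr rfl
    intro i _
    exact Pool.Agent.Q302.DJ.TaskCongr.osc_congr hGF (hKs n (h1 i).1) (hKs n (h1 i).2.1)
  have h1 : ∀ n, volume (G '' (K n ∩ N)) = 0 := fun n =>
    Pool.Agent.Q302.DJ.TaskNull.main G (K n) _ hGc (Metric.isBounded_Icc c d |>.subset (hKs n))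
      (hGK n) inter_subset_left (measure_mono_null inter_subset_right h0)
  have h2 : u '' N ⊆ ⋃ n, G '' (K n ∩ N) := by
    rintro _ ⟨z, hz, rfl⟩
    have hz' := hN hz
    rw [hK2, mem_iUnion] at hz'
    obtain ⟨n, hn⟩ := hz'
    rw [mem_iUnion]
    exact ⟨n, z, ⟨hn, hz⟩, by rw [hGF z (hN hz), add_zero]⟩
  exact measure_mono_null h2 (measure_iUnion_null_iff.2 h1)

/-- the measure of the image of a set under a primitive -/
lemma prim_image {ψ u : ℝ → ℝ} {c d : ℝ} (hu : IsPrim ψ u c d) {B : Set ℝ} (hB : B ⊆ Icc c d)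
    (hBm : MeasurableSet B) : volume (u '' B) ≤ ∫⁻ x in B, ENNReal.ofReal |ψ x| := by
  have hder := hu.2
  rw [ae_restrict_iff' measurableSet_Icc, ae_iff] at hder
  obtain ⟨Z, hZ1, hZ2, hZ3⟩ := exists_measurable_superset_of_null hder
  have h1 : volume (u '' (B ∩ Z)) = 0 :=
    prim_null hu (inter_subset_left.trans hB) (measure_mono_null inter_subset_right hZ3)
  have h2 : volume (u '' (B \ Z)) ≤ ∫⁻ x in B \ Z, ENNReal.ofReal |ψ x| := by
    have h3 : ∀ x ∈ B \ Z, HasDerivAt u (ψ x) x := by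
      intro x hx
      by_contra hne
      exact hx.2 (hZ1 (fun hh => hne (hh (hB hx.1))))
    have h4 := addHaar_image_le_lintegral_abs_det_fderiv (μ := volume) (f := u) (hBm.diff hZ2)
      (f' := fun x => ContinuousLinearMap.toSpanSingleton ℝ (ψ x))
      (fun x hx => (h3 x hx).hasFDerivAt.hasFDerivWithinAt)
    refine h4.trans (le_of_eq ?_)
    congr 1
    ext x
    congr 2
    simp [ContinuousLinearMap.det]
  calc volume (u '' B) = volume (u '' (B ∩ Z) ∪ u '' (B \ Z)) := by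
        rw [← image_union, inter_union_sdiff]
    _ ≤ volume (u '' (B ∩ Z)) + volume (u '' (B \ Z)) := measure_union_le _ _
    _ ≤ 0 + ∫⁻ x in B \ Z, ENNReal.ofReal |ψ x| := add_le_add h1.le h2
    _ ≤ ∫⁻ x in B, ENNReal.ofReal |ψ x| := by
        rw [zero_add]
        exact lintegral_mono_set sdiff_subset

end K9h4.DC
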