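import Pool.Agent.K9h4.DC.Main
import Pool.Agent.Q302.DJ.Polish
import Pool.Agent.Q302.DJ.Conv

/-!
The set of the Denjoy integrable functions is coanalytic.
-/

set_option autoImplicit false

namespace K9h4.DC

open MeasureTheory Set Filter Topology
open Pool.Agent.Q302.DJ (osc ACStar ACGStar IsPrim pt CC ex M dM metricM)

lemma min_lip (x y s : ℝ) (n : ℕ) :
    |min |x - s| (n : ℝ) - min |y - s| (n : ℝ)| ≤ ((n : ℝ) + 1) * min 1 |x - y| := by
  have hn : (0 : ℝ) ≤ n := Nat.cast_nonneg n
  have h1 : |min |x - s| (n : ℝ) - min |y - s| (n : ℝ)| ≤ |x - y| := by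
    have h2 := abs_min_sub_min_le_max |x - s| (n : ℝ) |y - s| (n : ℝ)
    have h3 : |(|x - s| - |y - s|)| ≤ |x - y| := by
      have := abs_abs_sub_abs_le_abs_sub (x - s) (y - s)
      rwa [sub_sub_sub_cancel_right] at this
    refine h2.trans (max_le h3 ?_)
    rw [sub_self, abs_zero]
    exact abs_nonneg _
  have h4 : |min |x - s| (n : ℝ) - min |y - s| (n : ℝ)| ≤ n := by
    rw [abs_le]
    have e1 : 0 ≤ min |x - s| (n : ℝ) := le_min (abs_nonneg _) hn
    have e2 : 0 ≤ min |y - s| (n : ℝ) := le_min (abs_nonneg _) hn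
    have e3 : min |x - s| (n : ℝ) ≤ n := min_le_right _ _
    have e4 : min |y - s| (n : ℝ) ≤ n := min_le_right _ _
    constructor <;> linarith
  rcases le_total 1 |x - y| with h | h
  · rw [min_eq_left h]
    linarith
  · rw [min_eq_right h]
    nlinarith [abs_nonneg (x - y)]

lemma int_cont {a b : ℝ} {A : Set ℝ} (hAI : A ⊆ Icc a b) {s : ℝ → ℝ}
    (hs : Continuous s) (n : ℕ) :
    letI := metricM Pool.Agent.Q302.DJ.TaskMetric.main a b
    Continuous (fun f : M a b => ∫ x in A, min |f.rep x - s x| (n : ℝ)) := by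
  letI := metricM Pool.Agent.Q302.DJ.TaskMetric.main a b
  have hfin : volume A ≠ ⊤ := ((measure_mono hAI).trans_lt measure_Icc_lt_top).ne
  have hi : ∀ f : M a b, IntegrableOn (fun x => min |f.rep x - s x| (n : ℝ)) A := fun f =>
    int_min (Pool.Agent.Q302.DJ.Conv.meas f) hs (Nat.cast_nonneg n) hfin
  have hn : (0 : ℝ) ≤ (n : ℝ) + 1 := by positivity
  apply LipschitzWith.continuous (K := ⟨(n : ℝ) + 1, hn⟩)
  apply LipschitzWith.of_dist_le_mul
  intro f g
  have hd : dist f g = dM f g := rfl
  rw [hd, Real.dist_eq, ← integral_sub (hi f) (hi g)]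
  refine (abs_integral_le_integral_abs).trans ?_
  have hI : IntegrableOn (fun x => ((n : ℝ) + 1) * min 1 |f.rep x - g.rep x|) (Icc a b) :=
    (Pool.Agent.Q302.DJ.Conv.integ f g).const_mul _
  calc ∫ x in A, |min |f.rep x - s x| (n : ℝ) - min |g.rep x - s x| (n : ℝ)|
      ≤ ∫ x in A, ((n : ℝ) + 1) * min 1 |f.rep x - g.rep x| := by
        apply setIntegral_mono ((hi f).sub (hi g)).abs (hI.mono_set hAI)
        intro x
        exact min_lip _ _ _ _
    _ ≤ ∫ x in Icc a b, ((n : ℝ) + 1) * min 1 |f.rep x - g.rep x| := by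
        apply setIntegral_mono_set hI
        · exact ae_of_all _ fun x => mul_nonneg hn (le_min zero_le_one (abs_nonneg _))
        · exact ae_of_all _ fun t ht => hAI ht
    _ = ((n : ℝ) + 1) * dM f g := by
        unfold dM
        rw [integral_const_mul]

theorem coanalytic (a b : ℝ) (hab : a < b) :
    letI := metricM Pool.Agent.Q302.DJ.TaskMetric.main a b
    AnalyticSet {f : M a b | ∃ F, IsPrim f.rep F a b}ᶜ := by
  classical
  letI := metricM Pool.Agent.Q302.DJ.TaskMetric.main a b
  haveI : PolishSpace (M a b) := Pool.Agent.Q302.DJ.Polish.polish a b hab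
  set sm : ℕ → ℝ → ℝ := fun m => ex hab.le (TopologicalSpace.denseSeq (CC a b) m) with hsm
  have hs : ∀ m, Continuous (sm m) := fun m =>
    (TopologicalSpace.denseSeq (CC a b) m).continuous.Icc_extend'
  have hdense : ∀ g : ℝ → ℝ, Continuous g → ∀ η : ℝ, 0 < η →
      ∃ m, ∀ x ∈ Icc a b, |g x - sm m x| ≤ η := by
    intro g hg η hη
    set g' : CC a b := ⟨fun x => g x, hg.comp continuous_subtype_val⟩ with hg'
    obtain ⟨m, hm⟩ := (TopologicalSpace.denseRange_denseSeq (CC a b)).exists_dist_lt g' hη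
    refine ⟨m, fun x hx => ?_⟩
    have h1 : sm m x = TopologicalSpace.denseSeq (CC a b) m ⟨x, hx⟩ := by
      simp only [hsm]
      unfold ex
      rw [IccExtend_of_mem _ _ hx]
    have h2 : g x = g' ⟨x, hx⟩ := rfl
    rw [h1, h2, ← Real.dist_eq]
    exact (ContinuousMap.dist_apply_le_dist _).trans hm.le
  have pt0 : pt a b 0 = a := by simp [pt]
  have pt1 : pt a b 1 = b := by simp [pt]
  have ptle : ∀ {s t : ℚ}, pt a b s ≤ pt a b t ↔ s ≤ t := Pool.Agent.Q302.DJ.Comp.pt_le hab
  letI mX : MeasurableSpace (M a b × (Ix → Bool)) := borel _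
  haveI : BorelSpace (M a b × (Ix → Bool)) := ⟨rfl⟩
  have hcoord : ∀ i : Ix, MeasurableSet {z : M a b × (Ix → Bool) | z.2 i = true} := by
    intro i
    have hc : Continuous fun z : M a b × (Ix → Bool) => z.2 i :=
      (continuous_apply i).comp continuous_snd
    exact ((isClosed_discrete {true}).preimage hc).measurableSet
  -- the premises
  have hprem : ∀ (q r : ℚ) (m : ℕ) (e : ℝ), 0 ≤ q → r ≤ 1 →
      MeasurableSet {z : M a b × (Ix → Bool) |
        Prem a b sm z.1.rep (fun i => z.2 i = true) q r m e} := by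
    intro q r m e hq hr
    have hset : {z : M a b × (Ix → Bool) | Prem a b sm z.1.rep (fun i => z.2 i = true) q r m e} =
        ⋂ n : ℕ, ⋃ κ : Finset (ℚ × ℚ × ℚ),
          ((⋂ w ∈ κ, {z : M a b × (Ix → Bool) | q ≤ w.1 ∧ w.1 < w.2.1 ∧ w.2.1 ≤ r ∧
              z.2 (w.1, w.2.1, m, w.2.2) = true}) ∩
            {z : M a b × (Ix → Bool) | ∑ w ∈ κ, 2 * (w.2.2 : ℝ) +
              ∫ x in Icc (pt a b q) (pt a b r) \ UK a b κ, min |z.1.rep x - sm m x| (n : ℝ) ≤ e}) := by
      ext z
      simp only [mem_iInter, mem_iUnion, mem_inter_iff]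
      rfl
    rw [hset]
    refine MeasurableSet.iInter fun n => MeasurableSet.iUnion fun κ => MeasurableSet.inter ?_ ?_
    · refine Finset.measurableSet_biInter κ fun w _ => ?_
      by_cases hw : q ≤ w.1 ∧ w.1 < w.2.1 ∧ w.2.1 ≤ r
      · convert hcoord (w.1, w.2.1, m, w.2.2) using 1
        ext z
        exact ⟨fun h => h.2.2.2, fun h => ⟨hw.1, hw.2.1, hw.2.2, h⟩⟩
      · convert MeasurableSet.empty using 1
        ext z
        constructor
        · intro h
          exact hw ⟨h.1, h.2.1, h.2.2.1⟩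
        · intro h
          exact absurd h (notMem_empty z)
    · have hA : MeasurableSet (Icc (pt a b q) (pt a b r) \ UK a b κ) :=
        measurableSet_Icc.diff (UK_meas a b κ)
      have hAI : Icc (pt a b q) (pt a b r) \ UK a b κ ⊆ Icc a b :=
        sdiff_subset.trans (Icc_subset_Icc (pt0.symm.le.trans (ptle.2 hq))
          ((ptle.2 hr).trans pt1.le))
      have hc := int_cont hAI (hs m) n
      exact (isClosed_le (continuous_const.add (hc.comp continuous_fst))
        continuous_const).measurableSet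
  -- the set of the counterexamples
  set S : Set (M a b × (Ix → Bool)) := {z | Closed a b sm z.1.rep (fun i => z.2 i = true) ∧
    ∀ (m : ℕ) (e : ℚ), ¬ z.2 (0, 1, m, e) = true} with hS
  have hSm : MeasurableSet S := by
    have h1 : S = (⋂ (q : ℚ) (r : ℚ) (m : ℕ) (e : ℚ) (m' : ℕ) (e' : ℚ),
        {z : M a b × (Ix → Bool) | 0 ≤ q → q < r → r ≤ 1 →
          (∀ k : ℕ, ∃ m'' : ℕ, Prem a b sm z.1.rep (fun i => z.2 i = true) q r m''
            (1 / ((k : ℝ) + 1))) →
          Prem a b sm z.1.rep (fun i => z.2 i = true) q r m (e : ℝ) →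
          (∀ x ∈ Icc (pt a b q) (pt a b r),
            |Sg (sm m) (pt a b q) x - Sg (sm m') (pt a b q) x| + (e : ℝ) ≤ (e' : ℝ)) →
          z.2 (q, r, m', e') = true}) ∩
        ⋂ (m : ℕ) (e : ℚ), {z : M a b × (Ix → Bool) | z.2 (0, 1, m, e) = true}ᶜ := by
      ext z
      simp only [mem_iInter, mem_inter_iff]
      rfl
    rw [h1]
    refine MeasurableSet.inter ?_ ?_
    · refine MeasurableSet.iInter fun q => MeasurableSet.iInter fun r => MeasurableSet.iInter fun m =>
        MeasurableSet.iInter fun e => MeasurableSet.iInter fun m' => MeasurableSet.iInter fun e' => ?_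
      by_cases hqr : 0 ≤ q ∧ q < r ∧ r ≤ 1
      · by_cases hx : ∀ x ∈ Icc (pt a b q) (pt a b r),
            |Sg (sm m) (pt a b q) x - Sg (sm m') (pt a b q) x| + (e : ℝ) ≤ (e' : ℝ)
        · have h2 : {z : M a b × (Ix → Bool) | 0 ≤ q → q < r → r ≤ 1 →
              (∀ k : ℕ, ∃ m'' : ℕ, Prem a b sm z.1.rep (fun i => z.2 i = true) q r m''
                (1 / ((k : ℝ) + 1))) →
              Prem a b sm z.1.rep (fun i => z.2 i = true) q r m (e : ℝ) →
              (∀ x ∈ Icc (pt a b q) (pt a b r),
                |Sg (sm m) (pt a b q) x - Sg (sm m') (pt a b q) x| + (e : ℝ) ≤ (e' : ℝ)) →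
              z.2 (q, r, m', e') = true} =
            ((⋂ k : ℕ, ⋃ m'' : ℕ, {z : M a b × (Ix → Bool) |
                Prem a b sm z.1.rep (fun i => z.2 i = true) q r m'' (1 / ((k : ℝ) + 1))}) ∩
              {z : M a b × (Ix → Bool) |
                Prem a b sm z.1.rep (fun i => z.2 i = true) q r m (e : ℝ)})ᶜ ∪
              {z : M a b × (Ix → Bool) | z.2 (q, r, m', e') = true} := by
            ext z
            simp only [mem_union, mem_compl_iff, mem_inter_iff, mem_iInter, mem_iUnion]
            constructor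
            · intro h
              by_cases hp : (∀ k : ℕ, ∃ m'' : ℕ, z ∈ {z : M a b × (Ix → Bool) |
                  Prem a b sm z.1.rep (fun i => z.2 i = true) q r m'' (1 / ((k : ℝ) + 1))}) ∧
                z ∈ {z : M a b × (Ix → Bool) |
                  Prem a b sm z.1.rep (fun i => z.2 i = true) q r m (e : ℝ)}
              · exact Or.inr (h hqr.1 hqr.2.1 hqr.2.2 hp.1 hp.2 hx)
              · exact Or.inl hp
            · rintro (h | h) _ _ _ h3 h4 _
              · exact absurd ⟨h3, h4⟩ h
              · exact h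
          rw [h2]
          exact ((MeasurableSet.iInter fun k => MeasurableSet.iUnion fun m'' =>
            hprem q r m'' _ hqr.1 hqr.2.2).inter (hprem q r m _ hqr.1 hqr.2.2)).compl.union
              (hcoord _)
        · convert MeasurableSet.univ using 1
          ext z
          exact ⟨fun _ => mem_univ z, fun _ _ _ _ _ _ h => absurd h hx⟩
      · convert MeasurableSet.univ using 1
        ext z
        exact ⟨fun _ => mem_univ z, fun _ h1 h2 h3 => absurd ⟨h1, h2, h3⟩ hqr⟩
    · exact MeasurableSet.iInter fun m => MeasurableSet.iInter fun e => (hcoord _).compl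
  have hproj : {f : M a b | ∃ F, IsPrim f.rep F a b}ᶜ = Prod.fst '' S := by
    ext f
    have hch := char (sm := sm) (φ := f.rep) hab (Pool.Agent.Q302.DJ.Conv.meas f) hs hdense
    constructor
    · intro hf
      have h1 : ¬ ∀ R : Ix → Prop, Closed a b sm f.rep R → ∃ (m : ℕ) (e : ℚ), R (0, 1, m, e) :=
        fun h => hf (hch.2 h)
      push Not at h1
      obtain ⟨R, hR, hR'⟩ := h1
      have hRR : (fun i => decide (R i) = true) = R := by
        funext i
        exact decide_eq_true_eq
      refine ⟨(f, fun i => decide (R i)), ⟨?_, fun m e h => ?_⟩, rfl⟩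
      · show Closed a b sm f.rep (fun i => decide (R i) = true)
        rw [hRR]
        exact hR
      · exact hR' m e (of_decide_eq_true h)
    · rintro ⟨⟨f', R⟩, ⟨h1, h2⟩, rfl⟩ hD
      obtain ⟨m, e, h3⟩ := hch.1 hD _ h1
      exact h2 m e h3
  have hP1 : PolishSpace (Ix → Bool) := by
    have h1 : TopologicalSpace.SeparableSpace (Ix → Bool) := inferInstance
    have h2 : TopologicalSpace.IsCompletelyMetrizableSpace (Ix → Bool) := inferInstance
    infer_instance
  have hP2 : PolishSpace (M a b × (Ix → Bool)) := inferInstance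
  rw [hproj]
  exact hSm.analyticSet.image_of_continuous continuous_fst

end K9h4.DC
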