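import Mathlib
import Pool.Agent.K9h4.DC.Meas

/-!
# The set of the Denjoy integrable functions is coanalytic

`M a b` is the space of the measurable functions on `[a, b]` modulo equality almost everywhere, with the
metric `∫ min (1, |f - g|)`, whose topology is the one of convergence in measure. We prove that the set
`Den a b` of the Denjoy integrable functions (definition with `ACG_*`, as in the problem file) is
coanalytic in `M a b`. This disproves the statement of Q1 (and so also that of Q2).

Idea. Let `s_0, s_1, ...` be a dense sequence of continuous functions. Consider the sets `R` of indices
`(q, r, m, e)` which are closed under the following steps: `(q, r, m', e')` is added if for every `k` some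
`m` has the premise with the bound `1 / (k + 1)`, and some `m, e` have the premise with the bound `e` and
`|∫ s_m - ∫ s_m'| + e ≤ e'` on `[q, r]`. The premise for `m` and `e` says: for every `n` there are finitely
many intervals `J` in `[q, r]` with `(J, m, e_J)` in `R` and
`∑ 2 e_J + ∫ min (|f - s_m|, n) ≤ e`, where the integral is over the rest of `[q, r]`. The steps have only
quantifiers over countable sets and `f` enters through integrals which are continuous in `f`; so the set of
the pairs `(f, R)` for which `R` is closed under the steps and has no index for the whole interval is
Borel. We prove that its projection is the complement of `Den a b`: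

* The set of the true indices (there is an indefinite Denjoy integral `F` of `f` on `[q, r]` with
  `|F - F(q) - ∫ s_m| ≤ e`) is closed under the steps. The main point is that `F - ∫ s_m` maps the set
  where `|f - s_m| ≤ n` outside the finitely many intervals to a set of measure at most
  `∫ min (|f - s_m|, n)`, so that the premise bounds the sum of the increments of `F - ∫ s_m` over
  intervals in different components of the set where `f` is locally integrable, uniformly in the
  intervals; this gives a limit of the `∫ s_m`, which is `AC_*` on the complement of these components,
  and a Vitali argument shows that its derivative is `f` almost everywhere there.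
* If `f` is Denjoy integrable, every closed `R` has an index for `[a, b]`, by Baire and approximation in
  `L¹` on a portion on which the indefinite integral is `AC_*`.
-/

set_option autoImplicit false

namespace Pool.Agent.Results.MP_c24d14_lc.DenjoyCoanalytic

open MeasureTheory Set Filter Topology
open Pool.Agent.Q302.DJ (osc ACStar ACGStar IsPrim M dM)

/-- The metric `∫ min (1, |f - g|)` of the space `M[a, b]`. -/
noncomputable instance (a b : ℝ) : MetricSpace (M a b) :=
  Pool.Agent.Q302.DJ.metricM Pool.Agent.Q302.DJ.TaskMetric.main a b

/-- The set of the Denjoy integrable functions: there is `F ∈ ACG_*([a, b])` whose derivative exists and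
is equal to `f` almost everywhere. -/
def Den (a b : ℝ) : Set (M a b) := {f | ∃ F, IsPrim f.rep F a b}

/-- `S` is coanalytic: the complement is analytic. -/
def IsCoanalytic {T : Type} [TopologicalSpace T] (S : Set T) : Prop := AnalyticSet Sᶜ

/-- **The set of the Denjoy integrable functions is coanalytic** in the Polish space `M[a, b]`, whose
topology is the one of the convergence in measure. -/
theorem result (a b : ℝ) (hab : a < b) :
    IsCoanalytic (Den a b) ∧ PolishSpace (M a b) ∧
      ∀ (u : ℕ → M a b) (f : M a b), Tendsto u atTop (𝓝 f) ↔
        TendstoInMeasure (volume.restrict (Icc a b)) (fun n => (u n).rep) atTop f.rep := by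
  refine ⟨K9h4.DC.coanalytic a b hab, Pool.Agent.Q302.DJ.Polish.polish a b hab, fun u f => ?_⟩
  rw [← Pool.Agent.Q302.DJ.Conv.conv_iff]
  exact tendsto_iff_dist_tendsto_zero

end Pool.Agent.Results.MP_c24d14_lc.DenjoyCoanalytic
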