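import Pool.Agent.K9h4.DC.Base

/-!
Integrability of the integrand on the closed sets on which a primitive is `AC_*`.
-/

set_option autoImplicit false

namespace K9h4.DC

open MeasureTheory Set Filter Topology
open Pool.Agent.Q302.DJ (osc ACStar ACGStar IsPrim)

/-- the definition of `AC_*` with finite sets of indices -/
lemma acstar_fin {F : ℝ → ℝ} {K : Set ℝ} (h : ACStar F K) {ε : ℝ} (hε : 0 < ε) :
    ∃ δ : ℝ, 0 < δ ∧ ∀ {ι : Type} (J : Finset ι) (x y : ι → ℝ),
      (∀ i ∈ J, x i ∈ K ∧ y i ∈ K ∧ x i < y i) →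
      (∀ i ∈ J, ∀ j ∈ J, i ≠ j → Disjoint (Ioo (x i) (y i)) (Ioo (x j) (y j))) →
      ∑ i ∈ J, (y i - x i) < δ → ∑ i ∈ J, osc F (x i) (y i) < ε := by
  obtain ⟨δ, hδ, H⟩ := h ε hε
  refine ⟨δ, hδ, fun {ι} J x y h1 h2 h3 => ?_⟩
  have key : ∀ f : ι → ℝ, ∑ k : Fin J.card, f (J.equivFin.symm k) = ∑ i ∈ J, f i := by
    intro f
    rw [← Finset.sum_coe_sort J f]
    exact Equiv.sum_comp J.equivFin.symm (fun i : J => f i)
  have h4 := H J.card (fun k => x (J.equivFin.symm k)) (fun k => y (J.equivFin.symm k))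
    (fun k => h1 _ (J.equivFin.symm k).2)
    (fun i j hij => h2 _ (J.equivFin.symm i).2 _ (J.equivFin.symm j).2 (by
      intro h
      exact hij (J.equivFin.symm.injective (Subtype.ext h))))
    (by rw [key (fun i => y i - x i)]; exact h3)
  rwa [key (fun i => osc F (x i) (y i))] at h4

/-- `AC_*` functions have bounded variation on short pieces -/
lemma bv_cell {F : ℝ → ℝ} {P : Set ℝ} (hF : Continuous F) (hP : ACStar F P) :
    ∃ δ : ℝ, 0 < δ ∧ ∀ x y : ℝ, y - x < δ → BoundedVariationOn F (P ∩ Icc x y) := by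
  obtain ⟨δ, hδ, H⟩ := acstar_fin hP one_pos
  refine ⟨δ, hδ, fun x y hxy => ?_⟩
  unfold BoundedVariationOn
  rw [eVariationOn.eVariationOn_eq_strictMonoOn]
  apply ne_top_of_le_ne_top (b := ENNReal.ofReal 1) ENNReal.ofReal_ne_top
  apply iSup_le
  rintro ⟨n, u, hu, hus⟩
  simp only
  have h1 : ∀ i ∈ Finset.range n, u i < u (i + 1) := by
    intro i hi
    rw [Finset.mem_range] at hi
    exact hu (mem_Iic.2 hi.le) (mem_Iic.2 hi) (Nat.lt_succ_self i)
  have h2 : ∀ i ∈ Finset.range n, u i ∈ P ∧ u (i + 1) ∈ P ∧ u i < u (i + 1) := by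
    intro i hi
    rw [Finset.mem_range] at hi
    exact ⟨(hus i (mem_Iic.2 hi.le)).1, (hus (i + 1) (mem_Iic.2 hi)).1,
      h1 i (Finset.mem_range.2 hi)⟩
  have h3 : ∑ i ∈ Finset.range n, (u (i + 1) - u i) < δ := by
    rw [Finset.sum_range_sub u n]
    have e1 := (hus n (mem_Iic.2 le_rfl)).2.2
    have e2 := (hus 0 (mem_Iic.2 (Nat.zero_le n))).2.1
    linarith
  have h4 := H (Finset.range n) (fun i => u i) (fun i => u (i + 1)) h2 (by
    intro i hi j hj hij
    rw [Finset.mem_range] at hi hj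
    have aux : ∀ i j : ℕ, i < j → j < n → u (i + 1) ≤ u j := fun i j h1 h2 =>
      hu.monotoneOn (mem_Iic.2 (by omega)) (mem_Iic.2 h2.le) h1
    rw [Set.disjoint_left]
    rintro t ⟨ht1, ht2⟩ ⟨ht3, ht4⟩
    rcases lt_or_gt_of_ne hij with h | h
    · have := aux i j h hj
      linarith
    · have := aux j i h hi
      linarith) h3
  have h5 : ∀ i ∈ Finset.range n, edist (F (u (i + 1))) (F (u i)) ≤
      ENNReal.ofReal (osc F (u i) (u (i + 1))) := by
    intro i hi
    rw [edist_dist, Real.dist_eq]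
    apply ENNReal.ofReal_le_ofReal
    have := h1 i hi
    exact Pool.Agent.Q302.DJ.TaskACc.le_osc F hF _ _ _ _ (right_mem_Icc.2 this.le)
      (left_mem_Icc.2 this.le)
  refine (Finset.sum_le_sum h5).trans ?_
  rw [← ENNReal.ofReal_sum_of_nonneg]
  · exact ENNReal.ofReal_le_ofReal h4.le
  · intro i hi
    have := h1 i hi
    exact (abs_nonneg _).trans (Pool.Agent.Q302.DJ.TaskACc.le_osc F hF _ _ _ _
      (right_mem_Icc.2 this.le) (left_mem_Icc.2 this.le))

/-- integrability on compact sets on which the function has bounded variation -/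
lemma integrable_cell {F φ : ℝ → ℝ} {s : Set ℝ} (hs : IsCompact s)
    (hbv : BoundedVariationOn F s) (hd : ∀ᵐ x, x ∈ s → HasDerivAt F (φ x) x) :
    IntegrableOn φ s := by
  rcases s.eq_empty_or_nonempty with rfl | hne
  · exact integrableOn_empty
  obtain ⟨p, q, hp, hq, hpq⟩ := hbv.locallyBoundedVariationOn.exists_monotoneOn_sub_monotoneOn
  obtain ⟨c, hc⟩ := hs.exists_isLeast hne
  obtain ⟨d, hd'⟩ := hs.exists_isGreatest hne
  have hext : ∀ f : ℝ → ℝ, MonotoneOn f s → ∃ g : ℝ → ℝ, Monotone g ∧ EqOn f g s := by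
    intro f hf
    apply hf.exists_monotone_extension
    · exact ⟨f c, by rintro _ ⟨t, ht, rfl⟩; exact hf hc.1 ht (hc.2 ht)⟩
    · exact ⟨f d, by rintro _ ⟨t, ht, rfl⟩; exact hf ht hd'.1 (hd'.2 ht)⟩
  obtain ⟨P, hP, hPs⟩ := hext p hp
  obtain ⟨Q, hQ, hQs⟩ := hext q hq
  have hcd : c ≤ d := hc.2 hd'.1
  have hi : ∀ g : ℝ → ℝ, Monotone g → IntegrableOn (deriv g) s := by
    intro g hg
    have h1 : IntervalIntegrable (deriv g) volume c d := (hg.monotoneOn _).intervalIntegrable_deriv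
    rw [intervalIntegrable_iff_integrableOn_Icc_of_le hcd] at h1
    exact h1.mono_set fun t ht => ⟨hc.2 ht, hd'.2 ht⟩
  refine ((hi P hP).sub (hi Q hQ)).congr ?_
  have hcount : ∀ᵐ x, x ∉ {x | x ∈ s ∧ 𝓝[s ∩ Ioi x] x = ⊥} := by
    exact measure_eq_zero_iff_ae_notMem.1
      ((countable_setOfPred_isolated_right_within (s := s)).measure_zero _)
  rw [Filter.EventuallyEq, ae_restrict_iff' hs.measurableSet]
  filter_upwards [hd, hcount, hP.ae_differentiableAt, hQ.ae_differentiableAt] with x h1 h2 h3 h4 hx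
  have h5 : HasDerivWithinAt F (φ x) s x := (h1 hx).hasDerivWithinAt
  have h6 : HasDerivWithinAt F (deriv P x - deriv Q x) s x := by
    have h7 : HasDerivWithinAt (fun t => P t - Q t) (deriv P x - deriv Q x) s x :=
      (h3.hasDerivAt.sub h4.hasDerivAt).hasDerivWithinAt
    refine h7.congr (fun t ht => ?_) ?_
    · rw [hpq, Pi.sub_apply, hPs ht, hQs ht]
    · rw [hpq, Pi.sub_apply, hPs hx, hQs hx]
  have h8 : UniqueDiffWithinAt ℝ s x := by
    rw [uniqueDiffWithinAt_iff_accPt]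
    have h9 : 𝓝[s ∩ Ioi x] x ≠ ⊥ := fun h => h2 ⟨hx, h⟩
    have h10 : (𝓝[s ∩ Ioi x] x).NeBot := ⟨h9⟩
    rw [accPt_principal_iff_nhdsWithin]
    refine h10.mono (nhdsWithin_mono _ ?_)
    rintro t ⟨ht1, ht2⟩
    exact ⟨ht1, (ne_of_gt ht2 : t ≠ x)⟩
  simp only [Pi.sub_apply]
  exact h8.eq_deriv _ h6 h5

theorem integrable_P {F φ : ℝ → ℝ} {P : Set ℝ} (hF : Continuous F) (hP : ACStar F P)
    (hPc : IsCompact P) (hd : ∀ᵐ x, x ∈ P → HasDerivAt F (φ x) x) : IntegrableOn φ P := by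
  obtain ⟨δ, hδ, H⟩ := bv_cell hF hP
  refine LocallyIntegrableOn.integrableOn_isCompact (fun x _ => ?_) hPc
  refine ⟨P ∩ Icc (x - δ / 3) (x + δ / 3), ?_, ?_⟩
  · exact inter_mem self_mem_nhdsWithin
      (mem_nhdsWithin_of_mem_nhds (Icc_mem_nhds (by linarith) (by linarith)))
  · refine integrable_cell (hPc.inter_right isClosed_Icc) (H _ _ (by linarith)) ?_
    filter_upwards [hd] with t ht ht'
    exact ht ht'.1

end K9h4.DC
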