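import Pool.Agent.K9h4.DC.BF

/-!
Two approximations which satisfy the premise are close to each other.
-/

set_option autoImplicit false

namespace K9h4.DC

open MeasureTheory Set Filter Topology
open Pool.Agent.Q302.DJ (osc ACStar ACGStar IsPrim pt)

/-- `φ` is Denjoy integrable between `x` and `y` -/
def Tr (φ : ℝ → ℝ) (x y : ℝ) : Prop := ∃ G, IsPrim φ G (min x y) (max x y)

lemma Tr.refl (φ : ℝ → ℝ) (x : ℝ) : Tr φ x x := ⟨0, by simpa using prim_refl φ 0 x⟩

lemma Tr.symm {φ : ℝ → ℝ} {x y : ℝ} (h : Tr φ x y) : Tr φ y x := by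
  obtain ⟨G, hG⟩ := h
  exact ⟨G, by rwa [min_comm, max_comm]⟩

lemma Tr.of_mem {φ G : ℝ → ℝ} {c d x y : ℝ} (hG : IsPrim φ G c d) (hx : x ∈ Icc c d)
    (hy : y ∈ Icc c d) : Tr φ x y :=
  ⟨G, prim_mono hG (le_min hx.1 hy.1) min_le_max (max_le hx.2 hy.2)⟩

lemma prim_union {φ F G : ℝ → ℝ} {c d c' d' y : ℝ} (hF : IsPrim φ F c d) (hG : IsPrim φ G c' d')
    (hy : y ∈ Icc c d) (hy' : y ∈ Icc c' d') : ∃ H, IsPrim φ H (min c c') (max d d') := by
  have h1 : ∃ H, IsPrim φ H (min c c') y := by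
    rcases le_total c c' with h | h
    · rw [min_eq_left h]; exact ⟨F, prim_mono hF le_rfl hy.1 hy.2⟩
    · rw [min_eq_right h]; exact ⟨G, prim_mono hG le_rfl hy'.1 hy'.2⟩
  have h2 : ∃ H, IsPrim φ H y (max d d') := by
    rcases le_total d d' with h | h
    · rw [max_eq_right h]; exact ⟨G, prim_mono hG hy'.1 hy'.2 le_rfl⟩
    · rw [max_eq_left h]; exact ⟨F, prim_mono hF hy.1 hy.2 le_rfl⟩
  obtain ⟨H1, h1⟩ := h1
  obtain ⟨H2, h2⟩ := h2
  exact prim_glue ((min_le_left _ _).trans hy.1) (hy.2.trans (le_max_left _ _)) h1 h2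

lemma Tr.trans {φ : ℝ → ℝ} {x y z : ℝ} (h : Tr φ x y) (h' : Tr φ y z) : Tr φ x z := by
  obtain ⟨F, hF⟩ := h
  obtain ⟨G, hG⟩ := h'
  obtain ⟨H, hH⟩ := prim_union (y := y) hF hG ⟨min_le_right _ _, le_max_right _ _⟩
    ⟨min_le_left _ _, le_max_left _ _⟩
  exact Tr.of_mem hH ⟨(min_le_left _ _).trans (min_le_left _ _), (le_max_left _ _).trans (le_max_left _ _)⟩
    ⟨(min_le_right _ _).trans (min_le_right _ _), (le_max_right _ _).trans (le_max_right _ _)⟩

/-- merging a finite set of true intervals -/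
lemma merge {a b : ℝ} (hab : a < b) {φ : ℝ → ℝ} (q r : ℚ) (C : Finset (ℚ × ℚ))
    (hC : ∀ c ∈ C, q ≤ c.1 ∧ c.1 < c.2 ∧ c.2 ≤ r ∧ ∃ G, IsPrim φ G (pt a b c.1) (pt a b c.2)) :
    ∃ H : Finset (ℚ × ℚ),
      (∀ c ∈ H, q ≤ c.1 ∧ c.1 < c.2 ∧ c.2 ≤ r ∧ ∃ G, IsPrim φ G (pt a b c.1) (pt a b c.2)) ∧
      (∀ c ∈ C, ∃ d ∈ H, d.1 ≤ c.1 ∧ c.2 ≤ d.2) ∧
      (∀ c ∈ H, ∀ d ∈ H, c ≠ d → ¬ Tr φ (pt a b c.1) (pt a b d.1)) := by
  classical
  have ptle : ∀ {s t : ℚ}, s ≤ t → pt a b s ≤ pt a b t := fun h =>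
    Pool.Agent.Q302.DJ.TaskGlue.pt_le hab h
  set cls : ℚ × ℚ → Finset (ℚ × ℚ) := fun c =>
    C.filter fun d => Tr φ (pt a b c.1) (pt a b d.1) with hcls
  have hself : ∀ c ∈ C, c ∈ cls c := fun c hc => Finset.mem_filter.2 ⟨hc, Tr.refl _ _⟩
  have hne1 : ∀ c ∈ C, ((cls c).image Prod.fst).Nonempty := fun c hc =>
    ⟨c.1, Finset.mem_image_of_mem _ (hself c hc)⟩
  have hne2 : ∀ c ∈ C, ((cls c).image Prod.snd).Nonempty := fun c hc =>
    ⟨c.2, Finset.mem_image_of_mem _ (hself c hc)⟩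
  set lo : ℚ × ℚ → ℚ := fun c => if h : ((cls c).image Prod.fst).Nonempty then
    ((cls c).image Prod.fst).min' h else 0 with hlo
  set hi : ℚ × ℚ → ℚ := fun c => if h : ((cls c).image Prod.snd).Nonempty then
    ((cls c).image Prod.snd).max' h else 0 with hhi
  have lo_eq : ∀ c (hc : c ∈ C), lo c = ((cls c).image Prod.fst).min' (hne1 c hc) := fun c hc =>
    dif_pos (hne1 c hc)
  have hi_eq : ∀ c (hc : c ∈ C), hi c = ((cls c).image Prod.snd).max' (hne2 c hc) := fun c hc =>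
    dif_pos (hne2 c hc)
  have lo_le : ∀ c ∈ C, ∀ d ∈ cls c, lo c ≤ d.1 := by
    intro c hc d hd
    rw [lo_eq c hc]
    exact Finset.min'_le _ _ (Finset.mem_image_of_mem _ hd)
  have le_hi : ∀ c ∈ C, ∀ d ∈ cls c, d.2 ≤ hi c := by
    intro c hc d hd
    rw [hi_eq c hc]
    exact Finset.le_max' _ _ (Finset.mem_image_of_mem _ hd)
  have lo_mem : ∀ c ∈ C, ∃ d ∈ cls c, d.1 = lo c := by
    intro c hc
    have := Finset.min'_mem _ (hne1 c hc)
    rw [← lo_eq c hc] at this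
    obtain ⟨d, hd, h⟩ := Finset.mem_image.1 this
    exact ⟨d, hd, h⟩
  have hi_mem : ∀ c ∈ C, ∃ d ∈ cls c, d.2 = hi c := by
    intro c hc
    have := Finset.max'_mem _ (hne2 c hc)
    rw [← hi_eq c hc] at this
    obtain ⟨d, hd, h⟩ := Finset.mem_image.1 this
    exact ⟨d, hd, h⟩
  have hTlo : ∀ c ∈ C, Tr φ (pt a b c.1) (pt a b (lo c)) := by
    intro c hc
    obtain ⟨d, hd, h⟩ := lo_mem c hc
    rw [← h]
    exact (Finset.mem_filter.1 hd).2
  have hThi : ∀ c ∈ C, Tr φ (pt a b c.1) (pt a b (hi c)) := by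
    intro c hc
    obtain ⟨d, hd, h⟩ := hi_mem c hc
    rw [← h]
    obtain ⟨hd1, hd2⟩ := Finset.mem_filter.1 hd
    obtain ⟨_, h2, _, G, hG⟩ := hC d hd1
    exact hd2.trans (Tr.of_mem hG (left_mem_Icc.2 (ptle h2.le)) (right_mem_Icc.2 (ptle h2.le)))
  have hlt : ∀ c ∈ C, lo c ≤ c.1 ∧ c.2 ≤ hi c := fun c hc =>
    ⟨lo_le c hc c (hself c hc), le_hi c hc c (hself c hc)⟩
  refine ⟨C.image fun c => (lo c, hi c), ?_, ?_, ?_⟩
  · intro d hd
    obtain ⟨c, hc, rfl⟩ := Finset.mem_image.1 hd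
    obtain ⟨h1, h2⟩ := hlt c hc
    have h3 := (hC c hc).2.1
    have h4 : lo c < hi c := h1.trans_lt (h3.trans_le h2)
    refine ⟨?_, h4, ?_, ?_⟩
    · obtain ⟨d, hd, h⟩ := lo_mem c hc
      show q ≤ lo c
      rw [← h]
      exact (hC d (Finset.mem_filter.1 hd).1).1
    · obtain ⟨d, hd, h⟩ := hi_mem c hc
      show hi c ≤ r
      rw [← h]
      exact (hC d (Finset.mem_filter.1 hd).1).2.2.1
    · obtain ⟨G, hG⟩ := (hTlo c hc).symm.trans (hThi c hc)
      rw [min_eq_left (ptle h4.le), max_eq_right (ptle h4.le)] at hG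
      exact ⟨G, hG⟩
  · intro c hc
    exact ⟨_, Finset.mem_image_of_mem _ hc, hlt c hc⟩
  · intro d hd d' hd' hne hT
    obtain ⟨c, hc, rfl⟩ := Finset.mem_image.1 hd
    obtain ⟨c', hc', rfl⟩ := Finset.mem_image.1 hd'
    apply hne
    have h1 : Tr φ (pt a b c.1) (pt a b c'.1) := ((hTlo c hc).trans hT).trans (hTlo c' hc').symm
    have h2 : cls c = cls c' := by
      ext x
      simp only [hcls, Finset.mem_filter]
      constructor
      · rintro ⟨h3, h4⟩
        exact ⟨h3, h1.symm.trans h4⟩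
      · rintro ⟨h3, h4⟩
        exact ⟨h3, h1.trans h4⟩
    simp only [hlo, hhi, h2]

section
variable {a b : ℝ} {sm : ℕ → ℝ → ℝ} {φ : ℝ → ℝ} (hab : a < b) (hφ : Measurable φ)
  (hs : ∀ m, Continuous (sm m))
include hab hφ hs

omit hab hφ in
lemma Sg_diff (m m' : ℕ) {u v : ℝ} (huv : u ≤ v) :
    Sg (sm m) u v - Sg (sm m') u v = ∫ t in Ioo u v, (sm m t - sm m' t) := by
  unfold Sg
  rw [← intervalIntegral.integral_sub ((hs m).intervalIntegrable _ _)
    ((hs m').intervalIntegrable _ _), intervalIntegral.integral_of_le huv,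
    integral_Ioc_eq_integral_Ioo]

theorem Key {q r : ℚ} {m m' : ℕ} {e e' : ℝ}
    (hq : 0 ≤ q) (hr : r ≤ 1)
    (hP : Prem a b sm φ (TT a b sm φ) q r m e) (hP' : Prem a b sm φ (TT a b sm φ) q r m' e')
    {ι : Type*} (J : Finset ι) (u v : ι → ℝ)
    (hu : ∀ i ∈ J, pt a b q ≤ u i ∧ u i ≤ v i ∧ v i ≤ pt a b r)
    (hdis : ∀ i ∈ J, ∀ j ∈ J, i ≠ j → Disjoint (Ioo (u i) (v i)) (Ioo (u j) (v j)))
    (hsep : ∀ i ∈ J, ∀ j ∈ J, i ≠ j → ∀ q' r' : ℚ, 0 ≤ q' → q' < r' → r' ≤ 1 →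
      (∃ G, IsPrim φ G (pt a b q') (pt a b r')) →
      ¬ ((Ioo (pt a b q') (pt a b r') ∩ Ioo (u i) (v i)).Nonempty ∧
        (Ioo (pt a b q') (pt a b r') ∩ Ioo (u j) (v j)).Nonempty)) :
    ∑ i ∈ J, |Sg (sm m) (u i) (v i) - Sg (sm m') (u i) (v i)| ≤ 2 * (e + e') := by
  classical
  set w : ℝ → ℝ := fun t => sm m t - sm m' t with hw
  have hwc : Continuous w := (hs m).sub (hs m')
  obtain ⟨B, hB⟩ := (isCompact_Icc (a := pt a b q) (b := pt a b r)).exists_bound_of_continuousOn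
    hwc.continuousOn
  obtain ⟨n, hn⟩ := exists_nat_ge B
  obtain ⟨κ, h1, h2⟩ := hP n
  obtain ⟨κ', h1', h2'⟩ := hP' n
  obtain ⟨H, hH1, hH2, hH3⟩ := merge hab (φ := φ) q r ((κ ∪ κ').image fun z => (z.1, z.2.1)) (by
    intro c hc
    obtain ⟨z, hz, rfl⟩ := Finset.mem_image.1 hc
    rcases Finset.mem_union.1 hz with hz | hz
    · obtain ⟨k1, k2, k3, _, G, hG, _⟩ := h1 z hz
      exact ⟨k1, k2, k3, G, hG⟩
    · obtain ⟨k1, k2, k3, _, G, hG, _⟩ := h1' z hz
      exact ⟨k1, k2, k3, G, hG⟩)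
  have hlt : ∀ c ∈ H, pt a b c.1 < pt a b c.2 := fun c hc =>
    Pool.Agent.Q302.DJ.TaskGlue.pt_lt hab (hH1 c hc).2.1
  have hin : ∀ c ∈ H, pt a b q ≤ pt a b c.1 ∧ pt a b c.2 ≤ pt a b r := fun c hc =>
    ⟨Pool.Agent.Q302.DJ.TaskGlue.pt_le hab (hH1 c hc).1,
      Pool.Agent.Q302.DJ.TaskGlue.pt_le hab (hH1 c hc).2.2.1⟩
  set W : Set ℝ := ⋃ c ∈ H, Icc (pt a b c.1) (pt a b c.2) with hW
  have hWm : MeasurableSet W := Finset.measurableSet_biUnion _ fun _ _ => measurableSet_Icc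
  have hUW : UK a b κ ∪ UK a b κ' ⊆ W := by
    have : ∀ z ∈ κ ∪ κ', Icc (pt a b z.1) (pt a b z.2.1) ⊆ W := by
      intro z hz t ht
      obtain ⟨d, hd, hd1, hd2⟩ := hH2 _ (Finset.mem_image_of_mem (fun z : ℚ × ℚ × ℚ => (z.1, z.2.1)) hz)
      exact mem_iUnion₂.2 ⟨d, hd, (Pool.Agent.Q302.DJ.TaskGlue.pt_le hab hd1).trans ht.1,
        ht.2.trans (Pool.Agent.Q302.DJ.TaskGlue.pt_le hab hd2)⟩
    rintro t (ht | ht)
    · obtain ⟨z, hz, hzt⟩ := mem_iUnion₂.1 ht
      exact this z (Finset.mem_union_left _ hz) hzt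
    · obtain ⟨z, hz, hzt⟩ := mem_iUnion₂.1 ht
      exact this z (Finset.mem_union_right _ hz) hzt
  -- a true interval meets at most one of the merged intervals
  have hsepH : ∀ c ∈ H, ∀ d ∈ H, c ≠ d → ∀ q' r' : ℚ, 0 ≤ q' → q' < r' → r' ≤ 1 →
      (∃ G, IsPrim φ G (pt a b q') (pt a b r')) →
      ∀ A ⊆ Icc (pt a b c.1) (pt a b c.2), ∀ A' ⊆ Icc (pt a b d.1) (pt a b d.2),
      ¬ ((Icc (pt a b q') (pt a b r') ∩ A).Nonempty ∧
        (Icc (pt a b q') (pt a b r') ∩ A').Nonempty) := by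
    rintro c hc d hd hcd q' r' _ _ _ ⟨G, hG⟩ A hA A' hA' ⟨⟨x, hx, hxA⟩, ⟨y, hy, hyA⟩⟩
    obtain ⟨_, _, _, G1, hG1⟩ := hH1 c hc
    obtain ⟨_, _, _, G2, hG2⟩ := hH1 d hd
    exact hH3 c hc d hd hcd (((Tr.of_mem hG1 (left_mem_Icc.2 (hlt c hc).le) (hA hxA)).trans
      (Tr.of_mem hG hx hy)).trans (Tr.of_mem hG2 (hA' hyA) (left_mem_Icc.2 (hlt d hd).le)))
  have hdisH : ∀ c ∈ H, ∀ d ∈ H, c ≠ d →
      Disjoint (Icc (pt a b c.1) (pt a b c.2)) (Icc (pt a b d.1) (pt a b d.2)) := by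
    intro c hc d hd hcd
    rw [Set.disjoint_left]
    intro x hx hx'
    exact hsepH c hc d hd hcd c.1 c.2 (hq.trans (hH1 c hc).1) (hH1 c hc).2.1
      ((hH1 c hc).2.2.1.trans hr) (hH1 c hc).2.2.2 _ subset_rfl _ subset_rfl
      ⟨⟨x, hx, hx⟩, ⟨x, hx, hx'⟩⟩
  have hint : ∀ i ∈ J, IntegrableOn w (Ioo (u i) (v i)) := fun i _ =>
    (hwc.continuousOn.integrableOn_Icc (a := u i) (b := v i)).mono_set Ioo_subset_Icc_self
  -- the decomposition
  have hdec : ∀ i ∈ J, |Sg (sm m) (u i) (v i) - Sg (sm m') (u i) (v i)| ≤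
      ∑ c ∈ H, |∫ t in Ioo (u i) (v i) ∩ Icc (pt a b c.1) (pt a b c.2), w t| +
        ∫ t in Ioo (u i) (v i) \ W, |w t| := by
    intro i hi
    rw [Sg_diff hs m m' (hu i hi).2.1, ← integral_inter_add_sdiff hWm (hint i hi)]
    have e1 : ∫ t in Ioo (u i) (v i) ∩ W, w t =
        ∑ c ∈ H, ∫ t in Ioo (u i) (v i) ∩ Icc (pt a b c.1) (pt a b c.2), w t := by
      rw [hW, inter_iUnion₂]
      apply integral_biUnion_finset
      · intro c _
        exact measurableSet_Ioo.inter measurableSet_Icc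
      · intro c hc d hd hcd
        exact (hdisH c hc d hd hcd).mono inter_subset_right inter_subset_right
      · intro c _
        exact (hint i hi).mono_set inter_subset_left
    refine (abs_add_le _ _).trans (add_le_add ?_ ?_)
    · rw [e1]
      exact Finset.abs_sum_le_sum_abs _ _
    · exact abs_integral_le_integral_abs
  refine (Finset.sum_le_sum hdec).trans ?_
  rw [Finset.sum_add_distrib, Finset.sum_comm]
  -- the second part
  have hB2 : ∑ i ∈ J, ∫ t in Ioo (u i) (v i) \ W, |w t| ≤ e + e' := by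
    have e1 : ∑ i ∈ J, ∫ t in Ioo (u i) (v i) \ W, |w t| =
        ∫ t in ⋃ i ∈ J, (Ioo (u i) (v i) \ W), |w t| := by
      rw [integral_biUnion_finset]
      · intro i _
        exact measurableSet_Ioo.diff hWm
      · intro i hi j hj hij
        exact (hdis i hi j hj hij).mono sdiff_subset sdiff_subset
      · intro i hi
        exact ((hint i hi).mono_set sdiff_subset).abs
    rw [e1]
    set I := Icc (pt a b q) (pt a b r) with hI
    have hIn : volume I ≠ ⊤ := measure_Icc_lt_top.ne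
    have hintI : IntegrableOn (fun t => |w t|) I := (hwc.abs.continuousOn).integrableOn_Icc
    have hn0 : (0 : ℝ) ≤ n := Nat.cast_nonneg n
    have e2 : ∫ t in ⋃ i ∈ J, (Ioo (u i) (v i) \ W), |w t| ≤
        ∫ t in I \ (UK a b κ ∪ UK a b κ'), |w t| := by
      apply setIntegral_mono_set (hintI.mono_set sdiff_subset)
      · exact ae_of_all _ fun t => abs_nonneg _
      · apply LE.le.eventuallyLE
        intro t ht
        obtain ⟨i, hi, hti⟩ := mem_iUnion₂.1 ht
        obtain ⟨k1, _, k3⟩ := hu i hi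
        exact ⟨⟨k1.trans hti.1.1.le, hti.1.2.le.trans k3⟩, fun h => hti.2 (hUW h)⟩
    have e3 : ∫ t in I \ (UK a b κ ∪ UK a b κ'), |w t| ≤
        ∫ t in I \ (UK a b κ ∪ UK a b κ'), (min |φ t - sm m t| n + min |φ t - sm m' t| n) := by
      apply setIntegral_mono_on (hintI.mono_set sdiff_subset)
      · exact ((int_min hφ (hs m) hn0 hIn).add (int_min hφ (hs m') hn0 hIn)).mono_set sdiff_subset
      · exact measurableSet_Icc.diff ((UK_meas a b κ).union (UK_meas a b κ'))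
      · intro t ht
        have h3 : |w t| ≤ n := (hB t ht.1).trans hn
        have h4 : |w t| ≤ |φ t - sm m t| + |φ t - sm m' t| := by
          have : w t = (φ t - sm m' t) - (φ t - sm m t) := by simp only [hw]; ring
          rw [this]
          exact (abs_sub _ _).trans (by linarith)
        rcases le_total |φ t - sm m t| n with k1 | k1
        · rcases le_total |φ t - sm m' t| n with k2 | k2
          · rw [min_eq_left k1, min_eq_left k2]; exact h4
          · rw [min_eq_right k2]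
            have := le_min (abs_nonneg (φ t - sm m t)) hn0
            linarith
        · rw [min_eq_right k1]
          have := le_min (abs_nonneg (φ t - sm m' t)) hn0
          linarith
    have e4 : ∫ t in I \ (UK a b κ ∪ UK a b κ'), (min |φ t - sm m t| n + min |φ t - sm m' t| n) =
        (∫ t in I \ (UK a b κ ∪ UK a b κ'), min |φ t - sm m t| n) +
        ∫ t in I \ (UK a b κ ∪ UK a b κ'), min |φ t - sm m' t| n :=
      integral_add ((int_min hφ (hs m) hn0 hIn).mono_set sdiff_subset)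
        ((int_min hφ (hs m') hn0 hIn).mono_set sdiff_subset)
    have e5 : ∫ t in I \ (UK a b κ ∪ UK a b κ'), min |φ t - sm m t| (n : ℝ) ≤ e := by
      refine le_trans ?_ h2
      have h5 : 0 ≤ ∑ z ∈ κ, 2 * (z.2.2 : ℝ) := Finset.sum_nonneg fun z hz => by
        have := TT_nonneg hab (h1 z hz).2.2.2
        simp only at this
        linarith
      have h6 : ∫ t in I \ (UK a b κ ∪ UK a b κ'), min |φ t - sm m t| (n : ℝ) ≤
          ∫ t in I \ UK a b κ, min |φ t - sm m t| (n : ℝ) := by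
        apply setIntegral_mono_set ((int_min hφ (hs m) hn0 hIn).mono_set sdiff_subset)
        · exact ae_of_all _ fun t => le_min (abs_nonneg _) hn0
        · apply LE.le.eventuallyLE
          intro t ht
          exact ⟨ht.1, fun h => ht.2 (Or.inl h)⟩
      linarith
    have e6 : ∫ t in I \ (UK a b κ ∪ UK a b κ'), min |φ t - sm m' t| (n : ℝ) ≤ e' := by
      refine le_trans ?_ h2'
      have h5 : 0 ≤ ∑ z ∈ κ', 2 * (z.2.2 : ℝ) := Finset.sum_nonneg fun z hz => by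
        have := TT_nonneg hab (h1' z hz).2.2.2
        simp only at this
        linarith
      have h6 : ∫ t in I \ (UK a b κ ∪ UK a b κ'), min |φ t - sm m' t| (n : ℝ) ≤
          ∫ t in I \ UK a b κ', min |φ t - sm m' t| (n : ℝ) := by
        apply setIntegral_mono_set ((int_min hφ (hs m') hn0 hIn).mono_set sdiff_subset)
        · exact ae_of_all _ fun t => le_min (abs_nonneg _) hn0
        · apply LE.le.eventuallyLE
          intro t ht
          exact ⟨ht.1, fun h => ht.2 (Or.inr h)⟩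
      linarith
    linarith
  -- the first part
  have hA2 : ∑ c ∈ H, ∑ i ∈ J, |∫ t in Ioo (u i) (v i) ∩ Icc (pt a b c.1) (pt a b c.2), w t| ≤
      e + e' := by
    have hch : ∀ c ∈ H, ∃ α β : ℝ, pt a b c.1 ≤ α ∧ α ≤ β ∧ β ≤ pt a b c.2 ∧
        ∑ i ∈ J, |∫ t in Ioo (u i) (v i) ∩ Icc (pt a b c.1) (pt a b c.2), w t| ≤
          |Sg (sm m) α β - Sg (sm m') α β| := by
      intro c hc
      have hz : ∀ i ∈ J, ¬ (Ioo (pt a b c.1) (pt a b c.2) ∩ Ioo (u i) (v i)).Nonempty →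
          ∫ t in Ioo (u i) (v i) ∩ Icc (pt a b c.1) (pt a b c.2), w t = 0 := by
        intro i _ hne
        rw [not_nonempty_iff_eq_empty] at hne
        have h5 : volume (Ioo (u i) (v i) ∩ Icc (pt a b c.1) (pt a b c.2)) = 0 := by
          apply measure_mono_null (t := {pt a b c.1, pt a b c.2})
          · rintro t ⟨ht1, ht2⟩
            by_contra hcon
            rw [mem_insert_iff, mem_singleton_iff, not_or] at hcon
            have : t ∈ Ioo (pt a b c.1) (pt a b c.2) ∩ Ioo (u i) (v i) :=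
              ⟨⟨lt_of_le_of_ne ht2.1 (Ne.symm hcon.1), lt_of_le_of_ne ht2.2 hcon.2⟩, ht1⟩
            rw [hne] at this
            exact this
          · exact (Set.toFinite _).measure_zero _
        rw [Measure.restrict_eq_zero.2 h5, integral_zero_measure]
      by_cases hex : ∃ i ∈ J, (Ioo (pt a b c.1) (pt a b c.2) ∩ Ioo (u i) (v i)).Nonempty
      · obtain ⟨i0, hi0, hn0⟩ := hex
        have hle : max (pt a b c.1) (u i0) < min (pt a b c.2) (v i0) := by
          obtain ⟨t, ht1, ht2⟩ := hn0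
          exact (max_lt ht1.1 ht2.1).trans (lt_min ht1.2 ht2.2)
        refine ⟨max (pt a b c.1) (u i0), min (pt a b c.2) (v i0), le_max_left _ _, hle.le,
          min_le_left _ _, ?_⟩
        rw [Finset.sum_eq_single_of_mem i0 hi0]
        · rw [Sg_diff hs m m' hle.le]
          apply le_of_eq
          congr 1
          apply setIntegral_congr_set
          rw [← Ioo_inter_Ioo, inter_comm]
          exact Filter.EventuallyEq.inter Ioo_ae_eq_Icc.symm (ae_eq_refl _)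
        · intro j hj hne
          rw [hz j hj, abs_zero]
          intro hn
          exact hsep i0 hi0 j hj (Ne.symm hne) c.1 c.2 (hq.trans (hH1 c hc).1) (hH1 c hc).2.1
            ((hH1 c hc).2.2.1.trans hr) (hH1 c hc).2.2.2 ⟨hn0, hn⟩
      · push Not at hex
        refine ⟨pt a b c.1, pt a b c.1, le_rfl, le_rfl, (hlt c hc).le, ?_⟩
        rw [Finset.sum_eq_zero]
        · exact abs_nonneg _
        · intro i hi
          rw [hz i hi, abs_zero]
          rw [hex i hi]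
          exact not_nonempty_empty
    choose! α β hα hαβ hβ hsum using hch
    refine (Finset.sum_le_sum hsum).trans ?_
    have hG : ∀ c ∈ H, ∃ G, IsPrim φ G (pt a b c.1) (pt a b c.2) := fun c hc => (hH1 c hc).2.2.2
    choose! G hG using hG
    have hsub : ∀ c ∈ H, Icc (α c) (β c) ⊆ Icc (pt a b c.1) (pt a b c.2) := fun c hc =>
      Icc_subset_Icc (hα c hc) (hβ c hc)
    have b1 := BF hab hφ hs hP H α β G
      (fun c hc => ⟨(hin c hc).1.trans (hα c hc), hαβ c hc, (hβ c hc).trans (hin c hc).2⟩)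
      (fun c hc => prim_mono (hG c hc) (hα c hc) (hαβ c hc) (hβ c hc))
      (fun c hc d hd hcd => (hdisH c hc d hd hcd).mono (hsub c hc) (hsub d hd))
      (fun c hc d hd hcd q' r' k1 k2 k3 k4 => hsepH c hc d hd hcd q' r' k1 k2 k3 k4 _ (hsub c hc) _
        (hsub d hd))
    have b2 := BF hab hφ hs hP' H α β G
      (fun c hc => ⟨(hin c hc).1.trans (hα c hc), hαβ c hc, (hβ c hc).trans (hin c hc).2⟩)
      (fun c hc => prim_mono (hG c hc) (hα c hc) (hαβ c hc) (hβ c hc))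
      (fun c hc d hd hcd => (hdisH c hc d hd hcd).mono (hsub c hc) (hsub d hd))
      (fun c hc d hd hcd q' r' k1 k2 k3 k4 => hsepH c hc d hd hcd q' r' k1 k2 k3 k4 _ (hsub c hc) _
        (hsub d hd))
    refine le_trans ?_ (add_le_add b1 b2)
    rw [← Finset.sum_add_distrib]
    apply Finset.sum_le_sum
    intro c _
    have : Sg (sm m) (α c) (β c) - Sg (sm m') (α c) (β c) =
        (G c (β c) - G c (α c) - Sg (sm m') (α c) (β c)) -
        (G c (β c) - G c (α c) - Sg (sm m) (α c) (β c)) := by ring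
    rw [this]
    exact (abs_sub _ _).trans (by linarith)
  linarith

end

end K9h4.DC
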