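import Pool.Agent.K9h4.DC.Key

/-!
The limit of the approximations.
-/

set_option autoImplicit false

namespace K9h4.DC

open MeasureTheory Set Filter Topology
open Pool.Agent.Q302.DJ (osc ACStar ACGStar IsPrim pt)

/-- `φ` is Denjoy integrable on the rational interval -/
def Tq (a b : ℝ) (φ : ℝ → ℝ) (q r : ℚ) : Prop :=
  0 ≤ q ∧ q < r ∧ r ≤ 1 ∧ ∃ G, IsPrim φ G (pt a b q) (pt a b r)

/-- no interval of integrability meets two of the intervals -/
def Sep (a b : ℝ) (φ : ℝ → ℝ) {ι : Type} (J : Finset ι) (u v : ι → ℝ) : Prop :=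
  ∀ i ∈ J, ∀ j ∈ J, i ≠ j → ∀ q' r' : ℚ, Tq a b φ q' r' →
    ¬ ((Ioo (pt a b q') (pt a b r') ∩ Ioo (u i) (v i)).Nonempty ∧
      (Ioo (pt a b q') (pt a b r') ∩ Ioo (u j) (v j)).Nonempty)

/-- an admissible family of intervals in `[pt q, pt r]` -/
def Adm (a b : ℝ) (φ : ℝ → ℝ) (q r : ℚ) {ι : Type} (J : Finset ι) (u v : ι → ℝ) : Prop :=
  (∀ i ∈ J, pt a b q ≤ u i ∧ u i ≤ v i ∧ v i ≤ pt a b r) ∧
  (∀ i ∈ J, ∀ j ∈ J, i ≠ j → Disjoint (Ioo (u i) (v i)) (Ioo (u j) (v j))) ∧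
  Sep a b φ J u v

lemma adm_single {a b : ℝ} {φ : ℝ → ℝ} {q r : ℚ} {x y : ℝ} (hx : pt a b q ≤ x) (hxy : x ≤ y)
    (hy : y ≤ pt a b r) : Adm a b φ q r ({()} : Finset Unit) (fun _ => x) (fun _ => y) :=
  ⟨fun _ _ => ⟨hx, hxy, hy⟩, fun i _ j _ h => absurd rfl h, fun i _ j _ h => absurd rfl h⟩

section
variable {a b : ℝ} {sm : ℕ → ℝ → ℝ} {φ : ℝ → ℝ} (hab : a < b) (hφ : Measurable φ)
  (hs : ∀ m, Continuous (sm m))
include hab hφ hs

theorem Key' {q r : ℚ} {m m' : ℕ} {e e' : ℝ} (hq : 0 ≤ q) (hr : r ≤ 1)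
    (hP : Prem a b sm φ (TT a b sm φ) q r m e) (hP' : Prem a b sm φ (TT a b sm φ) q r m' e')
    {ι : Type} (J : Finset ι) (u v : ι → ℝ) (hA : Adm a b φ q r J u v) :
    ∑ i ∈ J, |Sg (sm m) (u i) (v i) - Sg (sm m') (u i) (v i)| ≤ 2 * (e + e') :=
  Key hab hφ hs hq hr hP hP' J u v hA.1 hA.2.1
    (fun i hi j hj hij q' r' k1 k2 k3 k4 => hA.2.2 i hi j hj hij q' r' ⟨k1, k2, k3, k4⟩)

/-- the limit of the approximations -/
theorem exists_lim {q r : ℚ} (hq : 0 ≤ q) (hqr : q < r) (hr : r ≤ 1)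
    (H1 : ∀ k : ℕ, ∃ m, Prem a b sm φ (TT a b sm φ) q r m (1 / ((k : ℝ) + 1))) :
    ∃ (M : ℕ → ℕ) (F : ℝ → ℝ), Continuous F ∧ (∀ x ≤ pt a b q, F x = F (pt a b q)) ∧
      (∀ x, pt a b r ≤ x → F x = F (pt a b r)) ∧
      (∀ k, Prem a b sm φ (TT a b sm φ) q r (M k) (1 / ((k : ℝ) + 1))) ∧
      ∀ (k : ℕ) (ι : Type) (J : Finset ι) (u v : ι → ℝ), Adm a b φ q r J u v →
        ∑ i ∈ J, |F (v i) - F (u i) - Sg (sm (M k)) (u i) (v i)| ≤ 2 * (1 / ((k : ℝ) + 1)) := by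
  choose M hM using H1
  have hlt : pt a b q < pt a b r := Pool.Agent.Q302.DJ.TaskGlue.pt_lt hab hqr
  set cl : ℝ → ℝ := fun x => max (pt a b q) (min x (pt a b r)) with hcl
  have hclc : Continuous cl := continuous_const.max (continuous_id.min continuous_const)
  have hcl1 : ∀ x, pt a b q ≤ cl x := fun x => le_max_left _ _
  have hcl2 : ∀ x, cl x ≤ pt a b r := fun x => max_le hlt.le (min_le_right _ _)
  have hcl3 : ∀ x ∈ Icc (pt a b q) (pt a b r), cl x = x := by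
    intro x hx
    simp only [hcl]
    rw [min_eq_left hx.2, max_eq_right hx.1]
  set S : ℕ → ℝ → ℝ := fun k x => Sg (sm (M k)) (pt a b q) (cl x) with hS
  have hSc : ∀ k, Continuous (S k) := fun k => (Sg_cont (hs _) _).comp hclc
  have hSS : ∀ k l x, |S k x - S l x| ≤ 2 * (1 / ((k : ℝ) + 1) + 1 / ((l : ℝ) + 1)) := by
    intro k l x
    have := Key' hab hφ hs hq hr (hM k) (hM l) ({()} : Finset Unit) (fun _ => pt a b q)
      (fun _ => cl x) (adm_single le_rfl (hcl1 x) (hcl2 x))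
    simpa using this
  have hlim0 : Tendsto (fun k : ℕ => 1 / ((k : ℝ) + 1)) atTop (𝓝 0) :=
    tendsto_one_div_add_atTop_nhds_zero_nat
  have hcau : ∀ x, ∃ L, Tendsto (fun k => S k x) atTop (𝓝 L) := by
    intro x
    apply cauchySeq_tendsto_of_complete
    rw [Metric.cauchySeq_iff']
    intro ε hε
    obtain ⟨N, hN⟩ := exists_nat_one_div_lt (show 0 < ε / 4 by positivity)
    refine ⟨N, fun n hn => ?_⟩
    rw [Real.dist_eq]
    refine (hSS n N x).trans_lt ?_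
    have h1 : 1 / ((n : ℝ) + 1) ≤ 1 / ((N : ℝ) + 1) := by
      apply one_div_le_one_div_of_le (by positivity)
      have : (N : ℝ) ≤ n := by exact_mod_cast hn
      linarith
    linarith
  choose F hF using hcau
  have hFS : ∀ k x, |F x - S k x| ≤ 2 * (1 / ((k : ℝ) + 1)) := by
    intro k x
    have h1 : Tendsto (fun l => |S l x - S k x|) atTop (𝓝 |F x - S k x|) :=
      ((hF x).sub_const _).abs
    have h2 : Tendsto (fun l : ℕ => 2 * (1 / ((l : ℝ) + 1) + 1 / ((k : ℝ) + 1))) atTop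
        (𝓝 (2 * (0 + 1 / ((k : ℝ) + 1)))) := (hlim0.add_const _).const_mul 2
    rw [zero_add] at h2
    exact le_of_tendsto_of_tendsto' h1 h2 fun l => hSS l k x
  have hFc : Continuous F := by
    apply continuous_of_uniform_approx_of_continuous
    intro U hU
    rw [Metric.mem_uniformity_dist] at hU
    obtain ⟨ε, hε, hεU⟩ := hU
    obtain ⟨N, hN⟩ := exists_nat_one_div_lt (show 0 < ε / 2 by positivity)
    refine ⟨S N, hSc N, fun y => hεU ?_⟩
    rw [Real.dist_eq]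
    exact (hFS N y).trans_lt (by linarith)
  have hclF : ∀ x, F x = F (cl x) := by
    intro x
    have h1 := hF x
    have h2 := hF (cl x)
    have h3 : (fun k => S k (cl x)) = fun k => S k x := by
      ext k
      simp only [hS]
      rw [hcl3 (cl x) ⟨hcl1 x, hcl2 x⟩]
    rw [h3] at h2
    exact tendsto_nhds_unique h1 h2
  refine ⟨M, F, hFc, ?_, ?_, hM, ?_⟩
  · intro x hx
    rw [hclF x]
    congr 1
    simp only [hcl]
    rw [min_eq_left (hx.trans hlt.le), max_eq_left hx]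
  · intro x hx
    rw [hclF x]
    congr 1
    simp only [hcl]
    rw [min_eq_right hx, max_eq_right hlt.le]
  · intro k ι J u v hA
    have h1 : ∀ l : ℕ, ∑ i ∈ J, |S l (v i) - S l (u i) - Sg (sm (M k)) (u i) (v i)| ≤
        2 * (1 / ((l : ℝ) + 1) + 1 / ((k : ℝ) + 1)) := by
      intro l
      refine le_trans (le_of_eq ?_) (Key' hab hφ hs hq hr (hM l) (hM k) J u v hA)
      apply Finset.sum_congr rfl
      intro i hi
      obtain ⟨k1, k2, k3⟩ := hA.1 i hi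
      simp only [hS]
      rw [hcl3 (v i) ⟨k1.trans k2, k3⟩, hcl3 (u i) ⟨k1, k2.trans k3⟩, Sg_sub (hs _)]
    have h2 : Tendsto (fun l : ℕ => ∑ i ∈ J, |S l (v i) - S l (u i) - Sg (sm (M k)) (u i) (v i)|)
        atTop (𝓝 (∑ i ∈ J, |F (v i) - F (u i) - Sg (sm (M k)) (u i) (v i)|)) :=
      tendsto_finsetSum J fun i _ => (((hF (v i)).sub (hF (u i))).sub_const _).abs
    have h3 : Tendsto (fun l : ℕ => 2 * (1 / ((l : ℝ) + 1) + 1 / ((k : ℝ) + 1))) atTop
        (𝓝 (2 * (0 + 1 / ((k : ℝ) + 1)))) := (hlim0.add_const _).const_mul 2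
    rw [zero_add] at h3
    exact le_of_tendsto_of_tendsto' h2 h3 h1

/-- the limit agrees with the primitives -/
lemma lim_cell {q r : ℚ} {M : ℕ → ℕ} {F : ℝ → ℝ}
    (hM : ∀ k, Prem a b sm φ (TT a b sm φ) q r (M k) (1 / ((k : ℝ) + 1)))
    (hK : ∀ (k : ℕ) (ι : Type) (J : Finset ι) (u v : ι → ℝ), Adm a b φ q r J u v →
        ∑ i ∈ J, |F (v i) - F (u i) - Sg (sm (M k)) (u i) (v i)| ≤ 2 * (1 / ((k : ℝ) + 1)))
    {G : ℝ → ℝ} {c d : ℝ} (hc : pt a b q ≤ c) (hd : d ≤ pt a b r) (hG : IsPrim φ G c d)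
    {x y : ℝ} (hx : c ≤ x) (hxy : x ≤ y) (hy : y ≤ d) : F y - F x = G y - G x := by
  have h1 : ∀ k : ℕ, |(F y - F x) - (G y - G x)| ≤ 3 * (1 / ((k : ℝ) + 1)) := by
    intro k
    have k1 := hK k Unit {()} (fun _ => x) (fun _ => y) (adm_single (hc.trans hx) hxy (hy.trans hd))
    have k2 := BF hab hφ hs (hM k) ({()} : Finset Unit) (fun _ => x) (fun _ => y) (fun _ => G)
      (fun _ _ => ⟨hc.trans hx, hxy, hy.trans hd⟩) (fun _ _ => prim_mono hG hx hxy hy)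
      (fun i _ j _ h => absurd rfl h) (fun i _ j _ h => absurd rfl h)
    simp only [Finset.sum_singleton] at k1 k2
    have : (F y - F x) - (G y - G x) = (F y - F x - Sg (sm (M k)) x y) -
        (G y - G x - Sg (sm (M k)) x y) := by ring
    rw [this]
    exact (abs_sub _ _).trans (by linarith)
  have h2 : Tendsto (fun k : ℕ => 3 * (1 / ((k : ℝ) + 1))) atTop (𝓝 (3 * 0)) :=
    tendsto_one_div_add_atTop_nhds_zero_nat.const_mul 3
  rw [mul_zero] at h2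
  have h3 := ge_of_tendsto' h2 h1
  have h4 := abs_eq_zero.1 (le_antisymm h3 (abs_nonneg _))
  linarith

end

end K9h4.DC
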