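import Pool.Agent.K9h4.DC.Sound
import Pool.Agent.K9h4.DC.ApxB

/-!
The arithmetical steps characterize the Denjoy integrable functions.
-/

set_option autoImplicit false

namespace K9h4.DC

open MeasureTheory Set Filter Topology
open Pool.Agent.Q302.DJ (osc ACStar ACGStar IsPrim pt CC ex ACc Avoid Concl Step DerivOn TrueInt Y
  ClosedStep)

/-- closure under the extension steps -/
def Closed (a b : ℝ) (sm : ℕ → ℝ → ℝ) (φ : ℝ → ℝ) (R : Ix → Prop) : Prop :=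
  ∀ (q r : ℚ) (m : ℕ) (e : ℚ) (m' : ℕ) (e' : ℚ), 0 ≤ q → q < r → r ≤ 1 →
    (∀ k : ℕ, ∃ m'' : ℕ, Prem a b sm φ R q r m'' (1 / ((k : ℝ) + 1))) →
    Prem a b sm φ R q r m (e : ℝ) →
    (∀ x ∈ Icc (pt a b q) (pt a b r),
      |Sg (sm m) (pt a b q) x - Sg (sm m') (pt a b q) x| + (e : ℝ) ≤ (e' : ℝ)) →
    R (q, r, m', e')

lemma prem_mono {a b : ℝ} {sm : ℕ → ℝ → ℝ} {φ : ℝ → ℝ} {R R' : Ix → Prop} {q r : ℚ} {m : ℕ} {e : ℝ}
    (h : Prem a b sm φ R q r m e)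
    (hR : ∀ z : ℚ × ℚ × ℚ, q ≤ z.1 → z.1 < z.2.1 → z.2.1 ≤ r → R (z.1, z.2.1, m, z.2.2) →
      R' (z.1, z.2.1, m, z.2.2)) : Prem a b sm φ R' q r m e := by
  intro n
  obtain ⟨κ, h1, h2⟩ := h n
  refine ⟨κ, fun z hz => ?_, h2⟩
  obtain ⟨k1, k2, k3, k4⟩ := h1 z hz
  exact ⟨k1, k2, k3, hR z k1 k2 k3 k4⟩

theorem closed_TT {a b : ℝ} {sm : ℕ → ℝ → ℝ} {φ : ℝ → ℝ} (hab : a < b) (hφ : Measurable φ)
    (hs : ∀ m, Continuous (sm m)) : Closed a b sm φ (TT a b sm φ) := by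
  intro q r m e m' e' hq hqr hr H1 H2 H3
  obtain ⟨F, hF, hFe⟩ := sound hab hφ hs hq hqr hr H1 H2
  refine ⟨⟨hq, hqr, hr⟩, F, hF, fun x hx => ?_⟩
  have h1 := hFe x hx
  have h2 := H3 x hx
  simp only
  have h3 : F x - F (pt a b q) - Sg (sm m') (pt a b q) x =
    (F x - F (pt a b q) - Sg (sm m) (pt a b q) x) +
      (Sg (sm m) (pt a b q) x - Sg (sm m') (pt a b q) x) := by ring
  rw [h3]
  exact (abs_add_le _ _).trans (by linarith)

lemma avoid_of {p : ℕ → ℝ} {c d : ℝ} (hcd : c ≤ d)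
    (h : ∀ x ∈ Icc c d, x ∉ closure (range p)) : Avoid p c d := by
  have h1 := h c (left_mem_Icc.2 hcd)
  have h2 := h d (right_mem_Icc.2 hcd)
  rw [Metric.mem_closure_range_iff] at h1 h2
  push Not at h1 h2
  obtain ⟨ε1, hε1, h1⟩ := h1
  obtain ⟨ε2, hε2, h2⟩ := h2
  obtain ⟨n, hn⟩ := exists_nat_one_div_lt (lt_min hε1 hε2)
  refine ⟨n, fun m => ?_⟩
  have h3 : p m ∉ Icc c d := fun hm => h _ hm (subset_closure ⟨m, rfl⟩)
  have h4 := h1 m
  have h5 := h2 m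
  rw [Real.dist_eq] at h4 h5
  have e1 := hn.trans_le (min_le_left _ _)
  have e2 := hn.trans_le (min_le_right _ _)
  rcases lt_or_ge (p m) c with h6 | h6
  · left
    rw [abs_of_pos (by linarith)] at h4
    linarith
  · right
    have h7 : d < p m := by
      by_contra h8
      exact h3 ⟨h6, not_lt.1 h8⟩
    rw [abs_sub_comm, abs_of_pos (by linarith)] at h5
    linarith

theorem complete {a b : ℝ} {sm : ℕ → ℝ → ℝ} {φ : ℝ → ℝ} (hab : a < b) (hφ : Measurable φ)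
    (hs : ∀ m, Continuous (sm m))
    (hdense : ∀ g : ℝ → ℝ, Continuous g → ∀ η : ℝ, 0 < η → ∃ m, ∀ x ∈ Icc a b, |g x - sm m x| ≤ η)
    {R : Ix → Prop} (hR : Closed a b sm φ R) (h : ∃ F, IsPrim φ F a b) :
    ∃ (m : ℕ) (e : ℚ), R (0, 1, m, e) := by
  classical
  obtain ⟨F1, hF1⟩ := h
  have pt0 : pt a b 0 = a := by simp [pt]
  have pt1 : pt a b 1 = b := by simp [pt]
  have ptle : ∀ {s t : ℚ}, pt a b s ≤ pt a b t ↔ s ≤ t := Pool.Agent.Q302.DJ.Comp.pt_le hab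
  have ptlt : ∀ {s t : ℚ}, pt a b s < pt a b t ↔ s < t := Pool.Agent.Q302.DJ.Comp.pt_lt hab
  have hcont : ContinuousOn F1 (Icc a b) := hF1.1.1
  let F' : CC a b := ⟨(Icc a b).domRestrict F1, continuousOn_iff_continuous_domRestrict.1 hcont⟩
  have hex : ∀ x ∈ Icc a b, ex hab.le F' x = F1 x + 0 := by
    intro x hx
    unfold ex
    rw [IccExtend_of_mem _ _ hx]
    rw [add_zero]; rfl
  set F0 : ℝ → ℝ := ex hab.le F' with hF0
  have hF0c : Continuous F0 := F'.continuous.Icc_extend'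
  have hprim : IsPrim φ F0 a b := prim_congr hab.le hex hF1
  have hd0 : ∀ᵐ x, x ∈ Icc a b → HasDerivAt F0 (φ x) x :=
    (ae_restrict_iff' measurableSet_Icc).1 hprim.2
  set Gd : ℚ → ℚ → Prop := fun q r => ∀ (m : ℕ) (e : ℚ),
    (∃ e0 : ℝ, e0 < e ∧ ∀ x ∈ Icc (pt a b q) (pt a b r),
      |F0 x - F0 (pt a b q) - Sg (sm m) (pt a b q) x| ≤ e0) → R (q, r, m, e) with hGd
  set Φ : Y := fun z => (F0 (pt a b z.2) - F0 (pt a b z.1), decide (Gd z.1 z.2)) with hΦ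
  have hcl : ClosedStep hab.le φ Φ := by
    intro F p q r hstep hder
    obtain ⟨⟨hq, hqr, hr⟩, hp, hAC, hcon⟩ := hstep
    have hcd : pt a b q < pt a b r := ptlt.2 hqr
    have hac : a ≤ pt a b q := pt0.symm.le.trans (ptle.2 hq)
    have hdb : pt a b r ≤ b := (ptle.2 hr).trans pt1.le
    have hsub : ∀ q' r' : ℚ, 0 ≤ q' → q' < r' → r' ≤ 1 → IsPrim φ F0 (pt a b q') (pt a b r') := by
      intro q' r' h1 h2 h3
      apply prim_mono hprim
      · exact pt0.symm.le.trans (ptle.2 h1)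
      · exact (ptlt.2 h2).le
      · exact (ptle.2 h3).trans pt1.le
    obtain ⟨Φt, hΦt⟩ := trueT a b φ hab
    have hstept : Step a b Φt (ex hab.le F) p q r := by
      refine ⟨⟨hq, hqr, hr⟩, hp, hAC, fun q' r' h1 h2 h3 hav => ?_⟩
      obtain ⟨k1, k2⟩ := hΦt q' r' (hq.trans h1) h2 (h3.trans hr)
      have hpr := hsub q' r' (hq.trans h1) h2 (h3.trans hr)
      refine ⟨k1.2 ⟨F0, hpr⟩, ?_⟩
      rw [k2 F0 hpr]
      exact (hcon q' r' h1 h2 h3 hav).2
    have hprimF := glueT a b hab φ Φt hΦt F p q r hstept hder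
    have huni : ∀ x ∈ Icc (pt a b q) (pt a b r), ∀ y ∈ Icc (pt a b q) (pt a b r),
        ex hab.le F y - ex hab.le F x = F0 y - F0 x := fun x hx y hy =>
      prim_diff hprimF (hsub q r hq hqr hr) hx hy
    refine ⟨decide_eq_true ?_, (huni _ (left_mem_Icc.2 hcd.le) _ (right_mem_Icc.2 hcd.le)).symm⟩
    show Gd q r
    have hPI : closure (range p) ⊆ Icc (pt a b q) (pt a b r) := by
      refine closure_minimal ?_ isClosed_Icc
      rintro _ ⟨n, rfl⟩
      exact hp n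
    have hACc : ACc F0 p := by
      intro k
      obtain ⟨m, hm⟩ := hAC k
      refine ⟨m, fun n i j u v h1 h2 h3 h4 => ?_⟩
      refine le_of_eq_of_le ?_ (hm n i j u v h1 h2 h3 h4)
      apply Finset.sum_congr rfl
      intro l _
      obtain ⟨k1, k2, k3, k4⟩ := h3 l
      rw [huni (v l) ⟨(hp _).1.trans k3, k4.trans (hp _).2⟩ (u l)
        ⟨(hp _).1.trans k1, k2.trans (hp _).2⟩]
    have hACs : ACStar F0 (closure (range p)) := Pool.Agent.Q302.DJ.TaskClos.main F0 p hF0c hACc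
    have hd : ∀ᵐ x, x ∈ closure (range p) → HasDerivAt F0 (φ x) x := by
      filter_upwards [hd0] with x hx hxP
      exact hx ⟨hac.trans (hPI hxP).1, (hPI hxP).2.trans hdb⟩
    have happ := fun (δ : ℝ) (hδ : 0 < δ) =>
      approx hab hφ hF0c hq hqr hr isClosed_closure hPI hACs hd hs hdense hδ
    have toR : ∀ (m : ℕ) (e : ℝ), Prem a b sm φ (RR a b sm F0 (closure (range p))) q r m e →
        Prem a b sm φ R q r m e := by
      intro m e hP
      refine prem_mono hP fun z h1 h2 h3 hz => ?_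
      obtain ⟨_, hz2, hz3⟩ := hz
      have h4 := (hcon z.1 z.2.1 h1 h2 h3 (avoid_of (ptlt.2 h2).le hz2)).1
      exact of_decide_eq_true h4 m z.2.2 hz3
    have toT : ∀ (m : ℕ) (e : ℝ), Prem a b sm φ (RR a b sm F0 (closure (range p))) q r m e →
        Prem a b sm φ (TT a b sm φ) q r m e := by
      intro m e hP
      refine prem_mono hP fun z h1 h2 h3 hz => ?_
      obtain ⟨hz1, _, e0, he0, hz3⟩ := hz
      exact ⟨hz1, F0, hsub _ _ hz1.1 hz1.2.1 hz1.2.2, fun x hx => (hz3 x hx).trans he0.le⟩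
    intro m' e' hme
    obtain ⟨e0, he0, hb⟩ := hme
    obtain ⟨δ, hδ1, hδ2⟩ := exists_rat_btwn (show (0 : ℝ) < ((e' : ℝ) - e0) / 2 by linarith)
    obtain ⟨m, hm⟩ := happ δ hδ1
    obtain ⟨G, hG, hGe⟩ := sound hab hφ hs hq hqr hr (fun k => by
      obtain ⟨m1, hm1⟩ := happ (1 / ((k : ℝ) + 1)) (by positivity)
      exact ⟨m1, toT _ _ hm1⟩) (toT _ _ hm)
    refine hR q r m δ m' e' hq hqr hr (fun k => ?_) (toR _ _ hm) fun x hx => ?_
    · obtain ⟨m1, hm1⟩ := happ (1 / ((k : ℝ) + 1)) (by positivity)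
      exact ⟨m1, toR _ _ hm1⟩
    · have h1 := hGe x hx
      have h2 := hb x hx
      have h3 : G x - G (pt a b q) = F0 x - F0 (pt a b q) :=
        prim_diff hG (hsub q r hq hqr hr) (left_mem_Icc.2 hcd.le) hx
      rw [h3] at h1
      rw [abs_le] at h1 h2
      have h4 : |Sg (sm m) (pt a b q) x - Sg (sm m') (pt a b q) x| ≤ δ + e0 := by
        rw [abs_le]
        constructor <;> linarith [h1.1, h1.2, h2.1, h2.2]
      linarith
  have hfin := minT a b hab φ Φ hcl ⟨F0, hprim⟩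
  have hgd : Gd 0 1 := of_decide_eq_true hfin
  have hbc : Continuous fun x => F0 x - F0 (pt a b 0) - Sg (sm 0) (pt a b 0) x :=
    (hF0c.sub continuous_const).sub (Sg_cont (hs 0) _)
  obtain ⟨B, hB⟩ := (isCompact_Icc (a := pt a b 0) (b := pt a b 1)).exists_bound_of_continuousOn
    hbc.continuousOn
  obtain ⟨e, he⟩ := exists_rat_gt B
  exact ⟨0, e, hgd 0 e ⟨B, he, hB⟩⟩

/-- the arithmetical characterization -/
theorem char {a b : ℝ} {sm : ℕ → ℝ → ℝ} {φ : ℝ → ℝ} (hab : a < b) (hφ : Measurable φ)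
    (hs : ∀ m, Continuous (sm m))
    (hdense : ∀ g : ℝ → ℝ, Continuous g → ∀ η : ℝ, 0 < η → ∃ m, ∀ x ∈ Icc a b, |g x - sm m x| ≤ η) :
    (∃ F, IsPrim φ F a b) ↔ ∀ R : Ix → Prop, Closed a b sm φ R → ∃ (m : ℕ) (e : ℚ), R (0, 1, m, e) := by
  constructor
  · intro h R hR
    exact complete hab hφ hs hdense hR h
  · intro h
    obtain ⟨m, e, _, F, hF, _⟩ := h _ (closed_TT hab hφ hs)
    have pt0 : pt a b 0 = a := by simp [pt]
    have pt1 : pt a b 1 = b := by simp [pt]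
    simp only [pt0, pt1] at hF
    exact ⟨F, hF⟩

end K9h4.DC
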