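import Pool.Agent.K9h4.DC.Vit

/-!
The true indices are closed under the arithmetical step.
-/

set_option autoImplicit false

namespace K9h4.DC

open MeasureTheory Set Filter Topology
open Pool.Agent.Q302.DJ (osc ACStar ACGStar IsPrim pt CC ex ACc Avoid Concl Step DerivOn TrueInt Good
  GoodSet)

lemma Sg_bound {s : ℝ → ℝ} {c d B : ℝ} (hB : ∀ t ∈ Icc c d, |s t| ≤ B) {x y : ℝ}
    (hx : c ≤ x) (hxy : x ≤ y) (hy : y ≤ d) : |Sg s x y| ≤ B * (y - x) := by
  unfold Sg
  have h := intervalIntegral.norm_integral_le_of_norm_le_const (a := x) (b := y) (f := s) (C := B)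
    (by
      intro t ht
      rw [uIoc_of_le hxy] at ht
      exact hB t ⟨hx.trans ht.1.le, ht.2.trans hy⟩)
  rwa [Real.norm_eq_abs, abs_of_nonneg (sub_nonneg.2 hxy)] at h

lemma acc_lim {a b : ℝ} {sm : ℕ → ℝ → ℝ} {φ : ℝ → ℝ} (hs : ∀ m, Continuous (sm m)) {q r : ℚ}
    {M : ℕ → ℕ} {F : ℝ → ℝ} {p : ℕ → ℝ}
    (hpI : ∀ n, pt a b q ≤ p n ∧ p n ≤ pt a b r)
    (hpK : ∀ n, p n ∈ Ioo (pt a b q) (pt a b r) → ∀ q' r' : ℚ, Tq a b φ q' r' →
      p n ∉ Ioo (pt a b q') (pt a b r'))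
    (hF : ∀ (k : ℕ) (ι : Type) (J : Finset ι) (u v : ι → ℝ), Adm a b φ q r J u v →
        ∑ i ∈ J, |F (v i) - F (u i) - Sg (sm (M k)) (u i) (v i)| ≤ 2 * (1 / ((k : ℝ) + 1))) :
    ACc F p := by
  intro k
  set N : ℕ := 4 * (k + 1) with hN
  obtain ⟨B0, hB0⟩ := (isCompact_Icc (a := pt a b q) (b := pt a b r)).exists_bound_of_continuousOn
    (hs (M N)).continuousOn
  set B := max B0 0 with hBd
  have hB : ∀ t ∈ Icc (pt a b q) (pt a b r), |sm (M N) t| ≤ B := fun t ht =>
    (hB0 t ht).trans (le_max_left _ _)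
  have hB1 : 0 ≤ B := le_max_right _ _
  obtain ⟨m, hm⟩ := exists_nat_ge (2 * ((k : ℝ) + 1) * B)
  refine ⟨m, fun n i j u v h1 h2 h3 h4 => ?_⟩
  have hA : Adm a b φ q r (Finset.univ : Finset (Fin n)) (fun l => min (u l : ℝ) (v l))
      (fun l => max (u l : ℝ) (v l)) := by
    refine ⟨?_, ?_, ?_⟩
    · intro l _
      obtain ⟨k1, k2, k3, k4⟩ := h3 l
      exact ⟨(hpI _).1.trans (le_min k1 k3), min_le_max, (max_le k2 k4).trans (hpI _).2⟩
    · intro l _ l' _ hl
      obtain ⟨k1, k2, k3, k4⟩ := h3 l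
      obtain ⟨k1', k2', k3', k4'⟩ := h3 l'
      rw [Set.disjoint_left]
      rintro x ⟨hx1, hx2⟩ ⟨hx3, hx4⟩
      have e1 := max_le k2 k4
      have e2 := max_le k2' k4'
      have e3 := le_min k1 k3
      have e4 := le_min k1' k3'
      rcases h2 l l' hl with h | h
      · linarith
      · linarith
    · rintro l _ l' _ hl q' r' hT ⟨⟨x, hx1, hx2⟩, ⟨y, hy1, hy2⟩⟩
      obtain ⟨k1, k2, k3, k4⟩ := h3 l
      obtain ⟨k1', k2', k3', k4'⟩ := h3 l'
      have e1 := max_le k2 k4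
      have e2 := max_le k2' k4'
      have e3 := le_min k1 k3
      have e4 := le_min k1' k3'
      rcases h2 l l' hl with h | h
      · refine hpK (j l) ⟨?_, ?_⟩ q' r' hT ⟨?_, ?_⟩
        · linarith [(hpI (i l)).1, hx2.1, hx2.2]
        · linarith [(hpI (j l')).2, hy2.1, hy2.2]
        · linarith [hx1.1, hx2.2]
        · linarith [hy1.2, hy2.1]
      · refine hpK (j l') ⟨?_, ?_⟩ q' r' hT ⟨?_, ?_⟩
        · linarith [(hpI (i l')).1, hy2.1, hy2.2]
        · linarith [(hpI (j l)).2, hx2.1, hx2.2]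
        · linarith [hy1.1, hy2.2]
        · linarith [hx1.2, hx2.1]
  have h5 := hF N (Fin n) Finset.univ _ _ hA
  have h6 : ∀ l : Fin n, |F (u l) - F (v l)| ≤
      |F (max (u l : ℝ) (v l)) - F (min (u l : ℝ) (v l)) -
        Sg (sm (M N)) (min (u l : ℝ) (v l)) (max (u l : ℝ) (v l))| + B * (p (j l) - p (i l)) := by
    intro l
    obtain ⟨k1, k2, k3, k4⟩ := h3 l
    have e1 : |F (u l) - F (v l)| = |F (max (u l : ℝ) (v l)) - F (min (u l : ℝ) (v l))| := by
      rcases le_total (u l : ℝ) (v l) with h | h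
      · rw [max_eq_right h, min_eq_left h, abs_sub_comm]
      · rw [max_eq_left h, min_eq_right h]
    have e2 := Sg_bound hB (x := min (u l : ℝ) (v l)) (y := max (u l : ℝ) (v l))
      ((hpI _).1.trans (le_min k1 k3)) min_le_max ((max_le k2 k4).trans (hpI _).2)
    have e3 : B * (max (u l : ℝ) (v l) - min (u l : ℝ) (v l)) ≤ B * (p (j l) - p (i l)) := by
      apply mul_le_mul_of_nonneg_left _ hB1
      linarith [max_le k2 k4, le_min k1 k3]
    rw [e1]
    have e4 : F (max (u l : ℝ) (v l)) - F (min (u l : ℝ) (v l)) =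
      (F (max (u l : ℝ) (v l)) - F (min (u l : ℝ) (v l)) -
        Sg (sm (M N)) (min (u l : ℝ) (v l)) (max (u l : ℝ) (v l))) +
        Sg (sm (M N)) (min (u l : ℝ) (v l)) (max (u l : ℝ) (v l)) := by ring
    calc |F (max (u l : ℝ) (v l)) - F (min (u l : ℝ) (v l))| = _ := by rw [e4]
      _ ≤ _ := (abs_add_le _ _).trans (by linarith)
  refine (Finset.sum_le_sum fun l _ => h6 l).trans ?_
  rw [Finset.sum_add_distrib, ← Finset.mul_sum]
  have h7 : B * ∑ l, (p (j l) - p (i l)) ≤ B * (1 / ((m : ℝ) + 1)) :=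
    mul_le_mul_of_nonneg_left h4.le hB1
  have h8 : B * (1 / ((m : ℝ) + 1)) ≤ 1 / (2 * ((k : ℝ) + 1)) := by
    rw [mul_one_div, div_le_div_iff₀ (by positivity) (by positivity)]
    linarith
  have h9 : 2 * (1 / ((N : ℝ) + 1)) ≤ 1 / (2 * ((k : ℝ) + 1)) := by
    rw [mul_one_div, div_le_div_iff₀ (by positivity) (by positivity), hN]
    push_cast
    linarith
  have h10 : 1 / (2 * ((k : ℝ) + 1)) + 1 / (2 * ((k : ℝ) + 1)) = 1 / ((k : ℝ) + 1) := by
    field_simp
    norm_num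
  linarith

theorem sound {a b : ℝ} {sm : ℕ → ℝ → ℝ} {φ : ℝ → ℝ} (hab : a < b) (hφ : Measurable φ)
    (hs : ∀ m, Continuous (sm m)) {q r : ℚ} {m : ℕ} {e : ℝ} (hq : 0 ≤ q) (hqr : q < r) (hr : r ≤ 1)
    (H1 : ∀ k : ℕ, ∃ m, Prem a b sm φ (TT a b sm φ) q r m (1 / ((k : ℝ) + 1)))
    (H2 : Prem a b sm φ (TT a b sm φ) q r m e) :
    ∃ F, IsPrim φ F (pt a b q) (pt a b r) ∧ ∀ x ∈ Icc (pt a b q) (pt a b r),
      |F x - F (pt a b q) - Sg (sm m) (pt a b q) x| ≤ e := by
  classical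
  have ptlt : ∀ {s t : ℚ}, s < t → pt a b s < pt a b t := fun h =>
    Pool.Agent.Q302.DJ.TaskGlue.pt_lt hab h
  have ptle : ∀ {s t : ℚ}, s ≤ t → pt a b s ≤ pt a b t := fun h =>
    Pool.Agent.Q302.DJ.TaskGlue.pt_le hab h
  have ptle' : ∀ {s t : ℚ}, pt a b s ≤ pt a b t ↔ s ≤ t := Pool.Agent.Q302.DJ.Comp.pt_le hab
  have ptlt' : ∀ {s t : ℚ}, pt a b s < pt a b t ↔ s < t := Pool.Agent.Q302.DJ.Comp.pt_lt hab
  have pt0 : pt a b 0 = a := by simp [pt]
  have pt1 : pt a b 1 = b := by simp [pt]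
  obtain ⟨M, F, hFc, hFl, hFr, hM, hF⟩ := exists_lim hab hφ hs hq hqr hr H1
  suffices h : IsPrim φ F (pt a b q) (pt a b r) by
    refine ⟨F, h, fun x hx => ?_⟩
    have := BF hab hφ hs H2 ({()} : Finset Unit) (fun _ => pt a b q) (fun _ => x) (fun _ => F)
      (fun _ _ => ⟨le_rfl, hx.1, hx.2⟩) (fun _ _ => prim_mono h le_rfl hx.1 hx.2)
      (fun i _ j _ h => absurd rfl h) (fun i _ j _ h => absurd rfl h)
    simpa using this
  -- the exceptional set
  set O : Set ℝ := ⋃ z : {z : ℚ × ℚ // Tq a b φ z.1 z.2}, Ioo (pt a b z.1.1) (pt a b z.1.2) with hO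
  have hOo : IsOpen O := isOpen_iUnion fun _ => isOpen_Ioo
  set K : Set ℝ := (Icc (pt a b q) (pt a b r) \ O) ∪ {pt a b q, pt a b r} with hK
  have hKc : IsClosed K := (isClosed_Icc.sdiff hOo).union (Set.toFinite _).isClosed
  have hKI : K ⊆ Icc (pt a b q) (pt a b r) := by
    rintro x (hx | hx | hx)
    · exact hx.1
    · rw [hx]; exact left_mem_Icc.2 (ptlt hqr).le
    · rw [mem_singleton_iff.1 hx]; exact right_mem_Icc.2 (ptlt hqr).le
  have hKO : ∀ x ∈ K, x ∈ Ioo (pt a b q) (pt a b r) → ∀ q' r' : ℚ, Tq a b φ q' r' →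
      x ∉ Ioo (pt a b q') (pt a b r') := by
    rintro x hx hxI q' r' hT hx2
    rcases hx with hx | hx | hx
    · exact hx.2 (mem_iUnion.2 ⟨⟨(q', r'), hT⟩, hx2⟩)
    · exact hxI.1.ne' hx
    · exact hxI.2.ne hx
  haveI : Nonempty K := ⟨⟨pt a b q, Or.inr (Or.inl rfl)⟩⟩
  set p : ℕ → ℝ := fun n => (TopologicalSpace.denseSeq K n : ℝ) with hp
  have hpK : ∀ n, p n ∈ K := fun n => (TopologicalSpace.denseSeq K n).2
  have hcl : closure (range p) = K := by
    apply subset_antisymm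
    · apply closure_minimal _ hKc
      rintro _ ⟨n, rfl⟩
      exact hpK n
    · intro x hx
      have h1 : (⟨x, hx⟩ : K) ∈ closure (range (TopologicalSpace.denseSeq K)) :=
        TopologicalSpace.denseRange_denseSeq K _
      have h2 := image_closure_subset_closure_image (f := (Subtype.val : K → ℝ))
        continuous_subtype_val ⟨_, h1, rfl⟩
      rwa [← range_comp] at h2
  -- the function as a member of `CC a b`
  set Fh : CC a b := ⟨fun x => F x, hFc.comp continuous_subtype_val⟩ with hFh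
  have hqa : a ≤ pt a b q := by
    have := ptle hq; rwa [pt0] at this
  have hrb : pt a b r ≤ b := by
    have := ptle hr; rwa [pt1] at this
  have hex : ex hab.le Fh = F := by
    ext x
    unfold ex
    rcases le_total x a with h1 | h1
    · rw [IccExtend_of_le_left _ _ h1]
      show F a = F x
      rw [hFl a hqa, hFl x (h1.trans hqa)]
    · rcases le_total b x with h2 | h2
      · rw [IccExtend_of_right_le _ _ h2]
        show F b = F x
        rw [hFr b hrb, hFr x (hrb.trans h2)]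
      · rw [IccExtend_of_mem _ _ ⟨h1, h2⟩]
        rfl
  obtain ⟨Φ, hΦ⟩ := trueT a b φ hab
  have hcell : ∀ q' r' : ℚ, q ≤ q' → q' < r' → r' ≤ r → Tq a b φ q' r' → Concl a b Φ F q' r' := by
    intro q' r' h1 h2 h3 hT
    obtain ⟨hT1, hT2, hT3, G, hG⟩ := hT
    obtain ⟨k1, k2⟩ := hΦ q' r' hT1 hT2 hT3
    refine ⟨k1.2 ⟨G, hG⟩, ?_⟩
    rw [k2 G hG]
    exact (lim_cell hab hφ hs hM hF (ptle h1) (ptle h3) hG le_rfl (ptle h2.le) le_rfl).symm
  have hACc : ACc F p := acc_lim hs (fun n => hKI (hpK n)) (fun n hn => hKO (p n) (hpK n) hn) hF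
  have hstep : Step a b Φ (ex hab.le Fh) p q r := by
    rw [hex]
    refine ⟨⟨hq, hqr, hr⟩, fun n => hKI (hpK n), hACc, ?_⟩
    intro q' r' h1 h2 h3 hav
    have hQ : ∀ x ∈ Icc (pt a b q') (pt a b r'), x ∉ K := by
      intro x hx hxK
      rw [← hcl] at hxK
      obtain ⟨n, hn⟩ := hav
      rw [Metric.mem_closure_range_iff] at hxK
      obtain ⟨k, hk⟩ := hxK (1 / ((n : ℝ) + 1)) (by positivity)
      rw [Real.dist_eq, abs_lt] at hk
      rcases hn k with h | h
      · linarith [hx.1, hk.2]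
      · linarith [hx.2, hk.1]
    have hq1 : pt a b q < pt a b q' := by
      rcases h1.lt_or_eq with h | h
      · exact ptlt h
      · exact absurd (Or.inr (Or.inl (by rw [h]))) (hQ _ (left_mem_Icc.2 (ptlt h2).le))
    have hr1 : pt a b r' < pt a b r := by
      rcases h3.lt_or_eq with h | h
      · exact ptlt h
      · refine absurd ?_ (hQ _ (right_mem_Icc.2 (ptlt h2).le))
        right; right
        rw [h]; rfl
    have hgood := Pool.Agent.Q302.DJ.taskComp a b hab φ Φ Fh (soundT a b hab φ Φ hΦ) q' r'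
      (hq.trans h1) h2 (h3.trans hr) (by
        intro x hx
        have hxI : x ∈ Ioo (pt a b q) (pt a b r) := ⟨hq1.trans_le hx.1, hx.2.trans_lt hr1⟩
        have hxO : x ∈ O := by
          by_contra hcon
          exact hQ x hx (Or.inl ⟨Ioo_subset_Icc_self hxI, hcon⟩)
        obtain ⟨⟨⟨s, t⟩, hst⟩, hxst⟩ := mem_iUnion.1 hxO
        simp only at hxst hst
        obtain ⟨hs1, hs2, hs3, G, hG⟩ := hst
        have e1 : pt a b (max s q) < x := by
          rcases le_total s q with h | h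
          · rw [max_eq_right h]; exact hxI.1
          · rw [max_eq_left h]; exact hxst.1
        have e2 : x < pt a b (min t r) := by
          rcases le_total t r with h | h
          · rw [min_eq_left h]; exact hxst.2
          · rw [min_eq_right h]; exact hxI.2
        refine ⟨⟨(hqa.trans hxI.1.le), hxI.2.le.trans hrb⟩, max s q, min t r,
          hs1.trans (le_max_left _ _), ptlt'.1 (e1.trans e2), (min_le_left _ _).trans hs3, ?_,
          Or.inl e1, e1.le, Or.inl e2, e2.le⟩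
        rw [hex]
        intro s' t' hs' hst' ht'
        refine hcell s' t' ((le_max_right _ _).trans hs') hst' (ht'.trans (min_le_right _ _))
          ⟨hs1.trans ((le_max_left _ _).trans hs'), hst', (ht'.trans (min_le_left _ _)).trans hs3,
            G, prim_mono hG (ptle ((le_max_left _ _).trans hs')) (ptle hst'.le)
              (ptle (ht'.trans (min_le_left _ _)))⟩)
    have := hgood q' r' le_rfl h2 le_rfl
    rwa [hex] at this
  have hder : DerivOn a b φ (ex hab.le Fh) p := by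
    rw [hex]
    unfold DerivOn
    rw [hcl]
    have hK0 : Exc a b φ (K ∩ Ioo (pt a b q) (pt a b r)) := fun x hx q' r' hT =>
      hKO x hx.1 hx.2 q' r' hT
    have h1 := deriv_exc hab hφ hs hK0 (hKc.measurableSet.inter measurableSet_Ioo)
      inter_subset_right hM hF
    apply ae_restrict_of_ae
    filter_upwards [h1, Measure.ae_ne volume (pt a b q), Measure.ae_ne volume (pt a b r)]
      with x hx hx1 hx2 hxK
    have hxI := hKI hxK
    exact hx ⟨hxK, lt_of_le_of_ne hxI.1 (Ne.symm hx1), lt_of_le_of_ne hxI.2 hx2⟩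
  have hfin := glueT a b hab φ Φ hΦ Fh p q r hstep hder
  rwa [hex] at hfin

end K9h4.DC
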