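import Pool.Agent.K9h4.DC.Lim

/-!
The derivative of the limit on the exceptional set.
-/

set_option autoImplicit false

namespace K9h4.DC

open MeasureTheory Set Filter Topology
open Pool.Agent.Q302.DJ (osc ACStar ACGStar IsPrim pt)

theorem vitali_bound (t : Set (ℝ × ℝ)) (s : Set ℝ) (K : ℝ)
    (ht : ∀ z ∈ t, z.1 ≠ z.2)
    (hfin : ∀ J : Finset (ℝ × ℝ), (∀ z ∈ J, z ∈ t) →
      (∀ z ∈ J, ∀ z' ∈ J, z ≠ z' → Disjoint (uIcc z.1 z.2) (uIcc z'.1 z'.2)) →
      ∑ z ∈ J, |z.2 - z.1| ≤ K)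
    (hs : ∀ x ∈ s, ∀ ε > (0 : ℝ), ∃ y, (x, y) ∈ t ∧ |y - x| ≤ ε) :
    volume s ≤ ENNReal.ofReal K := by
  classical
  obtain ⟨u, hut, huc, hud, hu0⟩ := Vitali.exists_disjoint_covering_ae volume s t 6
    (fun z => |z.2 - z.1|) (fun z => z.1) (fun z => uIcc z.1 z.2) (by
      rintro z _ x hx
      rw [Metric.mem_closedBall, Real.dist_eq]
      exact abs_sub_left_of_mem_uIcc hx) (by
      rintro z _
      rw [Real.volume_closedBall, Real.volume_interval]
      have : 2 * (3 * |z.2 - z.1|) = 6 * |z.2 - z.1| := by ring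
      rw [this, ENNReal.ofReal_mul (by norm_num)]
      simp) (by
      rintro z hz
      rcases lt_or_gt_of_ne (ht z hz) with h | h
      · rw [uIcc_of_le h.le, interior_Icc]
        exact nonempty_Ioo.2 h
      · rw [uIcc_of_ge h.le, interior_Icc]
        exact nonempty_Ioo.2 h) (fun z _ => isClosed_Icc) (by
      intro x hx ε hε
      obtain ⟨y, hy, hy'⟩ := hs x hx ε hε
      exact ⟨(x, y), hy, hy', rfl⟩)
  have h1 : volume s ≤ volume (⋃ z ∈ u, uIcc z.1 z.2) := by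
    have : s ⊆ (s \ ⋃ z ∈ u, uIcc z.1 z.2) ∪ ⋃ z ∈ u, uIcc z.1 z.2 := by
      intro x hx
      by_cases h : x ∈ ⋃ z ∈ u, uIcc z.1 z.2
      · exact Or.inr h
      · exact Or.inl ⟨hx, h⟩
    refine (measure_mono this).trans ((measure_union_le _ _).trans ?_)
    rw [hu0, zero_add]
  refine h1.trans ((measure_biUnion_le volume huc _).trans ?_)
  rw [ENNReal.tsum_eq_iSup_sum]
  apply iSup_le
  intro J
  have h2 : ∑ z ∈ J, volume (uIcc z.1.1 z.1.2) = ENNReal.ofReal (∑ z ∈ J, |z.1.2 - z.1.1|) := by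
    rw [ENNReal.ofReal_sum_of_nonneg fun z _ => abs_nonneg _]
    exact Finset.sum_congr rfl fun z _ => Real.volume_interval
  rw [h2]
  apply ENNReal.ofReal_le_ofReal
  have h3 := hfin (J.map (Function.Embedding.subtype _)) (by
    intro z hz
    obtain ⟨w, _, rfl⟩ := Finset.mem_map.1 hz
    exact hut w.2) (by
    intro z hz z' hz' hne
    obtain ⟨w, _, rfl⟩ := Finset.mem_map.1 hz
    obtain ⟨w', _, rfl⟩ := Finset.mem_map.1 hz'
    exact hud w.2 w'.2 hne)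
  rwa [Finset.sum_map] at h3

section
variable {a b : ℝ} {sm : ℕ → ℝ → ℝ} {φ : ℝ → ℝ}

/-- the points of `K` are in no open interval of integrability -/
def Exc (a b : ℝ) (φ : ℝ → ℝ) (K : Set ℝ) : Prop :=
  ∀ x ∈ K, ∀ q' r' : ℚ, Tq a b φ q' r' → x ∉ Ioo (pt a b q') (pt a b r')

lemma bad_right {K : Set ℝ} (hK : Exc a b φ K) {q r : ℚ} {M : ℕ → ℕ} {F : ℝ → ℝ}
    (hK2 : K ⊆ Ioo (pt a b q) (pt a b r))
    (hF : ∀ (k : ℕ) (ι : Type) (J : Finset ι) (u v : ι → ℝ), Adm a b φ q r J u v →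
        ∑ i ∈ J, |F (v i) - F (u i) - Sg (sm (M k)) (u i) (v i)| ≤ 2 * (1 / ((k : ℝ) + 1)))
    (k : ℕ) {η : ℝ} (hη : 0 < η) :
    volume {x | x ∈ K ∧ ∀ ε > (0 : ℝ), ∃ y, x < y ∧ y ≤ pt a b r ∧ y - x ≤ ε ∧
      η * (y - x) < |F y - F x - Sg (sm (M k)) x y|} ≤
      ENNReal.ofReal (2 * (1 / ((k : ℝ) + 1)) / η) := by
  apply vitali_bound {z | z.1 ∈ K ∧ z.1 < z.2 ∧ z.2 ≤ pt a b r ∧
      η * (z.2 - z.1) < |F z.2 - F z.1 - Sg (sm (M k)) z.1 z.2|}
  · rintro z ⟨_, h, _⟩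
    exact h.ne
  · intro J hJ hd
    have hA : Adm a b φ q r J (fun z => z.1) (fun z => z.2) := by
      refine ⟨?_, ?_, ?_⟩
      · intro z hz
        obtain ⟨h1, h2, h3, _⟩ := hJ z hz
        exact ⟨(hK2 h1).1.le, h2.le, h3⟩
      · intro z hz z' hz' hne
        refine (hd z hz z' hz' hne).mono ?_ ?_
        · exact Ioo_subset_Icc_self.trans Icc_subset_uIcc
        · exact Ioo_subset_Icc_self.trans Icc_subset_uIcc
      · rintro z hz z' hz' hne q' r' hT ⟨⟨x, hx1, hx2⟩, ⟨y, hy1, hy2⟩⟩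
        obtain ⟨h1, h2, h3, _⟩ := hJ z hz
        obtain ⟨h1', h2', h3', _⟩ := hJ z' hz'
        have hdd := hd z hz z' hz' hne
        rw [uIcc_of_le h2.le, uIcc_of_le h2'.le, Set.disjoint_left] at hdd
        rcases le_total z.1 z'.1 with h | h
        · have h4 : z.2 < z'.1 := by
            by_contra hcon
            push Not at hcon
            exact hdd ⟨h, hcon⟩ ⟨le_rfl, h2'.le⟩
          exact hK z'.1 h1' q' r' hT ⟨hx1.1.trans (hx2.2.trans h4), hy2.1.trans hy1.2⟩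
        · have h4 : z'.2 < z.1 := by
            by_contra hcon
            push Not at hcon
            exact hdd ⟨le_rfl, h2.le⟩ ⟨h, hcon⟩
          exact hK z.1 h1 q' r' hT ⟨hy1.1.trans (hy2.2.trans h4), hx2.1.trans hx1.2⟩
    have h1 := hF k (ℝ × ℝ) J _ _ hA
    rw [le_div_iff₀ hη, Finset.sum_mul]
    refine le_trans (Finset.sum_le_sum fun z hz => ?_) h1
    obtain ⟨_, h2, _, h4⟩ := hJ z hz
    rw [abs_of_pos (sub_pos.2 h2), mul_comm]
    exact h4.le
  · rintro x ⟨hx, h⟩ ε hε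
    obtain ⟨y, h1, h2, h3, h4⟩ := h ε hε
    exact ⟨y, ⟨hx, h1, h2, h4⟩, by rwa [abs_of_pos (sub_pos.2 h1)]⟩

lemma bad_left {K : Set ℝ} (hK : Exc a b φ K) {q r : ℚ} {M : ℕ → ℕ} {F : ℝ → ℝ}
    (hK2 : K ⊆ Ioo (pt a b q) (pt a b r))
    (hF : ∀ (k : ℕ) (ι : Type) (J : Finset ι) (u v : ι → ℝ), Adm a b φ q r J u v →
        ∑ i ∈ J, |F (v i) - F (u i) - Sg (sm (M k)) (u i) (v i)| ≤ 2 * (1 / ((k : ℝ) + 1)))
    (k : ℕ) {η : ℝ} (hη : 0 < η) :
    volume {x | x ∈ K ∧ ∀ ε > (0 : ℝ), ∃ y, y < x ∧ pt a b q ≤ y ∧ x - y ≤ ε ∧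
      η * (x - y) < |F x - F y - Sg (sm (M k)) y x|} ≤
      ENNReal.ofReal (2 * (1 / ((k : ℝ) + 1)) / η) := by
  apply vitali_bound {z | z.1 ∈ K ∧ z.2 < z.1 ∧ pt a b q ≤ z.2 ∧
      η * (z.1 - z.2) < |F z.1 - F z.2 - Sg (sm (M k)) z.2 z.1|}
  · rintro z ⟨_, h, _⟩
    exact h.ne'
  · intro J hJ hd
    have hA : Adm a b φ q r J (fun z => z.2) (fun z => z.1) := by
      refine ⟨?_, ?_, ?_⟩
      · intro z hz
        obtain ⟨h1, h2, h3, _⟩ := hJ z hz
        exact ⟨h3, h2.le, (hK2 h1).2.le⟩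
      · intro z hz z' hz' hne
        refine (hd z hz z' hz' hne).mono ?_ ?_
        · exact Ioo_subset_Icc_self.trans Icc_subset_uIcc'
        · exact Ioo_subset_Icc_self.trans Icc_subset_uIcc'
      · rintro z hz z' hz' hne q' r' hT ⟨⟨x, hx1, hx2⟩, ⟨y, hy1, hy2⟩⟩
        obtain ⟨h1, h2, h3, _⟩ := hJ z hz
        obtain ⟨h1', h2', h3', _⟩ := hJ z' hz'
        have hdd := hd z hz z' hz' hne
        rw [uIcc_of_ge h2.le, uIcc_of_ge h2'.le, Set.disjoint_left] at hdd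
        rcases le_total z.1 z'.1 with h | h
        · have h4 : z.1 < z'.2 := by
            by_contra hcon
            push Not at hcon
            exact hdd ⟨h2.le, le_rfl⟩ ⟨hcon, h⟩
          exact hK z.1 h1 q' r' hT ⟨hx1.1.trans hx2.2, (h4.trans hy2.1).trans hy1.2⟩
        · have h4 : z'.1 < z.2 := by
            by_contra hcon
            push Not at hcon
            exact hdd ⟨hcon, h⟩ ⟨h2'.le, le_rfl⟩
          exact hK z'.1 h1' q' r' hT ⟨hy1.1.trans hy2.2, (h4.trans hx2.1).trans hx1.2⟩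
    have h1 := hF k (ℝ × ℝ) J _ _ hA
    rw [le_div_iff₀ hη, Finset.sum_mul]
    refine le_trans (Finset.sum_le_sum fun z hz => ?_) h1
    obtain ⟨_, h2, _, h4⟩ := hJ z hz
    rw [abs_of_neg (sub_neg.2 h2), mul_comm, neg_sub]
    exact h4.le
  · rintro x ⟨hx, h⟩ ε hε
    obtain ⟨y, h1, h2, h3, h4⟩ := h ε hε
    exact ⟨y, ⟨hx, h1, h2, h4⟩, by rwa [abs_of_neg (sub_neg.2 h1), neg_sub]⟩

/-- the premise bounds the integral on the exceptional set -/
lemma lint_exc (hab : a < b) (hφ : Measurable φ) (hs : ∀ m, Continuous (sm m)) {K : Set ℝ}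
    (hK : Exc a b φ K) {q r : ℚ} {m : ℕ} {e : ℝ}
    (hK2 : K ⊆ Ioo (pt a b q) (pt a b r))
    (hP : Prem a b sm φ (TT a b sm φ) q r m e) :
    ∫⁻ x in K, ENNReal.ofReal |φ x - sm m x| ≤ ENNReal.ofReal e := by
  have hlim : Tendsto (fun n : ℕ => ∫⁻ x in K, ENNReal.ofReal (min |φ x - sm m x| n)) atTop
      (𝓝 (∫⁻ x in K, ENNReal.ofReal |φ x - sm m x|)) := by
    apply lintegral_tendsto_of_tendsto_of_monotone
    · intro n
      exact (meas_min hφ (hs m) n).ennreal_ofReal.aemeasurable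
    · refine ae_of_all _ fun x n n' hn => ?_
      apply ENNReal.ofReal_le_ofReal
      exact min_le_min le_rfl (by exact_mod_cast hn)
    · refine ae_of_all _ fun x => ?_
      obtain ⟨N, hN⟩ := exists_nat_ge |φ x - sm m x|
      apply tendsto_const_nhds.congr'
      filter_upwards [eventually_ge_atTop N] with n hn
      rw [min_eq_left (hN.trans (by exact_mod_cast hn))]
  refine le_of_tendsto' hlim fun n => ?_
  obtain ⟨κ, h1, h2⟩ := hP n
  have hn0 : (0 : ℝ) ≤ n := Nat.cast_nonneg n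
  set E : Set ℝ := ⋃ z ∈ κ, {pt a b z.1, pt a b z.2.1} with hE
  have hE0 : volume E = 0 := by
    refine le_antisymm ((measure_biUnion_finset_le _ _).trans (le_of_eq ?_)) bot_le
    apply Finset.sum_eq_zero
    intro z _
    exact (Set.toFinite _).measure_zero _
  have hsub : K ⊆ (Icc (pt a b q) (pt a b r) \ UK a b κ) ∪ E := by
    intro x hx
    by_cases hU : x ∈ UK a b κ
    · right
      obtain ⟨z, hz, hzx⟩ := mem_iUnion₂.1 hU
      refine mem_iUnion₂.2 ⟨z, hz, ?_⟩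
      by_contra hcon
      rw [mem_insert_iff, mem_singleton_iff, not_or] at hcon
      obtain ⟨_, _, _, ⟨k1, k2, k3⟩, G, hG, _⟩ := h1 z hz
      exact hK x hx z.1 z.2.1 ⟨k1, k2, k3, G, hG⟩
        ⟨lt_of_le_of_ne hzx.1 (Ne.symm hcon.1), lt_of_le_of_ne hzx.2 hcon.2⟩
    · exact Or.inl ⟨Ioo_subset_Icc_self (hK2 hx), hU⟩
  calc ∫⁻ x in K, ENNReal.ofReal (min |φ x - sm m x| n)
      ≤ ∫⁻ x in (Icc (pt a b q) (pt a b r) \ UK a b κ) ∪ E, ENNReal.ofReal (min |φ x - sm m x| n) :=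
        lintegral_mono_set hsub
    _ ≤ (∫⁻ x in Icc (pt a b q) (pt a b r) \ UK a b κ, ENNReal.ofReal (min |φ x - sm m x| n)) +
        ∫⁻ x in E, ENNReal.ofReal (min |φ x - sm m x| n) := lintegral_union_le _ _ _
    _ = ∫⁻ x in Icc (pt a b q) (pt a b r) \ UK a b κ, ENNReal.ofReal (min |φ x - sm m x| n) := by
        rw [setLIntegral_measure_zero _ _ hE0, add_zero]
    _ ≤ ENNReal.ofReal e := by
        rw [← ofReal_integral_eq_lintegral_ofReal
          (int_min hφ (hs m) hn0 (diff_finite a b q r κ))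
          (ae_of_all _ fun t => le_min (abs_nonneg _) hn0)]
        apply ENNReal.ofReal_le_ofReal
        have h5 : 0 ≤ ∑ z ∈ κ, 2 * (z.2.2 : ℝ) := Finset.sum_nonneg fun z hz => by
          have := TT_nonneg hab (h1 z hz).2.2.2
          simp only at this
          linarith
        linarith

theorem deriv_exc (hab : a < b) (hφ : Measurable φ) (hs : ∀ m, Continuous (sm m)) {K : Set ℝ}
    (hK : Exc a b φ K) (hKm : MeasurableSet K) {q r : ℚ} {M : ℕ → ℕ} {F : ℝ → ℝ}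
    (hK2 : K ⊆ Ioo (pt a b q) (pt a b r))
    (hM : ∀ k, Prem a b sm φ (TT a b sm φ) q r (M k) (1 / ((k : ℝ) + 1)))
    (hF : ∀ (k : ℕ) (ι : Type) (J : Finset ι) (u v : ι → ℝ), Adm a b φ q r J u v →
        ∑ i ∈ J, |F (v i) - F (u i) - Sg (sm (M k)) (u i) (v i)| ≤ 2 * (1 / ((k : ℝ) + 1))) :
    ∀ᵐ x, x ∈ K → HasDerivAt F (φ x) x := by
  set kk : ℕ → ℕ := fun j => 4 ^ j with hkk
  have hkb : ∀ j, 1 / ((kk j : ℝ) + 1) ≤ (1 / 4) ^ j := by
    intro j
    rw [hkk, div_pow, one_pow]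
    apply one_div_le_one_div_of_le (by positivity)
    push_cast
    linarith
  set s : ℕ → ℝ → ℝ := fun j => sm (M (kk j)) with hsd
  set E1 : ℕ → Set ℝ := fun j => {x | x ∈ K ∧ ∀ ε > (0 : ℝ), ∃ y, x < y ∧ y ≤ pt a b r ∧ y - x ≤ ε ∧
      (1 / 2) ^ j * (y - x) < |F y - F x - Sg (s j) x y|} with hE1
  set E2 : ℕ → Set ℝ := fun j => {x | x ∈ K ∧ ∀ ε > (0 : ℝ), ∃ y, y < x ∧ pt a b q ≤ y ∧ x - y ≤ ε ∧
      (1 / 2) ^ j * (x - y) < |F x - F y - Sg (s j) y x|} with hE2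
  have hbd : ∀ j, 2 * (1 / ((kk j : ℝ) + 1)) / (1 / 2) ^ j ≤ 2 * (1 / 2) ^ j := by
    intro j
    rw [div_le_iff₀ (by positivity)]
    have : (2 : ℝ) * (1 / 2) ^ j * (1 / 2) ^ j = 2 * (1 / 4) ^ j := by
      rw [mul_assoc, ← mul_pow]; norm_num
    rw [this]
    linarith [hkb j]
  have hsumm : Summable (fun j : ℕ => (2 : ℝ) * (1 / 2) ^ j) :=
    (summable_geometric_of_lt_one (by norm_num) (by norm_num)).mul_left 2
  have hfin : ∑' j : ℕ, ENNReal.ofReal ((2 : ℝ) * (1 / 2) ^ j) ≠ ⊤ := by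
    rw [← ENNReal.ofReal_tsum_of_nonneg (fun j => by positivity) hsumm]
    exact ENNReal.ofReal_ne_top
  have h1 : ∀ᵐ x, ∀ᶠ j in atTop, x ∉ E1 j := by
    apply ae_eventually_notMem
    refine ne_top_of_le_ne_top hfin (ENNReal.tsum_le_tsum fun j => ?_)
    exact (bad_right hK hK2 hF (kk j) (by positivity)).trans (ENNReal.ofReal_le_ofReal (hbd j))
  have h2 : ∀ᵐ x, ∀ᶠ j in atTop, x ∉ E2 j := by
    apply ae_eventually_notMem
    refine ne_top_of_le_ne_top hfin (ENNReal.tsum_le_tsum fun j => ?_)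
    exact (bad_left hK hK2 hF (kk j) (by positivity)).trans (ENNReal.ofReal_le_ofReal (hbd j))
  have h3 : ∀ᵐ x, x ∈ K → Tendsto (fun j => s j x) atTop (𝓝 (φ x)) := by
    have hm : ∀ j, Measurable (fun x => ENNReal.ofReal |φ x - s j x|) := fun j =>
      ((hφ.sub (hs _).measurable).abs).ennreal_ofReal
    have hi : ∫⁻ x in K, ∑' j, ENNReal.ofReal |φ x - s j x| ≠ ⊤ := by
      rw [lintegral_tsum fun j => (hm j).aemeasurable]
      have hsumm4 : Summable (fun j : ℕ => ((1 : ℝ) / 4) ^ j) :=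
        summable_geometric_of_lt_one (by norm_num) (by norm_num)
      have hfin4 : ∑' j : ℕ, ENNReal.ofReal (((1 : ℝ) / 4) ^ j) ≠ ⊤ := by
        rw [← ENNReal.ofReal_tsum_of_nonneg (fun j => by positivity) hsumm4]
        exact ENNReal.ofReal_ne_top
      refine ne_top_of_le_ne_top hfin4 (ENNReal.tsum_le_tsum fun j => ?_)
      exact (lint_exc hab hφ hs hK hK2 (hM (kk j))).trans (ENNReal.ofReal_le_ofReal (hkb j))
    have h4 := ae_lt_top (Measurable.tsum hm) hi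
    rw [ae_restrict_iff' hKm] at h4
    filter_upwards [h4] with x hx hxK
    have h5 := ENNReal.tendsto_atTop_zero_of_tsum_ne_top (hx hxK).ne
    have h6 : Tendsto (fun j => |φ x - s j x|) atTop (𝓝 0) := by
      have := (ENNReal.tendsto_toReal (ENNReal.zero_ne_top)).comp h5
      simpa [Function.comp_def, ENNReal.toReal_ofReal (abs_nonneg _)] using this
    have h6' : Tendsto (fun j => φ x - s j x) atTop (𝓝 0) :=
      (tendsto_zero_iff_abs_tendsto_zero _).2 h6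
    have h7 := (tendsto_const_nhds (x := φ x)).sub h6'
    simpa using h7
  filter_upwards [h1, h2, h3] with x hx1 hx2 hx3 hxK
  rw [hasDerivAt_iff_isLittleO, Asymptotics.isLittleO_iff]
  intro c hc
  have hhalf : Tendsto (fun j : ℕ => ((1 : ℝ) / 2) ^ j) atTop (𝓝 0) :=
    tendsto_pow_atTop_nhds_zero_of_lt_one (by norm_num) (by norm_num)
  obtain ⟨j, hj1, hj2, hj3, hj4⟩ := (hx1.and (hx2.and
    ((hhalf.eventually (gt_mem_nhds (show (0 : ℝ) < c / 3 by positivity))).and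
      ((Metric.tendsto_nhds.1 (hx3 hxK)) (c / 3) (by positivity))))).exists
  rw [Real.dist_eq] at hj4
  have hder := (hasDerivAt_iff_isLittleO.1 (Sg_hasDeriv (hs (M (kk j))) x x))
  rw [Asymptotics.isLittleO_iff] at hder
  have hder' := hder (show 0 < c / 3 by positivity)
  simp only [hE1, mem_ofPred_eq, not_and, not_forall] at hj1
  simp only [hE2, mem_ofPred_eq, not_and, not_forall] at hj2
  obtain ⟨ε1, hε1, hn1⟩ := hj1 hxK
  obtain ⟨ε2, hε2, hn2⟩ := hj2 hxK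
  push Not at hn1 hn2
  have hx := hK2 hxK
  have hnb1 : Ioo (x - min ε1 ε2) (x + min ε1 ε2) ∈ 𝓝 x :=
    Ioo_mem_nhds (by linarith [lt_min hε1 hε2]) (by linarith [lt_min hε1 hε2])
  have hnb2 : Ioo (pt a b q) (pt a b r) ∈ 𝓝 x := Ioo_mem_nhds hx.1 hx.2
  filter_upwards [hder', hnb1, hnb2] with y hy1 hy2 hy3
  have hS0 : Sg (sm (M (kk j))) x x = 0 := intervalIntegral.integral_same
  rw [hS0, sub_zero, smul_eq_mul, Real.norm_eq_abs, Real.norm_eq_abs] at hy1
  rw [smul_eq_mul, Real.norm_eq_abs, Real.norm_eq_abs]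
  have hmain : |F y - F x - Sg (s j) x y| ≤ (1 / 2) ^ j * |y - x| := by
    rcases lt_trichotomy x y with h | h | h
    · rw [abs_of_pos (sub_pos.2 h)]
      exact hn1 y h hy3.2.le (by linarith [hy2.2, min_le_left ε1 ε2])
    · subst h
      have : Sg (s j) x x = 0 := intervalIntegral.integral_same
      rw [this]; simp
    · rw [abs_of_neg (sub_neg.2 h), neg_sub]
      have h5 := hn2 y h hy3.1.le (by linarith [hy2.1, min_le_right ε1 ε2])
      have h6 : F y - F x - Sg (s j) x y = -(F x - F y - Sg (s j) y x) := by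
        have : Sg (s j) x y = - Sg (s j) y x := intervalIntegral.integral_symm _ _
        rw [this]; ring
      rw [h6, abs_neg]
      exact h5
  have e1 : F y - F x - (y - x) * φ x = (F y - F x - Sg (s j) x y) +
      (Sg (s j) x y - (y - x) * s j x) + (y - x) * (s j x - φ x) := by ring
  rw [e1]
  have e2 : |(y - x) * (s j x - φ x)| ≤ c / 3 * |y - x| := by
    rw [abs_mul, mul_comm]
    exact mul_le_mul_of_nonneg_right hj4.le (abs_nonneg _)
  have e3 : (1 / 2 : ℝ) ^ j * |y - x| ≤ c / 3 * |y - x| :=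
    mul_le_mul_of_nonneg_right hj3.le (abs_nonneg _)
  have e4 : |Sg (s j) x y - (y - x) * s j x| ≤ c / 3 * |y - x| := hy1
  calc |(F y - F x - Sg (s j) x y) + (Sg (s j) x y - (y - x) * s j x) + (y - x) * (s j x - φ x)|
      ≤ |F y - F x - Sg (s j) x y| + |Sg (s j) x y - (y - x) * s j x| +
        |(y - x) * (s j x - φ x)| := abs_add_three _ _ _
    _ ≤ c * |y - x| := by linarith

end

end K9h4.DC
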